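import Pool.Agent.Q191.FT.Diff
import Pool.Agent.W715.VC.Three

/-!
# The growth of the entries of full twists at the root of unity
-/

set_option autoImplicit false

namespace Pool.Agent.Q191.FT

open Matrix Finset Filter Topology
open Pool.Agent.W715.VC (rt rt_ne rt_zpow norm_rt_zpow rt_zpow_N br_rt sn PP QQ)
open Pool.Agent.H550R3.Jones (WM IsMod IsInt Gen br brf tens irr nb R Rh Rhi crossP crossN)
open GapVol (lob)
open scoped Real

theorem root_countable : {z : ℂ | ∃ n : ℕ, 0 < n ∧ z ^ n = 1}.Countable := by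
  refine (Algebraic.countable ℤ ℂ).mono ?_
  rintro z ⟨n, hn, hz⟩
  refine ⟨Polynomial.X ^ n - Polynomial.C 1, Polynomial.X_pow_sub_C_ne_zero hn 1, ?_⟩
  simp [hz]

/-- a good radius -/
theorem exists_radius (a : ℂ) {r0 : ℝ} (h : 0 < r0) : ∃ r, r0 / 2 < r ∧ r < r0 ∧
    ∀ v : ℂ, ‖v - a‖ = r → ∀ n : ℕ, 0 < n → v ^ n ≠ 1 := by
  have hc := (root_countable.image fun z => ‖z - a‖).dense_compl ℝ
  obtain ⟨r, hr, h1, h2⟩ := hc.exists_between (show r0 / 2 < r0 by linarith)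
  refine ⟨r, h1, h2, ?_⟩
  intro v hv n hn hvn
  exact hr ⟨v, ⟨n, hn, hvn⟩, hv⟩

theorem gen_of {v : ℂ} (hv : v ≠ 0) (h : ∀ n : ℕ, 0 < n → v ^ n ≠ 1) :
    ∃ u : ℂ, u ^ 2 = v ∧ Gen u := by
  obtain ⟨u, hu⟩ := IsAlgClosed.exists_pow_nat_eq v (n := 2) (by norm_num)
  refine ⟨u, hu, ?_, ?_⟩
  · intro h0
    rw [h0] at hu
    exact hv (by rw [← hu]; simp)
  · intro n hn h0
    rw [hu] at h0
    unfold br at h0
    rw [sub_eq_zero, _root_.zpow_neg, zpow_natCast] at h0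
    apply h (2 * n) (by omega)
    have h1 : v ^ n ≠ 0 := pow_ne_zero _ hv
    rw [two_mul, pow_add]
    nth_rewrite 1 [h0]
    exact inv_mul_cancel₀ h1

/-- the asymptotics of the bound -/
theorem Bd_le (K : ℕ) (ε : ℝ) (hε : 0 < ε) : ∃ ε' : ℝ, 0 < ε' ∧ ∀ᶠ N : ℕ in atTop, ∀ (m : ℕ) (r : ℝ),
    Rad K m N r → Bd K N (ε' * N + (1 + (4 * (K + 1) : ℕ) * Real.log (2 / r))) r ≤
      ((m : ℝ) + 1) ^ (24 * (K + 1) ^ 2 + 1) * Real.exp (N * ((2 * K + 2) * W8 / π + ε)) := by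
  set C : ℕ := 4 * (K + 1) with hC
  set a : ℕ := (6 * K + 6) * C + 1 with ha
  have ha' : 24 * (K + 1) ^ 2 + 1 = a := by rw [ha, hC]; ring
  rw [ha']
  set ε' : ℝ := ε / (2 * (6 * K + 6)) with hε'
  have hε'0 : 0 < ε' := by positivity
  refine ⟨ε', hε'0, ?_⟩
  set b : ℕ := 2 + K + 3 * a with hb
  set c : ℝ := 12 * ((K : ℝ) + 1) ^ 2 * 16 ^ K * Real.exp (6 * K + 6) * (512 * ((K : ℝ) + 1) ^ 2) ^ a with hc
  have hc0 : 0 < c := by positivity
  have hev : ∀ᶠ N : ℕ in atTop, c * (N : ℝ) ^ b ≤ Real.exp (ε / 2 * N) := by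
    have h1 := (isLittleO_pow_exp_pos_mul_atTop b (show 0 < ε / 2 by positivity)).bound
      (show 0 < 1 / c by positivity)
    have h2 := tendsto_natCast_atTop_atTop (R := ℝ) |>.eventually h1
    filter_upwards [h2] with N hN
    rw [Real.norm_of_nonneg (by positivity), Real.norm_of_nonneg (Real.exp_pos _).le] at hN
    calc c * (N : ℝ) ^ b ≤ c * (1 / c * Real.exp (ε / 2 * N)) := by gcongr
      _ = _ := by field_simp
  filter_upwards [hev] with N hN m r h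
  have hr0 := h.r0
  have hN1 : (1 : ℝ) ≤ N := by exact_mod_cast (by have := h.hN; omega : 1 ≤ N)
  have hm : (0 : ℝ) ≤ m := Nat.cast_nonneg m
  have hK : (0 : ℝ) ≤ K := Nat.cast_nonneg K
  set y : ℝ := 2 / r with hy
  have hy0 : 0 < y := by positivity
  have hyb : y ≤ 512 * ((K : ℝ) + 1) ^ 2 * ((N : ℝ) ^ 3 * ((m : ℝ) + 1)) := by
    rw [hy, div_le_iff₀ hr0]
    have := h.hr2
    nlinarith
  have e6 : 6 / r = 3 * y := by rw [hy]; ring
  set E0 : ℝ := Real.exp (N / π * W8) with hE0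
  have hexp : ∀ k : ℕ, Real.exp (N / π * W8 + 3 * (ε' * N + (1 + C * Real.log y))) ^ k =
      Real.exp (k * (N / π * W8)) * Real.exp (3 * k * (ε' * N)) * Real.exp (3 * k) *
        y ^ (3 * k * C) := by
    intro k
    have e1 : y ^ (3 * k * C) = Real.exp (((3 * k * C : ℕ) : ℝ) * Real.log y) := by
      rw [Real.exp_nat_mul, Real.exp_log hy0]
    rw [e1, ← Real.exp_nat_mul, ← Real.exp_add, ← Real.exp_add, ← Real.exp_add]
    congr 1
    push_cast; ring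
  have hfin : Bd K N (ε' * N + (1 + C * Real.log y)) r =
      12 * ((((K * N : ℕ) : ℝ) + 1) ^ 2 * (N : ℝ) ^ K * 16 ^ K * Real.exp (6 * K + 6)) * y ^ a *
        (Real.exp ((2 * K + 2) * (N / π * W8)) * Real.exp ((6 * K + 6) * (ε' * N))) := by
    unfold Bd
    rw [e6]
    have e2 : Real.exp (2 * (N / π * W8 + 3 * (ε' * N + (1 + C * Real.log y)))) =
        Real.exp (N / π * W8 + 3 * (ε' * N + (1 + C * Real.log y))) ^ 2 := by
      rw [← Real.exp_nat_mul]; norm_num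
    rw [e2]
    have e3 : ∀ E : ℝ, 2 * ((((K * N : ℕ) : ℝ) + 1) ^ 2 * (2 * (((N ^ K : ℕ) : ℝ) *
        ((E * 2 * 2) ^ K) ^ 2 * (3 * y * E ^ 2)))) =
        12 * ((((K * N : ℕ) : ℝ) + 1) ^ 2 * (N : ℝ) ^ K * 16 ^ K) * y * E ^ (2 * K + 2) := by
      intro E
      have e4 : ((E * 2 * 2) ^ K) ^ 2 = E ^ (2 * K) * 16 ^ K := by
        have e9 : E * 2 * 2 = E * 4 := by ring
        rw [e9, ← pow_mul, mul_comm K 2, mul_pow, pow_mul 4 2 K]
        norm_num
      rw [e4]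
      push_cast
      ring
    rw [e3, hexp]
    push_cast
    have e5 : y ^ a = y * y ^ (3 * (2 * K + 2) * C) := by
      rw [ha, ← pow_succ']
      congr 1
      ring
    rw [e5]
    have e7 : Real.exp (3 * (2 * (K : ℝ) + 2)) = Real.exp (6 * K + 6) := by congr 1; ring
    have e8 : 3 * (2 * (K : ℝ) + 2) * (ε' * N) = (6 * K + 6) * (ε' * N) := by ring
    rw [e7, e8]
    ring
  rw [hfin]
  have h1 : (((K * N : ℕ) : ℝ) + 1) ^ 2 ≤ ((K : ℝ) + 1) ^ 2 * (N : ℝ) ^ 2 := by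
    rw [← mul_pow]
    push_cast
    gcongr
    nlinarith
  have h2 : y ^ a ≤ (512 * ((K : ℝ) + 1) ^ 2) ^ a * ((N : ℝ) ^ (3 * a) * ((m : ℝ) + 1) ^ a) := by
    calc y ^ a ≤ (512 * ((K : ℝ) + 1) ^ 2 * ((N : ℝ) ^ 3 * ((m : ℝ) + 1))) ^ a := by gcongr
      _ = _ := by rw [mul_pow, mul_pow ((N : ℝ) ^ 3), ← pow_mul]
  have h3 : (6 * (K : ℝ) + 6) * (ε' * N) = ε / 2 * N := by
    rw [hε']
    field_simp
  rw [h3]
  have h4 : N * ((2 * K + 2) * W8 / π + ε) = (2 * K + 2) * (N / π * W8) + ε / 2 * N + ε / 2 * N := by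
    field_simp
    ring
  have h5 : Real.exp (N * ((2 * K + 2) * W8 / π + ε)) = Real.exp ((2 * K + 2) * (N / π * W8)) *
      Real.exp (ε / 2 * N) * Real.exp (ε / 2 * N) := by
    rw [h4, Real.exp_add, Real.exp_add]
  rw [h5]
  have hY1 : 0 < Real.exp ((2 * K + 2) * (N / π * W8)) := Real.exp_pos _
  generalize Real.exp ((2 * K + 2) * (N / π * W8)) = Y1 at hY1 ⊢
  clear_value a b c y
  calc _ ≤ 12 * (((K : ℝ) + 1) ^ 2 * (N : ℝ) ^ 2 * (N : ℝ) ^ K * 16 ^ K * Real.exp (6 * K + 6)) *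
        ((512 * ((K : ℝ) + 1) ^ 2) ^ a * ((N : ℝ) ^ (3 * a) * ((m : ℝ) + 1) ^ a)) *
        (Y1 * Real.exp (ε / 2 * N)) := by gcongr
    _ = (c * (N : ℝ) ^ b) * (((m : ℝ) + 1) ^ a * (Y1 * Real.exp (ε / 2 * N))) := by
      rw [hc, hb, pow_add, pow_add]
      generalize (512 * ((K : ℝ) + 1) ^ 2) ^ a = Y2
      generalize (N : ℝ) ^ (3 * a) = Y3
      generalize ((m : ℝ) + 1) ^ a = Y4
      generalize Real.exp (6 * (K : ℝ) + 6) = Y5
      ring
    _ ≤ Real.exp (ε / 2 * N) * (((m : ℝ) + 1) ^ a * (Y1 * Real.exp (ε / 2 * N))) := by gcongr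
    _ = _ := by ring

/-- the crossings near the root of unity -/
theorem near_ne {K m N : ℕ} {r : ℝ} (h : Rad K m N r) {v : ℂ} (hv : ‖v - rt N‖ ≤ r) :
    v ≠ 0 ∧ ∀ k : ℕ, 0 < k → k < N → br v k ≠ 0 := by
  have hr0 := h.r0
  rcases eq_or_lt_of_le (norm_nonneg (v - rt N)) with h0 | h0
  · have h1 : v = rt N := by
      rw [← sub_eq_zero, ← norm_eq_zero]
      exact h0.symm
    rw [h1]
    exact ⟨rt_ne N, fun k h2 h3 => Pool.Agent.W715.VC.br_ne (by omega) (by omega)⟩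
  · have hn : Near N (4 * (K + 1) * N) ‖v - rt N‖ v := by
      have h1 : Near N (4 * (K + 1) * N) r (rt N + r) := h.near (by
        rw [add_sub_cancel_left, Complex.norm_real, Real.norm_of_nonneg hr0.le])
      refine ⟨h1.hN, h1.hX, h0, ?_, rfl⟩
      refine le_trans ?_ h1.hr
      gcongr
    constructor
    · intro hv0
      have h2 := hn.r_le
      have h3 : ‖rt N‖ = 1 := by
        have := norm_rt_zpow N 1
        rwa [zpow_one] at this
      rw [hv0, zero_sub, norm_neg, h3] at h2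
      have h4 : (1 : ℝ) ≤ ((4 * (K + 1) * N : ℕ) : ℝ) := by
        have := h.hN
        exact_mod_cast (by nlinarith : 1 ≤ 4 * (K + 1) * N)
      linarith
    · intro k h1 h2
      exact hn.br_ne h1 (by nlinarith)

/-- the maximum principle -/
theorem max_bound {K m N : ℕ} {r η : ℝ} (h : Rad K m N r)
    (hroot : ∀ v : ℂ, ‖v - rt N‖ = r → ∀ n : ℕ, 0 < n → v ^ n ≠ 1)
    (hη : ∀ v : ℂ, ‖v - rt N‖ = r → ∀ n, n ≤ 4 * (K + 1) * N →
      |Real.log ‖brf v n‖ + N / π * lob (π * n / N)| ≤ η) (s0 t0 : Tp N K) :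
    ‖((TT (PP N) K) ^ m) s0 t0‖ ≤ Bd K N η r ∧ ‖((TT (QQ N) K) ^ m) s0 t0‖ ≤ Bd K N η r := by
  have hr0 := h.r0
  have hfr : ∀ z ∈ frontier (Metric.ball (rt N) r), ‖z - rt N‖ = r := by
    intro z hz
    rw [frontier_ball _ hr0.ne'] at hz
    exact mem_sphere_iff_norm.1 hz
  have hd : ∀ A : ℂ → Matrix (Fin N × Fin N) (Fin N × Fin N) ℂ,
      (∀ v : ℂ, ‖v - rt N‖ ≤ r → DA A v) →
      DiffContOnCl ℂ (fun v => ((TT (A v) K) ^ m) s0 t0) (Metric.ball (rt N) r) := by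
    intro A hA
    apply DifferentiableOn.diffContOnCl
    rw [closure_ball _ hr0.ne']
    intro v hv
    have hv' : ‖v - rt N‖ ≤ r := mem_closedBall_iff_norm.1 hv
    exact ((DA_TT (hA v hv') K).pow m s0 t0).differentiableWithinAt
  have hz : rt N ∈ closure (Metric.ball (rt N) r) := subset_closure (Metric.mem_ball_self hr0)
  constructor
  · refine Complex.norm_le_of_forall_mem_frontier_norm_le Metric.isBounded_ball
      (hd (fun v => crossP N v) fun v hv => ?_) ?_ hz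
    · obtain ⟨h1, h2⟩ := near_ne h hv
      exact crossP_diff h1 h2
    · intro v hv
      have hv1 := hfr v hv
      obtain ⟨u, hu, hg⟩ := gen_of (near_ne h hv1.le).1 (hroot v hv1)
      subst hu
      change ‖((TT (crossP N (u ^ 2)) K) ^ m) s0 t0‖ ≤ _
      rw [(Pool.Agent.H559R3.J.taskCross u hg N).1]
      refine pt_core h hg hv1 (hη _ hv1) (s := 1) (by simp) (TT_rib hg N K).2 ?_ s0 t0
      have h2 : (2 : ℤ) ≤ N := by exact_mod_cast h.hN
      rw [abs_neg, abs_of_nonneg]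
      nlinarith
  · refine Complex.norm_le_of_forall_mem_frontier_norm_le Metric.isBounded_ball
      (hd (fun v => crossN N v) fun v hv => ?_) ?_ hz
    · obtain ⟨h1, h2⟩ := near_ne h hv
      exact crossN_diff h1 h2
    · intro v hv
      have hv1 := hfr v hv
      obtain ⟨u, hu, hg⟩ := gen_of (near_ne h hv1.le).1 (hroot v hv1)
      subst hu
      change ‖((TT (crossN N (u ^ 2)) K) ^ m) s0 t0‖ ≤ _
      rw [(Pool.Agent.H559R3.J.taskCross u hg N).2]
      refine pt_core h hg hv1 (hη _ hv1) (s := -1) (by simp) (TT_rib_inv hg N K).2 ?_ s0 t0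
      have h2 : (2 : ℤ) ≤ N := by exact_mod_cast h.hN
      rw [abs_of_nonneg]
      nlinarith

/-- **Full twists**: the entries of the powers of a full twist of `K` strands grow at most like
`exp (N (K + 1) v_8 / 2 π)`, uniformly in the exponent. -/
theorem full_bound (K : ℕ) (ε : ℝ) (hε : 0 < ε) : ∀ᶠ N : ℕ in atTop, ∀ (m : ℕ) (s0 t0 : Tp N K),
    ‖((TT (PP N) K) ^ m) s0 t0‖ ≤
      ((m : ℝ) + 1) ^ (24 * (K + 1) ^ 2 + 1) * Real.exp (N * ((2 * K + 2) * W8 / π + ε)) ∧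
    ‖((TT (QQ N) K) ^ m) s0 t0‖ ≤
      ((m : ℝ) + 1) ^ (24 * (K + 1) ^ 2 + 1) * Real.exp (N * ((2 * K + 2) * W8 / π + ε)) := by
  obtain ⟨ε', hε', hB⟩ := Bd_le K ε hε
  have hS := S_bound (4 * (K + 1)) ε' hε'
  filter_upwards [hB, hS, eventually_ge_atTop 2] with N hB hS hN m s0 t0
  have hN0 : (0 : ℝ) < N := by exact_mod_cast (by omega : 0 < N)
  set D : ℝ := 128 * ((K : ℝ) + 1) ^ 2 * (N : ℝ) ^ 3 * ((m : ℝ) + 1) with hD
  have hD0 : 0 < D := by positivity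
  obtain ⟨r, h1, h2, hroot⟩ := exists_radius (rt N) (r0 := 1 / D) (by positivity)
  have hr0 : 0 < r := lt_trans (by positivity) h1
  have hrad : Rad K m N r := by
    refine ⟨hN, hr0, ?_, ?_⟩
    · have h3 : D * r ≤ D * (1 / D) := by gcongr
      rw [mul_one_div_cancel hD0.ne'] at h3
      exact h3
    · have h3 : D * (1 / D / 2) ≤ D * r := by gcongr
      have h4 : D * (1 / D / 2) = 1 / 2 := by field_simp
      rw [h4] at h3
      have h5 : 256 * ((K : ℝ) + 1) ^ 2 * (N : ℝ) ^ 3 * ((m : ℝ) + 1) * r = 2 * (D * r) := by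
        rw [hD]; ring
      rw [h5]
      linarith
  have hη : ∀ v : ℂ, ‖v - rt N‖ = r → ∀ n, n ≤ 4 * (K + 1) * N →
      |Real.log ‖brf v n‖ + N / π * lob (π * n / N)| ≤
        ε' * N + (1 + (4 * (K + 1) : ℕ) * Real.log (2 / r)) := by
    intro v hv n hn
    have e1 := (hrad.near hv).log_brf (C := 4 * (K + 1)) le_rfl n hn
    have e2 := hS n hn
    have e3 : Real.log ‖brf v n‖ + N / π * lob (π * n / N) =
        (Real.log ‖brf v n‖ - EvenVol.S N n) + (EvenVol.S N n + N / π * lob (π * n / N)) := by ring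
    rw [e3]
    refine (abs_add_le _ _).trans ?_
    linarith
  have hfin := hB m r hrad
  have hmx := max_bound hrad hroot hη s0 t0
  exact ⟨hmx.1.trans hfin, hmx.2.trans hfin⟩

end Pool.Agent.Q191.FT
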