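import Pool.Agent.Q191.FT.Belt
import Pool.Agent.Q191.FT.Max

/-!
# Belted full twists near the root of unity
-/

set_option autoImplicit false

namespace Pool.Agent.Q191.FT

open Matrix Finset Filter Topology
open Pool.Agent.W715.VC (rt rt_ne rt_zpow norm_rt_zpow rt_zpow_N br_rt sn PP QQ)
open Pool.Agent.H550R3.Jones (WM IsMod IsInt Gen br brf tens irr nb R Rh Rhi crossP crossN ptr)
open Pool.Agent.H897R.J (HasWt gen_br gen_v br_neg br_zero wt_F)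
open GapVol (lob)
open scoped Real

/-- the bound of the entries, for operators which are scalar on the eigenspaces -/
theorem sc_pt {K m N : ℕ} {r η : ℝ} (h : Rad K m N r) {u : ℂ} (hu : Gen u)
    (hv : ‖u ^ 2 - rt N‖ = r)
    (hL : ∀ n, n ≤ 4 * (K + 1) * N → |Real.log ‖brf (u ^ 2) n‖ + N / π * lob (π * n / N)| ≤ η)
    {X : Matrix (Tp N K) (Tp N K) ℂ} {f : ℤ → ℂ}
    (hR : Sc u (MM (u ^ 2) N K) X (K * ((N : ℤ) - 1)) f)
    {Θ : ℝ} (hΘ : ∀ c : ℕ, c ≤ 3 * (K * N) + 1 → ‖f c‖ ≤ Θ) (s0 t0 : Tp N K) :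
    ‖X s0 t0‖ ≤ (((K * N : ℕ) : ℝ) + 1) ^ 2 * (Θ * (((N ^ K : ℕ) : ℝ) *
      ((Real.exp (N / π * W8 + 3 * η) * 2 * 2) ^ K) ^ 2 *
      (6 / r * Real.exp (2 * (N / π * W8 + 3 * η))))) := by
  have hn := h.near hv
  have hN2 : (2 : ℝ) ≤ N := by exact_mod_cast h.hN
  have hN1 := h.hN
  have hr0 := h.r0
  set E1 := Real.exp (N / π * W8 + 3 * η) with hE1
  have hE1p : 0 < E1 := Real.exp_pos _
  have hNX : N ≤ 4 * (K + 1) * N := by nlinarith
  have hpos : ∀ n, n ≤ 4 * (K + 1) * N → 0 < ‖brf (u ^ 2) n‖ := fun n hn' => hn.brf_pos hn'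
  -- divided powers
  have hDB := DB_MM hu (N := N) (B := E1) (β := 2) (qb_of (by omega) hNX hpos hL)
    (K := K) (by
      intro e he
      apply hn.norm_zpow
      have h1 : |(e : ℝ)| ≤ 2 * (K * N) * N := by exact_mod_cast he
      have h3 := h.hr
      have hK : (0 : ℝ) ≤ K := Nat.cast_nonneg K
      have hm : (0 : ℝ) ≤ m := Nat.cast_nonneg m
      calc |(e : ℝ)| * r ≤ 2 * (K * N) * N * r := by gcongr
        _ ≤ 1 / 4 * (128 * ((K : ℝ) + 1) ^ 2 * (N : ℝ) ^ 3 * ((m : ℝ) + 1) * r) := by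
          have e1 : 1 / 4 * (128 * ((K : ℝ) + 1) ^ 2 * (N : ℝ) ^ 3 * ((m : ℝ) + 1) * r) =
            32 * (K + 1) * ((K + 1) * (N : ℝ)) * N * N * ((m : ℝ) + 1) * r := by ring
          have e2 : 2 * (K * (N : ℝ)) * N * r = 2 * 1 * (K * N) * N * 1 * 1 * r := by ring
          rw [e1, e2]
          have hK1 : (1 : ℝ) ≤ K + 1 := by linarith
          gcongr
          · linarith
          · linarith
          · linarith
          · linarith
        _ ≤ 1 / 4 := by linarith) K le_rfl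
  -- the main bound
  have hent := sc_ent hu (MM_mod (gen_v hu) N K) hR (B := (E1 * 2 * 2) ^ K) (by positivity)
    hDB.1 hDB.2
    (A := K * N) (fun i => by push_cast; exact (MM_wt (u ^ 2) N K i).1)
    (fun i => (MM_wt (u ^ 2) N K i).2) (Θ := Θ)
    (Q := 6 / r * Real.exp (2 * (N / π * W8 + 3 * η)))
    (fun c hc => hΘ c hc)
    (by positivity) (by
      intro μ i l hμ hil hl
      have hKN : 4 * (K + 1) * N = 4 * (K * N) + 4 * N := by ring
      have hb1 := (hn.br_bd (n := μ + 1 + 2 * i) (by omega) (by omega)).2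
      have hb2 := (hn.br_bd (n := μ + i + l + 1) (by omega) (by omega)).1
      have e1 : brf (u ^ 2) (μ + 1 + i + l) = brf (u ^ 2) (μ + i + l) *
          br (u ^ 2) ((μ + i + l + 1 : ℕ) : ℤ) := by
        have : μ + 1 + i + l = μ + i + l + 1 := by ring
        rw [this, brf_succ']
        push_cast; rfl
      have q1 := quotM (μ := μ) (by omega) hpos hL hil (by omega)
      have p3 := hpos (μ + i + l) (by omega)
      have p4 := hpos i (by omega)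
      have p5 := hpos (l - i) (by omega)
      rw [e1, norm_mul]
      push_cast at hb1 hb2 ⊢
      generalize Real.exp (2 * (N / π * W8 + 3 * η)) = E2 at q1 ⊢
      have hE2 : 0 ≤ E2 := by
        have : 0 ≤ E2 * (‖brf (u ^ 2) (μ + i + l)‖ * (‖brf (u ^ 2) i‖ * ‖brf (u ^ 2) (l - i)‖)) :=
          le_trans (by have := ga_pos (-2 * μ); positivity) q1
        exact nonneg_of_mul_nonneg_left this (by positivity)
      calc ga (-2 * μ) * ‖brf (u ^ 2) l‖ ^ 2 *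
            (‖brf (u ^ 2) (μ + i)‖ * ‖br (u ^ 2) ((μ : ℤ) + 1 + 2 * i)‖)
          = ga (-2 * μ) * ‖brf (u ^ 2) l‖ ^ 2 * ‖brf (u ^ 2) (μ + i)‖ *
            ‖br (u ^ 2) ((μ : ℤ) + 1 + 2 * i)‖ := by ring
        _ ≤ E2 * (‖brf (u ^ 2) (μ + i + l)‖ * (‖brf (u ^ 2) i‖ * ‖brf (u ^ 2) (l - i)‖)) * 3 := by
          gcongr
        _ = (6 / r * E2) * (‖brf (u ^ 2) (μ + i + l)‖ * (r / 2) *
            (‖brf (u ^ 2) i‖ * ‖brf (u ^ 2) (l - i)‖)) := by
          field_simp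
          ring
        _ ≤ (6 / r * E2) * (‖brf (u ^ 2) (μ + i + l)‖ *
            ‖br (u ^ 2) ((μ : ℤ) + i + l + 1)‖ * (‖brf (u ^ 2) i‖ * ‖brf (u ^ 2) (l - i)‖)) := by
          gcongr)
    s0 t0
  rw [card_Tp] at hent
  exact hent

/-- the eigenvalues of the circle -/
theorem chi_bound {K m N p : ℕ} {r : ℝ} (h : Rad K m N r) {v : ℂ} (hv : ‖v - rt N‖ = r)
    (hp : p ≤ m) {c : ℕ} (hc : c ≤ 3 * (K * N) + 1) : ‖chi v N c ^ p‖ ≤ 2 * (N : ℝ) ^ p := by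
  have hn := h.near hv
  have hN2 : (2 : ℝ) ≤ N := by exact_mod_cast h.hN
  have hr0 := h.r0
  have hK : (0 : ℝ) ≤ K := Nat.cast_nonneg K
  have hm : (0 : ℝ) ≤ m := Nat.cast_nonneg m
  have hpm : (p : ℝ) ≤ m := by exact_mod_cast hp
  set E : ℝ := 4 * (K + 1) * (N : ℝ) ^ 2 with hE
  have hE0 : 0 ≤ E := by positivity
  have hEr : E * (m + 1) * r ≤ 1 / 32 := by
    have h3 := h.hr
    have h1 : E * (m + 1) * r * 32 ≤ 128 * ((K : ℝ) + 1) ^ 2 * (N : ℝ) ^ 3 * ((m : ℝ) + 1) * r := by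
      have e1 : E * (m + 1) * r * 32 = 128 * ((K : ℝ) + 1) * (N : ℝ) ^ 2 * ((m : ℝ) + 1) * r := by
        rw [hE]; ring
      have e2 : 128 * ((K : ℝ) + 1) ^ 2 * (N : ℝ) ^ 3 * ((m : ℝ) + 1) * r =
          (128 * ((K : ℝ) + 1) * (N : ℝ) ^ 2 * ((m : ℝ) + 1) * r) * ((K + 1) * N) := by ring
      rw [e1, e2]
      have h2 : 0 ≤ 128 * ((K : ℝ) + 1) * (N : ℝ) ^ 2 * ((m : ℝ) + 1) * r := by positivity
      have h4 : (1 : ℝ) ≤ (K + 1) * N := by nlinarith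
      nlinarith
    linarith
  have hEr0 : E * r ≤ 1 / 32 := by
    have : E * r ≤ E * (m + 1) * r := by
      have : 0 ≤ E * r * m := by positivity
      nlinarith
    linarith
  have hx : ∀ x : Fin N, ‖v ^ ((c : ℤ) * (irr v N).wt x)‖ ≤ 1 + 4 * (E * r) := by
    intro x
    have hw := irr_wt v N x
    have he : |(((c : ℤ) * (irr v N).wt x : ℤ) : ℝ)| ≤ E := by
      push_cast
      rw [abs_mul, abs_of_nonneg (Nat.cast_nonneg c : (0 : ℝ) ≤ c)]
      have hw' : |((irr v N).wt x : ℝ)| ≤ N := by exact_mod_cast hw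
      have hc' : (c : ℝ) ≤ 3 * (K * N) + 1 := by exact_mod_cast hc
      calc (c : ℝ) * |((irr v N).wt x : ℝ)| ≤ (3 * (K * N) + 1) * N := by gcongr
        _ ≤ E := by
          rw [hE]
          nlinarith [mul_nonneg hK (sq_nonneg (N : ℝ))]
    have h1 := hn.small (e := (c : ℤ) * (irr v N).wt x) (by nlinarith)
    have h2 : v ^ ((c : ℤ) * (irr v N).wt x) = rt N ^ ((c : ℤ) * (irr v N).wt x) *
        ((v / rt N) ^ ((c : ℤ) * (irr v N).wt x) - 1) + rt N ^ ((c : ℤ) * (irr v N).wt x) := by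
      have h3 : v ^ ((c : ℤ) * (irr v N).wt x) = rt N ^ ((c : ℤ) * (irr v N).wt x) *
          (v / rt N) ^ ((c : ℤ) * (irr v N).wt x) := by
        rw [← mul_zpow, mul_div_cancel₀ _ (rt_ne N)]
      rw [h3]; ring
    rw [h2]
    refine (norm_add_le _ _).trans ?_
    rw [norm_mul, norm_rt_zpow, one_mul]
    have h4 : 4 * (|(((c : ℤ) * (irr v N).wt x : ℤ) : ℝ)| * r) ≤ 4 * (E * r) := by gcongr
    linarith
  have h1 : ‖chi v N c‖ ≤ N * (1 + 4 * (E * r)) := by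
    unfold chi
    rw [norm_mul, norm_pow, norm_neg, norm_one, one_pow, one_mul]
    refine (norm_sum_le _ _).trans ((sum_le_sum fun x _ => hx x).trans ?_)
    rw [sum_const, card_univ, Fintype.card_fin, nsmul_eq_mul]
  rw [norm_pow]
  have h2 : (1 + 4 * (E * r)) ^ p ≤ 2 := by
    have h3 : (1 + 4 * (E * r)) ^ p ≤ Real.exp (p * (4 * (E * r))) := by
      rw [Real.exp_nat_mul]
      have := Real.add_one_le_exp (4 * (E * r))
      have h0 : 0 ≤ E * r := by positivity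
      gcongr
      linarith
    have h4 : (p : ℝ) * (4 * (E * r)) ≤ 1 / 8 := by
      have : (p : ℝ) * (E * r) ≤ E * (m + 1) * r := by
        have h0 : 0 ≤ E * r := by positivity
        nlinarith
      linarith
    have h5 : Real.exp (p * (4 * (E * r))) ≤ Real.exp (1 / 8) := Real.exp_le_exp.2 h4
    have h6 : Real.exp (1 / 8 : ℝ) ≤ 2 := by
      have := abs_le.1 (Real.abs_exp_sub_one_sub_id_le (x := 1 / 8) (by rw [abs_of_nonneg] <;> norm_num))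
      norm_num at this ⊢
      linarith [this.2]
    linarith
  calc ‖chi v N c‖ ^ p ≤ (N * (1 + 4 * (E * r))) ^ p := by gcongr
    _ = (1 + 4 * (E * r)) ^ p * (N : ℝ) ^ p := by rw [mul_pow]; ring
    _ ≤ 2 * (N : ℝ) ^ p := by gcongr

/-- `m` full twists and `p` circles at a point of the circle -/
theorem pt_belt {K m p M N : ℕ} {r η : ℝ} (h : Rad K M N r) (hmM : m ≤ M) (hpM : p ≤ M) {u : ℂ}
    (hu : Gen u)
    (hv : ‖u ^ 2 - rt N‖ = r)
    (hL : ∀ n, n ≤ 4 * (K + 1) * N → |Real.log ‖brf (u ^ 2) n‖ + N / π * lob (π * n / N)| ≤ η)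
    {A : Matrix (Fin N × Fin N) (Fin N × Fin N) ℂ} {s : ℤ} (hs : |s| = 1)
    (hR : Rib u (MM (u ^ 2) N K) (TT A K) s (K * ((N : ℤ) - 1)) (K * ((N : ℤ) ^ 2 - 1)))
    {f g : ℤ} (hf : |f| = (N : ℤ) ^ 2 - 1) (hg : |g| = (N : ℤ) ^ 2 - 1) (s0 t0 : Tp N K) :
    ‖((TT (u ^ f • A) K) ^ m *
      (BB (u ^ 2) (u ^ g • Rh u (irr (u ^ 2) N) (irr (u ^ 2) N)) K) ^ p) s0 t0‖ ≤
        4 * (N : ℝ) ^ p * Bd K N η r := by
  have hN2 : (2 : ℝ) ≤ N := by exact_mod_cast h.hN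
  have hr0 := h.r0
  have hK : (0 : ℝ) ≤ K := Nat.cast_nonneg K
  have hm : (0 : ℝ) ≤ M := Nat.cast_nonneg M
  have hmM' : (m : ℝ) ≤ M := by exact_mod_cast hmM
  have hpM' : (p : ℝ) ≤ M := by exact_mod_cast hpM
  have hS := (hR.sc.pow m).mul ((BB_sc hu N K).pow p)
  have hent := sc_pt h hu hv hL hS (Θ := 2 * (2 * (N : ℝ) ^ p)) (by
    intro c hc
    rw [norm_mul]
    refine mul_le_mul ?_ (chi_bound h hv hpM hc) (norm_nonneg _) (by norm_num)
    rw [norm_pow]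
    apply h.u_pow hv
    have hc' : (c : ℝ) ≤ 3 * (K * N) + 1 := by exact_mod_cast hc
    have hc0 : (0 : ℝ) ≤ c := Nat.cast_nonneg c
    have h1 : |(((s * ((c : ℤ) ^ 2 - 1 - K * ((N : ℤ) ^ 2 - 1)) : ℤ)) : ℝ)| ≤
        (c : ℝ) ^ 2 + 1 + K * N ^ 2 := by
      have hs' : |(s : ℝ)| = 1 := by exact_mod_cast hs
      rw [Int.cast_mul, abs_mul, hs', one_mul, abs_le]
      push_cast
      constructor <;> nlinarith [sq_nonneg (c : ℝ), mul_nonneg hK (sq_nonneg (N : ℝ))]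
    have h2 : (c : ℝ) ^ 2 + 1 + K * N ^ 2 ≤ 32 * ((K : ℝ) + 1) ^ 2 * (N : ℝ) ^ 2 := by
      have h3 : (c : ℝ) ^ 2 ≤ (3 * (K * N) + 1) ^ 2 := by gcongr
      have h4 : (3 * (K * (N : ℝ)) + 1) ≤ 3 * ((K + 1) * N) := by nlinarith
      have h5 : (3 * (K * (N : ℝ)) + 1) ^ 2 ≤ (3 * ((K + 1) * N)) ^ 2 := by gcongr
      have h6 : K * (N : ℝ) ^ 2 ≤ ((K : ℝ) + 1) ^ 2 * (N : ℝ) ^ 2 := by
        gcongr
        nlinarith
      have h7 : (1 : ℝ) ≤ ((K : ℝ) + 1) ^ 2 * (N : ℝ) ^ 2 := by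
        have h8 : (1 : ℝ) ≤ ((K : ℝ) + 1) ^ 2 := by nlinarith
        have h9 : (1 : ℝ) ≤ (N : ℝ) ^ 2 := by nlinarith
        nlinarith
      nlinarith
    calc _ ≤ ((c : ℝ) ^ 2 + 1 + K * N ^ 2) * m := by gcongr
      _ ≤ (32 * ((K : ℝ) + 1) ^ 2 * (N : ℝ) ^ 2) * (M + 1) := by
        gcongr
        linarith) s0 t0
  -- the framing
  rw [TT_smul, BB_smul, smul_pow, smul_pow, smul_mul_smul_comm, Matrix.smul_apply, smul_eq_mul,
    norm_mul, norm_mul]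
  have hfr : ‖((u ^ f) ^ nc K) ^ m‖ ≤ 2 := by
    rw [← pow_mul, norm_pow]
    apply h.u_pow hv
    have hf' : |(f : ℝ)| ≤ (N : ℝ) ^ 2 := by
      have : |f| ≤ (N : ℤ) ^ 2 := by omega
      exact_mod_cast this
    have hnc : ((nc K : ℕ) : ℝ) ≤ ((K : ℝ) + 1) ^ 2 := by
      have h1 : nc K ≤ (K + 1) ^ 2 := by
        rw [nc_eq]
        have h2 : K * (K - 1) ≤ K * K := Nat.mul_le_mul_left K (Nat.sub_le K 1)
        nlinarith
      exact_mod_cast h1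
    push_cast
    calc |(f : ℝ)| * ((nc K : ℝ) * m) ≤ (N : ℝ) ^ 2 * (((K : ℝ) + 1) ^ 2 * (M + 1)) := by
          gcongr
          linarith
      _ ≤ _ := by
          have : 0 ≤ (N : ℝ) ^ 2 * (((K : ℝ) + 1) ^ 2 * (M + 1)) := by positivity
          nlinarith
  have hfr2 : ‖((u ^ g) ^ (2 * K)) ^ p‖ ≤ 2 := by
    rw [← pow_mul, norm_pow]
    apply h.u_pow hv
    have hg' : |(g : ℝ)| ≤ (N : ℝ) ^ 2 := by
      have : |g| ≤ (N : ℤ) ^ 2 := by omega
      exact_mod_cast this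
    have hnc : 2 * (K : ℝ) ≤ ((K : ℝ) + 1) ^ 2 := by nlinarith
    push_cast
    calc |(g : ℝ)| * (2 * (K : ℝ) * p) ≤ (N : ℝ) ^ 2 * (((K : ℝ) + 1) ^ 2 * (M + 1)) := by
          gcongr
          linarith
      _ ≤ _ := by
          have : 0 ≤ (N : ℝ) ^ 2 * (((K : ℝ) + 1) ^ 2 * (M + 1)) := by positivity
          nlinarith
  have hfr3 : ‖((u ^ f) ^ nc K) ^ m‖ * ‖((u ^ g) ^ (2 * K)) ^ p‖ ≤ 2 * 2 :=
    mul_le_mul hfr hfr2 (norm_nonneg _) (by norm_num)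
  refine (mul_le_mul hfr3 hent (norm_nonneg _) (by norm_num)).trans (le_of_eq ?_)
  unfold Bd
  ring

/-! ### Differentiability -/

theorem DA_BB {N : ℕ} {A : ℂ → Matrix (Fin N × Fin N) (Fin N × Fin N) ℂ} {v : ℂ} (hv : v ≠ 0)
    (hA : DA A v) (k : ℕ) : DA (fun w => BB w (A w) k) v := by
  intro i j
  unfold BB
  have h : ∀ w, ((-1 : ℂ) ^ (N - 1) • ptr (fun x => w ^ (irr w N).wt x) (Jop (A w) k)) i j =
      (-1 : ℂ) ^ (N - 1) * ∑ x : Fin N, w ^ ((N : ℤ) - 1 - 2 * (x : ℕ)) * Jop (A w) k (i, x) (j, x) :=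
    fun w => rfl
  simp only [h]
  exact (differentiableAt_const _).mul
    (DifferentiableAt.fun_sum fun x _ => (zpow_diff hv _).mul (DA_Jop hA k (i, x) (j, x)))

/-- the maximum principle -/
theorem max_belt {K m p M N : ℕ} {r η : ℝ} (h : Rad K M N r) (hmM : m ≤ M) (hpM : p ≤ M)
    (hroot : ∀ v : ℂ, ‖v - rt N‖ = r → ∀ n : ℕ, 0 < n → v ^ n ≠ 1)
    (hη : ∀ v : ℂ, ‖v - rt N‖ = r → ∀ n, n ≤ 4 * (K + 1) * N →
      |Real.log ‖brf v n‖ + N / π * lob (π * n / N)| ≤ η) (s0 t0 : Tp N K) :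
    ‖((TT (PP N) K) ^ m * (BB (rt N) (PP N) K) ^ p) s0 t0‖ ≤ 4 * (N : ℝ) ^ p * Bd K N η r ∧
    ‖((TT (QQ N) K) ^ m * (BB (rt N) (PP N) K) ^ p) s0 t0‖ ≤ 4 * (N : ℝ) ^ p * Bd K N η r := by
  have hr0 := h.r0
  have hfr : ∀ z ∈ frontier (Metric.ball (rt N) r), ‖z - rt N‖ = r := by
    intro z hz
    rw [frontier_ball _ hr0.ne'] at hz
    exact mem_sphere_iff_norm.1 hz
  have hd : ∀ A : ℂ → Matrix (Fin N × Fin N) (Fin N × Fin N) ℂ,
      (∀ v : ℂ, ‖v - rt N‖ ≤ r → DA A v) →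
      DiffContOnCl ℂ (fun v => ((TT (A v) K) ^ m * (BB v (crossP N v) K) ^ p) s0 t0)
        (Metric.ball (rt N) r) := by
    intro A hA
    apply DifferentiableOn.diffContOnCl
    rw [closure_ball _ hr0.ne']
    intro v hv
    have hv' : ‖v - rt N‖ ≤ r := mem_closedBall_iff_norm.1 hv
    obtain ⟨h1, h2⟩ := near_ne h hv'
    exact (((DA_TT (hA v hv') K).pow m).mul
      ((DA_BB h1 (crossP_diff h1 h2) K).pow p) s0 t0).differentiableWithinAt
  have hz : rt N ∈ closure (Metric.ball (rt N) r) := subset_closure (Metric.mem_ball_self hr0)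
  have h2N : (2 : ℤ) ≤ N := by exact_mod_cast h.hN
  have hfp : |(-((N : ℤ) ^ 2 - 1))| = (N : ℤ) ^ 2 - 1 := by
    rw [abs_neg, abs_of_nonneg]
    nlinarith
  have hfm : |((N : ℤ) ^ 2 - 1)| = (N : ℤ) ^ 2 - 1 := by
    rw [abs_of_nonneg]
    nlinarith
  constructor
  · refine Complex.norm_le_of_forall_mem_frontier_norm_le Metric.isBounded_ball
      (hd (fun v => crossP N v) fun v hv => ?_) ?_ hz
    · obtain ⟨h1, h2⟩ := near_ne h hv
      exact crossP_diff h1 h2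
    · intro v hv
      have hv1 := hfr v hv
      obtain ⟨u, hu, hg⟩ := gen_of (near_ne h hv1.le).1 (hroot v hv1)
      subst hu
      rw [(Pool.Agent.H559R3.J.taskCross u hg N).1]
      exact pt_belt h hmM hpM hg hv1 (hη _ hv1) (s := 1) (by simp) (TT_rib hg N K).2 hfp hfp s0 t0
  · refine Complex.norm_le_of_forall_mem_frontier_norm_le Metric.isBounded_ball
      (hd (fun v => crossN N v) fun v hv => ?_) ?_ hz
    · obtain ⟨h1, h2⟩ := near_ne h hv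
      exact crossN_diff h1 h2
    · intro v hv
      have hv1 := hfr v hv
      obtain ⟨u, hu, hg⟩ := gen_of (near_ne h hv1.le).1 (hroot v hv1)
      subst hu
      rw [(Pool.Agent.H559R3.J.taskCross u hg N).2, (Pool.Agent.H559R3.J.taskCross u hg N).1]
      exact pt_belt h hmM hpM hg hv1 (hη _ hv1) (s := -1) (by simp) (TT_rib_inv hg N K).2 hfm hfp
        s0 t0

/-- **Belted full twists**: the entries grow at most like `exp (N (K + 1) v_8 / 2 π)`. -/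
theorem belt_bound (K : ℕ) (ε : ℝ) (hε : 0 < ε) : ∀ᶠ N : ℕ in atTop, ∀ (m p : ℕ) (s0 t0 : Tp N K),
    ‖((TT (PP N) K) ^ m * (BB (rt N) (PP N) K) ^ p) s0 t0‖ ≤ (N : ℝ) ^ p *
      (((m + p : ℕ) : ℝ) + 1) ^ (24 * (K + 1) ^ 2 + 1) * Real.exp (N * ((2 * K + 2) * W8 / π + ε)) ∧
    ‖((TT (QQ N) K) ^ m * (BB (rt N) (PP N) K) ^ p) s0 t0‖ ≤ (N : ℝ) ^ p *
      (((m + p : ℕ) : ℝ) + 1) ^ (24 * (K + 1) ^ 2 + 1) * Real.exp (N * ((2 * K + 2) * W8 / π + ε)) := by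
  obtain ⟨ε', hε', hB⟩ := Bd_le K (ε / 2) (by positivity)
  have hS := S_bound (4 * (K + 1)) ε' hε'
  have h4 : ∀ᶠ N : ℕ in atTop, (4 : ℝ) ≤ Real.exp (N * (ε / 2)) := by
    have h := (Real.tendsto_exp_atTop.comp
      ((tendsto_natCast_atTop_atTop (R := ℝ)).atTop_mul_const (show 0 < ε / 2 by positivity)))
    exact h.eventually_ge_atTop 4
  filter_upwards [hB, hS, eventually_ge_atTop 2, h4] with N hB hS hN h4 m p s0 t0
  have hN0 : (0 : ℝ) < N := by exact_mod_cast (by omega : 0 < N)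
  set D : ℝ := 128 * ((K : ℝ) + 1) ^ 2 * (N : ℝ) ^ 3 * (((m + p : ℕ) : ℝ) + 1) with hD
  have hD0 : 0 < D := by positivity
  obtain ⟨r, h1, h2, hroot⟩ := exists_radius (rt N) (r0 := 1 / D) (by positivity)
  have hr0 : 0 < r := lt_trans (by positivity) h1
  have hrad : Rad K (m + p) N r := by
    refine ⟨hN, hr0, ?_, ?_⟩
    · have h3 : D * r ≤ D * (1 / D) := by gcongr
      rw [mul_one_div_cancel hD0.ne'] at h3
      exact h3
    · have h3 : D * (1 / D / 2) ≤ D * r := by gcongr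
      have h4 : D * (1 / D / 2) = 1 / 2 := by field_simp
      rw [h4] at h3
      have h5 : 256 * ((K : ℝ) + 1) ^ 2 * (N : ℝ) ^ 3 * (((m + p : ℕ) : ℝ) + 1) * r = 2 * (D * r) := by
        rw [hD]; ring
      rw [h5]
      linarith
  have hη : ∀ v : ℂ, ‖v - rt N‖ = r → ∀ n, n ≤ 4 * (K + 1) * N →
      |Real.log ‖brf v n‖ + N / π * lob (π * n / N)| ≤
        ε' * N + (1 + (4 * (K + 1) : ℕ) * Real.log (2 / r)) := by
    intro v hv n hn
    have e1 := (hrad.near hv).log_brf (C := 4 * (K + 1)) le_rfl n hn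
    have e2 := hS n hn
    have e3 : Real.log ‖brf v n‖ + N / π * lob (π * n / N) =
        (Real.log ‖brf v n‖ - EvenVol.S N n) + (EvenVol.S N n + N / π * lob (π * n / N)) := by ring
    rw [e3]
    refine (abs_add_le _ _).trans ?_
    linarith
  have hfin := hB (m + p) r hrad
  have hmx := max_belt hrad (Nat.le_add_right m p) (Nat.le_add_left p m) hroot hη s0 t0
  have hlast : 4 * (N : ℝ) ^ p * Bd K N (ε' * N + (1 + (4 * (K + 1) : ℕ) * Real.log (2 / r))) r ≤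
      (N : ℝ) ^ p * (((m + p : ℕ) : ℝ) + 1) ^ (24 * (K + 1) ^ 2 + 1) *
        Real.exp (N * ((2 * K + 2) * W8 / π + ε)) := by
    have e1 : Real.exp (N * ((2 * K + 2) * W8 / π + ε)) =
        Real.exp (N * ((2 * K + 2) * W8 / π + ε / 2)) * Real.exp (N * (ε / 2)) := by
      rw [← Real.exp_add]; congr 1; ring
    rw [e1]
    calc _ ≤ 4 * (N : ℝ) ^ p * ((((m + p : ℕ) : ℝ) + 1) ^ (24 * (K + 1) ^ 2 + 1) *
          Real.exp (N * ((2 * K + 2) * W8 / π + ε / 2))) := by gcongr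
      _ = (N : ℝ) ^ p * (((m + p : ℕ) : ℝ) + 1) ^ (24 * (K + 1) ^ 2 + 1) *
          (Real.exp (N * ((2 * K + 2) * W8 / π + ε / 2)) * 4) := by ring
      _ ≤ _ := by gcongr
  exact ⟨hmx.1.trans hlast, hmx.2.trans hlast⟩

end Pool.Agent.Q191.FT
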