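import Pool.Agent.Q191.FT.Dg
import Pool.Agent.Q191.FT.BPt

/-!
# Words of circles and full twists
-/

set_option autoImplicit false

namespace Pool.Agent.Q191.FT

open Matrix Finset
open Pool.Agent.W709.QAT (Piece run kap)
open Pool.Agent.H550R3.Jones (br brf crossP crossN ptr irr)

variable {N : ℕ}

/-- crossings as pieces -/
def cw (σ : Bool) (w : List ℕ) : List Piece := w.map fun j => Piece.twist j σ 1

/-- a circle around the strands `i, …, i + k - 1` -/
def circ (i k : ℕ) : List Piece := Piece.cup (i + k) :: (cw true (around i k) ++ [Piece.cap (i + k)])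

/-- `p` circles -/
def circs (i k p : ℕ) : List Piece := (List.replicate p (circ i k)).flatten

/-- `p` circles and `m` full twists -/
def bw (i k : ℕ) (σ : Bool) (m p : ℕ) : List Piece := circs i k p ++ cw σ (ftws i k m)

theorem run_append (v : ℂ) (D D' : List Piece) (f : List (Fin N) → ℂ) :
    run N v (D ++ D') f = run N v D' (run N v D f) := by
  unfold run
  rw [List.foldl_append]

theorem act_twist (v : ℂ) (j : ℕ) (σ : Bool) (f : List (Fin N) → ℂ) :
    Piece.act N v (.twist j σ 1) f = op (if σ then crossP N v else crossN N v) j f := by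
  funext s
  simp only [Piece.act, op, pow_one]
  rcases s.drop j with _ | ⟨a, _ | ⟨b, r⟩⟩ <;> rfl

theorem run_cw (v : ℂ) (σ : Bool) (w : List ℕ) : ∀ f : List (Fin N) → ℂ,
    run N v (cw σ w) f = wop (if σ then crossP N v else crossN N v) w f := by
  induction w with
  | nil => intro f; rfl
  | cons j w ih =>
    intro f
    have e : cw σ (j :: w) = [Piece.twist j σ 1] ++ cw σ w := rfl
    rw [e, run_append, ih]
    have e2 : run N v [Piece.twist j σ 1] f = op (if σ then crossP N v else crossN N v) j f :=
      act_twist v j σ f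
    rw [e2]
    rfl

theorem cup_app (v : ℂ) (f : List (Fin N) → ℂ) (l : List (Fin N)) (a b : Fin N)
    (r : List (Fin N)) {j : ℕ} (hj : l.length = j) :
    Piece.act N v (.cup j) f (l ++ a :: b :: r) =
      Pool.Agent.W709.QAT.cup N v (a, b) * f (l ++ r) := by
  subst hj
  simp only [Piece.act, List.drop_left, List.take_left]

theorem cup_short (v : ℂ) (f : List (Fin N) → ℂ) {s : List (Fin N)} {j : ℕ}
    (h : s.length < j + 2) : Piece.act N v (.cup j) f s = 0 := by
  simp only [Piece.act]
  split
  · rename_i a b r hd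
    exfalso
    have := congrArg List.length hd
    rw [List.length_drop] at this
    simp at this
    omega
  · rfl

theorem cap_app (v : ℂ) (f : List (Fin N) → ℂ) (l r : List (Fin N)) {j : ℕ} (hj : l.length = j) :
    Piece.act N v (.cap j) f (l ++ r) =
      ∑ p : Fin N × Fin N, Pool.Agent.W709.QAT.cap N v p * f (l ++ p.1 :: p.2 :: r) := by
  subst hj
  simp only [Piece.act, List.drop_left, List.take_left]

/-- operators preserve the number of strands -/
theorem wop_len (A : Matrix (Fin N × Fin N) (Fin N × Fin N) ℂ) (w : List ℕ) :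
    ∀ (f : List (Fin N) → ℂ) (s : List (Fin N)),
    (∀ s' : List (Fin N), s'.length = s.length → f s' = 0) → wop A w f s = 0 := by
  induction w using List.reverseRecOn with
  | nil => intro f s h; exact h s rfl
  | append_singleton w l ih =>
    intro f s h
    rw [wop_append, wop_single]
    exact op_eq_zero A l fun s' hs' => ih f s' fun s'' hs'' => h s'' (hs''.trans hs')

theorem circ_short (v : ℂ) (i k : ℕ) (f : List (Fin N) → ℂ) {s : List (Fin N)}
    (h : s.length < i + k) : run N v (circ i k) f s = 0 := by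
  have e : circ i k = [Piece.cup (i + k)] ++ (cw true (around i k) ++ [Piece.cap (i + k)]) := rfl
  rw [e, run_append, run_append, run_cw]
  change Piece.act N v (.cap (i + k)) _ s = 0
  simp only [Piece.act]
  refine sum_eq_zero fun p _ => ?_
  rw [wop_len, mul_zero]
  intro s' hs'
  change Piece.act N v (.cup (i + k)) f s' = 0
  apply cup_short
  rw [hs', List.length_append, List.length_take, List.length_cons, List.length_cons,
    List.length_drop]
  omega

theorem kap_ratio {v : ℂ} (hv : v ≠ 0) (hN : ∀ k : ℕ, 0 < k → k < N → br v k ≠ 0) {a b : ℕ}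
    (hN1 : 1 ≤ N) (hab : a + b = N - 1) :
    (kap N v b)⁻¹ * kap N v a = (-1) ^ (N - 1) * v ^ ((N : ℤ) - 1 - 2 * a) := by
  have hb : kap N v b ≠ 0 := Pool.Agent.W613.QAT.kap_ne hv hN hN1 (by omega)
  have h : kap N v a = (-1) ^ (N - 1) * v ^ ((N : ℤ) - 1 - 2 * a) * kap N v b := by
    unfold kap
    have e1 : N - 1 - a = b := by omega
    have e2 : N - 1 - b = a := by omega
    rw [e1, e2, ← hab]
    have e3 : (N : ℤ) = a + b + 1 := by omega
    have e4 : ((a : ℤ) * ((N : ℤ) - 2 - a)) = ((N : ℤ) - 1 - 2 * a) + (b : ℤ) * ((N : ℤ) - 2 - b) := by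
      rw [e3]; ring
    rw [e4, zpow_add₀ hv, pow_add]
    have e5 : (-1 : ℂ) ^ b * (-1) ^ b = 1 := by
      rw [← mul_pow]; simp
    linear_combination (-((-1 : ℂ) ^ a * (v ^ ((N : ℤ) - 1 - 2 * a) * v ^ ((b : ℤ) * ((N : ℤ) - 2 - b))) *
      (brf v a * brf v b / brf v (a + b)))) * e5
  rw [h]
  field_simp

/-- closing the strand of a circle -/
theorem close_sum {v : ℂ} (hv : v ≠ 0) (hN : ∀ k : ℕ, 0 < k → k < N → br v k ≠ 0)
    (J : Fin N → Fin N → ℂ) :
    ∑ p : Fin N × Fin N, Pool.Agent.W709.QAT.cap N v p *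
      ∑ a, J p.1 a * Pool.Agent.W709.QAT.cup N v (a, p.2) =
    (-1) ^ (N - 1) * ∑ x, v ^ (irr v N).wt x * J x x := by
  rw [Fintype.sum_prod_type, mul_sum]
  refine sum_congr rfl fun x _ => ?_
  have hx : (x : ℕ) + (Fin.rev x : Fin N) = N - 1 := by
    rw [Fin.val_rev]
    have := x.2
    omega
  rw [sum_eq_single (Fin.rev x)]
  · have h1 : Pool.Agent.W709.QAT.cap N v (x, Fin.rev x) = (kap N v (Fin.rev x : Fin N))⁻¹ := by
      unfold Pool.Agent.W709.QAT.cap
      rw [if_pos hx]
    have h2 : ∑ a, J x a * Pool.Agent.W709.QAT.cup N v (a, Fin.rev x) = J x x * kap N v x := by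
      rw [sum_eq_single x]
      · unfold Pool.Agent.W709.QAT.cup
        rw [if_pos hx]
      · intro a _ ha
        unfold Pool.Agent.W709.QAT.cup
        rw [if_neg, mul_zero]
        intro h
        apply ha
        apply Fin.ext
        change (a : ℕ) + (Fin.rev x : Fin N) = N - 1 at h
        omega
      · intro h; exact absurd (mem_univ _) h
    change Pool.Agent.W709.QAT.cap N v (x, Fin.rev x) *
      ∑ a, J x a * Pool.Agent.W709.QAT.cup N v (a, Fin.rev x) = _
    rw [h1, h2]
    have h3 := kap_ratio hv hN (a := (x : ℕ)) (b := ((Fin.rev x : Fin N) : ℕ))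
      (by have := x.2; omega) hx
    have h4 : (irr v N).wt x = (N : ℤ) - 1 - 2 * (x : ℕ) := rfl
    rw [h4]
    linear_combination (J x x) * h3
  · intro b _ hb
    have : Pool.Agent.W709.QAT.cap N v (x, b) = 0 := by
      unfold Pool.Agent.W709.QAT.cap
      rw [if_neg]
      intro h
      apply hb
      apply Fin.ext
      change (x : ℕ) + (b : ℕ) = N - 1 at h
      omega
    rw [this, zero_mul]
  · intro h; exact absurd (mem_univ _) h

theorem Rep_circ {v : ℂ} (hv : v ≠ 0) (hN : ∀ k : ℕ, 0 < k → k < N → br v k ≠ 0) (i k : ℕ) :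
    Rep i k (BB v (crossP N v) k) (run N v (circ i k)) := by
  intro l r hl f y
  have e : circ i k = [Piece.cup (i + k)] ++ (cw true (around i k) ++ [Piece.cap (i + k)]) := rfl
  rw [e, run_append, run_append, run_cw]
  change Piece.act N v (.cap (i + k)) (wop (crossP N v) (around i k)
    (Piece.act N v (.cup (i + k)) f)) (l ++ (toL k y ++ r)) = _
  have hlen : (l ++ toL k y).length = i + k := by
    rw [List.length_append, toL_length, hl]
  rw [← List.append_assoc, cap_app v _ _ _ hlen]
  have h1 : ∀ p : Fin N × Fin N, wop (crossP N v) (around i k) (Piece.act N v (.cup (i + k)) f)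
      ((l ++ toL k y) ++ p.1 :: p.2 :: r) = ∑ x : Tp N k, (∑ a : Fin N,
        Jop (crossP N v) k (y, p.1) (x, a) * Pool.Agent.W709.QAT.cup N v (a, p.2)) *
          f (l ++ (toL k x ++ r)) := by
    intro p
    have e1 : (l ++ toL k y) ++ p.1 :: p.2 :: r = l ++ (toL (k + 1) (y, p.1) ++ (p.2 :: r)) := by
      change _ = l ++ ((toL k y ++ [p.1]) ++ (p.2 :: r))
      simp
    rw [e1, Rep_around (crossP N v) i k l (p.2 :: r) hl _ (y, p.1), sum_Tp_succ]
    refine sum_congr rfl fun x _ => ?_
    rw [sum_mul]
    refine sum_congr rfl fun a _ => ?_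
    have e2 : l ++ (toL (k + 1) (x, a) ++ (p.2 :: r)) = (l ++ toL k x) ++ a :: p.2 :: r := by
      change l ++ ((toL k x ++ [a]) ++ (p.2 :: r)) = _
      simp
    rw [e2, cup_app v f _ a p.2 r (by rw [List.length_append, toL_length, hl]), mul_assoc,
      List.append_assoc]
  simp only [h1, mul_sum]
  rw [sum_comm]
  refine sum_congr rfl fun x _ => ?_
  have h2 := close_sum hv hN (fun b a => Jop (crossP N v) k (y, b) (x, a))
  have h3 : BB v (crossP N v) k y x = (-1) ^ (N - 1) * ∑ a, v ^ (irr v N).wt a *
      Jop (crossP N v) k (y, a) (x, a) := rfl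
  rw [h3, ← h2, sum_mul]
  exact sum_congr rfl fun p _ => by ring

theorem circs_succ (i k p : ℕ) : circs i k (p + 1) = circ i k ++ circs i k p := by
  unfold circs
  rw [List.replicate_succ, List.flatten_cons]

theorem circs_succ' (i k p : ℕ) : circs i k (p + 1) = circs i k p ++ circ i k := by
  unfold circs
  rw [List.replicate_succ', List.flatten_append]
  simp

theorem Rep_circs {v : ℂ} (hv : v ≠ 0) (hN : ∀ k : ℕ, 0 < k → k < N → br v k ≠ 0) (i k : ℕ) :
    ∀ p, Rep i k (BB v (crossP N v) k ^ p) (run N v (circs i k p))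
  | 0 => by
    rw [pow_zero]
    exact Rep_one i k
  | p + 1 => by
    have h1 := (Rep_circ hv hN i k).comp (Rep_circs hv hN i k p)
    have e : (fun f : List (Fin N) → ℂ => run N v (circs i k p) (run N v (circ i k) f)) =
        run N v (circs i k (p + 1)) := by
      funext f
      rw [circs_succ, run_append]
    rw [← e, pow_succ]
    exact h1

theorem Rep_bw {v : ℂ} (hv : v ≠ 0) (hN : ∀ k : ℕ, 0 < k → k < N → br v k ≠ 0) (i k : ℕ)
    (σ : Bool) (m p : ℕ) :
    Rep i k (TT (if σ then crossP N v else crossN N v) k ^ m * BB v (crossP N v) k ^ p)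
      (run N v (bw i k σ m p)) := by
  have h1 := (Rep_circs hv hN i k p).comp (Rep_ftws (if σ then crossP N v else crossN N v) i k m)
  have e : (fun f : List (Fin N) → ℂ => wop (if σ then crossP N v else crossN N v) (ftws i k m)
      (run N v (circs i k p) f)) = run N v (bw i k σ m p) := by
    funext f
    unfold bw
    rw [run_append, run_cw]
  rw [← e]
  exact h1

/-- bound of the operator of a belted region -/
theorem bw_bound {v : ℂ} (hv : v ≠ 0) (hN : ∀ k : ℕ, 0 < k → k < N → br v k ≠ 0) (i k : ℕ)
    (σ : Bool) (m p : ℕ) {w B : ℝ} (hN1 : 1 ≤ N) (hw : 1 ≤ w) (hB : 0 ≤ B)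
    (hA : ∀ s t : Tp N k, ‖(TT (if σ then crossP N v else crossN N v) k ^ m *
      BB v (crossP N v) k ^ p) s t‖ ≤ w)
    {f : List (Fin N) → ℂ} (hf : ∀ s, ‖f s‖ ≤ B) (s : List (Fin N)) :
    ‖run N v (bw i k σ m p) f s‖ ≤ B * ((N : ℝ) ^ k * w) := by
  rcases Nat.eq_zero_or_pos p with hp | hp
  · subst hp
    have e : run N v (bw i k σ m 0) f = wop (if σ then crossP N v else crossN N v) (ftws i k m) f := by
      have : bw i k σ m 0 = cw σ (ftws i k m) := rfl
      rw [this, run_cw]
    rw [e]
    refine wop_bound _ i k m hN1 hw hB (fun s t => ?_) hf s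
    have h := hA s t
    rw [pow_zero, mul_one] at h
    exact h
  · rcases Nat.lt_or_ge s.length (i + k) with hs | hs
    · obtain ⟨p, rfl⟩ : ∃ q, p = q + 1 := ⟨p - 1, by omega⟩
      have h0 : run N v (bw i k σ m (p + 1)) f s = 0 := by
        unfold bw
        rw [run_append, run_cw]
        refine wop_len _ _ _ _ fun s' hs' => ?_
        rw [circs_succ', run_append]
        exact circ_short v i k _ (by omega)
      rw [h0, norm_zero]
      positivity
    · obtain ⟨y, hy⟩ := exists_toL (N := N) k ((s.drop i).take k) (by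
        rw [List.length_take, List.length_drop]
        omega)
      have e : s = s.take i ++ (toL k y ++ (s.drop i).drop k) := by
        rw [hy, List.take_append_drop, List.take_append_drop]
      have hl : (s.take i).length = i := by
        rw [List.length_take]; omega
      rw [e, Rep_bw hv hN i k σ m p _ _ hl f y]
      refine (norm_sum_le _ _).trans ?_
      have h : ∀ q ∈ (univ : Finset (Tp N k)), ‖(TT (if σ then crossP N v else crossN N v) k ^ m *
          BB v (crossP N v) k ^ p) y q * f (s.take i ++ (toL k q ++ (s.drop i).drop k))‖ ≤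
            w * B := by
        intro q _
        rw [norm_mul]
        exact mul_le_mul (hA y q) (hf _) (norm_nonneg _) (by linarith)
      refine (sum_le_sum h).trans ?_
      rw [sum_const, card_univ, card_Tp, nsmul_eq_mul]
      push_cast
      exact le_of_eq (by ring)

end Pool.Agent.Q191.FT
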