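import Pool.Agent.Q191.FT.BBrd

/-!
# Diagrams with belted regions
-/

set_option autoImplicit false

namespace Pool.Agent.Q191.FT

open Matrix Finset Filter Topology
open Pool.Agent.W709.QAT (Piece run jones)
open Pool.Agent.W715.VC (rt PP QQ)
open Pool.Agent.H550R3.Jones (br crossP crossN)
open GapVol (lob)
open scoped Real

/-- the regions of a diagram -/
inductive Rg
  | basic (P : Piece)
  | belt (i k : ℕ) (σ : Bool) (m p : ℕ)

/-- the pieces of a region -/
def Rg.word : Rg → List Piece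
  | .basic P => [P]
  | .belt i k σ m p => bw i k σ m p

/-- the pieces of a diagram -/
def dg (D : List Rg) : List Piece := D.flatMap Rg.word

/-- the growth rate of a basic piece -/
noncomputable def brate : Piece → ℝ
  | .cup _ => 0
  | .cap _ => 0
  | .twist _ _ m => Pool.Agent.W709.QAT.rate m

/-- the growth rate of a region -/
noncomputable def Rg.rate : Rg → ℝ
  | .basic P => brate P
  | .belt _ k _ _ _ => (k + 1) * (8 * lob (π / 4))

/-- the polynomial factor of a basic piece -/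
noncomputable def bpf : Piece → ℝ
  | .cup _ => 1
  | .cap _ => 1
  | .twist _ _ m => ((m : ℝ) + 1) ^ 2

/-- the polynomial factor of a region -/
noncomputable def Rg.pf : Rg → ℝ
  | .basic P => bpf P
  | .belt _ k _ m p => (((m + p : ℕ) : ℝ) + 1) ^ (24 * (k + 1) ^ 2 + 1)

/-- the number of strands of a belted region -/
def Rg.wd : Rg → ℕ
  | .basic _ => 0
  | .belt _ k _ _ _ => k

/-- the number of circles of a region -/
def Rg.cn : Rg → ℕ
  | .basic _ => 0
  | .belt _ _ _ _ p => p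

theorem Rg.rate_nonneg (P : Rg) : 0 ≤ P.rate := by
  rcases P with (i | i | ⟨i, σ, m⟩) | ⟨i, k, σ, m, p⟩
  · exact le_rfl
  · exact le_rfl
  · exact Pool.Agent.W28.QAT.rate_nonneg m
  · have := lob_four_nonneg
    change 0 ≤ ((k : ℝ) + 1) * (8 * lob (π / 4))
    positivity

theorem Rg.pf_one (P : Rg) : 1 ≤ P.pf := by
  rcases P with (i | i | ⟨i, σ, m⟩) | ⟨i, k, σ, m, p⟩
  · exact le_rfl
  · exact le_rfl
  · exact one_le_pow₀ (by have : (0 : ℝ) ≤ m := Nat.cast_nonneg m; linarith)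
  · exact one_le_pow₀ (by have : (0 : ℝ) ≤ ((m + p : ℕ) : ℝ) := Nat.cast_nonneg _; linarith)

/-- the bound of a region -/
noncomputable def Rg.bd (N : ℕ) (ε : ℝ) (P : Rg) : ℝ :=
  P.pf * Real.exp (N * (P.rate / (2 * π) + ε))

theorem Rg.bd_one {N : ℕ} {ε : ℝ} (hε : 0 ≤ ε) (P : Rg) : 1 ≤ P.bd N ε := by
  have h1 := P.pf_one
  have h2 : 1 ≤ Real.exp (N * (P.rate / (2 * π) + ε)) := by
    apply Real.one_le_exp
    have := P.rate_nonneg
    have := Real.pi_pos
    positivity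
  unfold Rg.bd
  nlinarith

theorem rg_bound {N K : ℕ} {ε : ℝ} (hN : 1 ≤ N) (hε : 0 ≤ ε) (hK : 0 < K)
    (hTW : ∀ m : ℕ, ∀ p q : Fin N × Fin N, ‖(PP N ^ m) p q‖ ≤ Pool.Agent.W28.QAT.wt N ε m ∧
      ‖(QQ N ^ m) p q‖ ≤ Pool.Agent.W28.QAT.wt N ε m) (P : Rg) (hPK : P.wd ≤ K)
    (hFT : ∀ k, k ≤ K → ∀ (m p : ℕ) (s t : Tp N k),
      ‖((TT (PP N) k) ^ m * (BB (rt N) (PP N) k) ^ p) s t‖ ≤ (N : ℝ) ^ p *
        (((m + p : ℕ) : ℝ) + 1) ^ (24 * (k + 1) ^ 2 + 1) *
        Real.exp (N * ((2 * k + 2) * W8 / π + ε)) ∧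
      ‖((TT (QQ N) k) ^ m * (BB (rt N) (PP N) k) ^ p) s t‖ ≤ (N : ℝ) ^ p *
        (((m + p : ℕ) : ℝ) + 1) ^ (24 * (k + 1) ^ 2 + 1) *
        Real.exp (N * ((2 * k + 2) * W8 / π + ε)))
    (f : List (Fin N) → ℂ) (B : ℝ) (hB : 0 ≤ B)
    (hf : ∀ s, ‖f s‖ ≤ B) (s : List (Fin N)) :
    ‖run N (rt N) P.word f s‖ ≤ B * ((N : ℝ) ^ (K + 2 + P.cn) * P.bd N ε) := by
  have hNR : (1 : ℝ) ≤ N := by exact_mod_cast hN
  have hbd := P.bd_one (N := N) hε
  have hK2 : (N : ℝ) ^ 2 ≤ (N : ℝ) ^ (K + 2 + P.cn) := pow_le_pow_right₀ hNR (by omega)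
  rcases P with P | ⟨i, k, σ, m, p⟩
  · have h := Pool.Agent.W28.QAT.act_bound hN hTW P f B hB hf s
    have e : run N (rt N) (Rg.basic P).word f s = P.act N (rt N) f s := rfl
    rw [e]
    refine h.trans ?_
    have e2 : Pool.Agent.W28.QAT.cost N ε P ≤ (N : ℝ) ^ 2 * (Rg.basic P).bd N ε := by
      unfold Pool.Agent.W28.QAT.cost
      rcases P with i | i | ⟨i, σ, m⟩
      · simp only [Pool.Agent.W709.QAT.Piece.size, Option.elim_none]
        gcongr
      · simp only [Pool.Agent.W709.QAT.Piece.size, Option.elim_none]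
        gcongr
      · exact le_rfl
    have e3 : (N : ℝ) ^ 2 * (Rg.basic P).bd N ε ≤
        (N : ℝ) ^ (K + 2 + (Rg.basic P).cn) * (Rg.basic P).bd N ε := by gcongr
    exact mul_le_mul_of_nonneg_left (e2.trans e3) hB
  · have hk : k ≤ K := hPK
    have e : (N : ℝ) ^ p * (Rg.belt i k σ m p).bd N ε = (N : ℝ) ^ p *
        (((m + p : ℕ) : ℝ) + 1) ^ (24 * (k + 1) ^ 2 + 1) *
        Real.exp (N * ((2 * k + 2) * W8 / π + ε)) := by
      rw [mul_assoc]
      unfold Rg.bd Rg.pf Rg.rate W8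
      congr 3
      have := Real.pi_pos
      field_simp
      ring
    have hNp : 1 ≤ (N : ℝ) ^ p := one_le_pow₀ hNR
    have hw : 1 ≤ (N : ℝ) ^ p * (Rg.belt i k σ m p).bd N ε := by nlinarith
    have hb := bw_bound (Pool.Agent.W613.QAT.rt_ne N) Pool.Agent.W613.QAT.br_rt i k σ m p hN hw hB
      (by
        intro s t
        rw [e]
        cases σ
        · exact (hFT k hk m p s t).2
        · exact (hFT k hk m p s t).1) hf s
    refine hb.trans ?_
    have hk2 : (N : ℝ) ^ k * (N : ℝ) ^ p ≤ (N : ℝ) ^ (K + 2 + (Rg.belt i k σ m p).cn) := by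
      rw [← pow_add]
      exact pow_le_pow_right₀ hNR (by change k + p ≤ K + 2 + p; omega)
    have e4 : B * ((N : ℝ) ^ k * ((N : ℝ) ^ p * (Rg.belt i k σ m p).bd N ε)) =
        B * (((N : ℝ) ^ k * (N : ℝ) ^ p) * (Rg.belt i k σ m p).bd N ε) := by ring
    rw [e4]
    gcongr

theorem dg_cons (P : Rg) (D : List Rg) : dg (P :: D) = P.word ++ dg D := rfl

theorem dg_bound {N K : ℕ} {ε : ℝ} (hN : 1 ≤ N) (hε : 0 ≤ ε) (hK : 0 < K)
    (hTW : ∀ m : ℕ, ∀ p q : Fin N × Fin N, ‖(PP N ^ m) p q‖ ≤ Pool.Agent.W28.QAT.wt N ε m ∧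
      ‖(QQ N ^ m) p q‖ ≤ Pool.Agent.W28.QAT.wt N ε m)
    (hFT : ∀ k, k ≤ K → ∀ (m p : ℕ) (s t : Tp N k),
      ‖((TT (PP N) k) ^ m * (BB (rt N) (PP N) k) ^ p) s t‖ ≤ (N : ℝ) ^ p *
        (((m + p : ℕ) : ℝ) + 1) ^ (24 * (k + 1) ^ 2 + 1) *
        Real.exp (N * ((2 * k + 2) * W8 / π + ε)) ∧
      ‖((TT (QQ N) k) ^ m * (BB (rt N) (PP N) k) ^ p) s t‖ ≤ (N : ℝ) ^ p *
        (((m + p : ℕ) : ℝ) + 1) ^ (24 * (k + 1) ^ 2 + 1) *
        Real.exp (N * ((2 * k + 2) * W8 / π + ε))) (D : List Rg) :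
    (∀ P ∈ D, P.wd ≤ K) →
    ∀ (f : List (Fin N) → ℂ) (B : ℝ), 0 ≤ B → (∀ s, ‖f s‖ ≤ B) → ∀ s : List (Fin N),
    ‖run N (rt N) (dg D) f s‖ ≤ B * ((N : ℝ) ^ ((K + 2) * D.length + (D.map Rg.cn).sum) *
      (D.map (Rg.bd N ε)).prod) := by
  induction D with
  | nil =>
    intro _ f B hB hf s
    simpa [run, dg] using hf s
  | cons P D ih =>
    intro hD f B hB hf s
    have hPK := hD P (by simp)
    have h0 : 0 ≤ (N : ℝ) ^ (K + 2 + P.cn) * P.bd N ε := by
      have := P.bd_one (N := N) hε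
      positivity
    have h1 := ih (fun Q hQ => hD Q (by simp [hQ])) (run N (rt N) P.word f)
      (B * ((N : ℝ) ^ (K + 2 + P.cn) * P.bd N ε)) (mul_nonneg hB h0)
      (rg_bound hN hε hK hTW P hPK hFT f B hB hf) s
    rw [dg_cons, run_append]
    refine h1.trans (le_of_eq ?_)
    rw [List.map_cons (f := Rg.cn), List.sum_cons, List.map_cons (f := Rg.bd N ε), List.prod_cons,
      List.length_cons]
    have e : (K + 2) * (D.length + 1) + (P.cn + (D.map Rg.cn).sum) =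
        (K + 2 + P.cn) + ((K + 2) * D.length + (D.map Rg.cn).sum) := by ring
    rw [e, pow_add _ (K + 2 + P.cn)]
    ring

/-- the state sum -/
theorem ssb (K : ℕ) (ε : ℝ) (hε : 0 < ε) : ∀ᶠ N : ℕ in atTop, ∀ D : List Rg, (∀ P ∈ D, P.wd ≤ K) →
    ‖jones N (dg D) (rt N)‖ ≤ (N : ℝ) ^ ((K + 3) * D.length + (D.map Rg.cn).sum) *
      (D.map (Rg.bd N ε)).prod := by
  have hFT : ∀ᶠ N : ℕ in atTop, ∀ k ∈ Finset.range (K + 2), ∀ (m p : ℕ) (s t : Tp N k),
      ‖((TT (PP N) k) ^ m * (BB (rt N) (PP N) k) ^ p) s t‖ ≤ (N : ℝ) ^ p *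
        (((m + p : ℕ) : ℝ) + 1) ^ (24 * (k + 1) ^ 2 + 1) *
        Real.exp (N * ((2 * k + 2) * W8 / π + ε)) ∧
      ‖((TT (QQ N) k) ^ m * (BB (rt N) (PP N) k) ^ p) s t‖ ≤ (N : ℝ) ^ p *
        (((m + p : ℕ) : ℝ) + 1) ^ (24 * (k + 1) ^ 2 + 1) *
        Real.exp (N * ((2 * k + 2) * W8 / π + ε)) := by
    rw [Filter.eventually_all_finset]
    intro k _
    exact belt_bound k ε hε
  filter_upwards [hFT, Pool.Agent.W709.QAT.tw ε hε, eventually_ge_atTop 1] with N hFT hTW hN1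
  intro D hD
  have h0 : 0 < N := hN1
  unfold jones
  rw [dif_pos h0]
  have h1 := dg_bound (K := K + 1) hN1 hε.le (by omega) hTW
    (fun k hk => hFT k (Finset.mem_range.2 (by omega))) D (fun P hP => (hD P hP).trans (by omega))
    (fun s => if s = [(⟨0, h0⟩ : Fin N)] then (1 : ℂ) else 0) 1 zero_le_one (by
      intro s
      show ‖(if s = [(⟨0, h0⟩ : Fin N)] then (1 : ℂ) else 0)‖ ≤ 1
      split_ifs <;> simp) [⟨0, h0⟩]
  rw [one_mul] at h1
  exact h1

theorem log_prod_bdb (N : ℕ) (ε : ℝ) (hε : 0 ≤ ε) (D : List Rg) :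
    0 < (D.map (Rg.bd N ε)).prod ∧ Real.log ((D.map (Rg.bd N ε)).prod) =
    (D.map (fun P => Real.log P.pf)).sum + N / (2 * π) * (D.map Rg.rate).sum + N * ε * D.length := by
  have hpi := Real.pi_pos
  induction D with
  | nil => simp
  | cons P D ih =>
    obtain ⟨ih0, ih⟩ := ih
    have h1 := P.bd_one (N := N) hε
    have h0 : 0 < P.bd N ε := by linarith
    rw [List.map_cons, List.prod_cons, Real.log_mul h0.ne' ih0.ne', ih]
    refine ⟨by positivity, ?_⟩
    have h2 : Real.log (P.bd N ε) = Real.log P.pf + N * (P.rate / (2 * π) + ε) := by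
      unfold Rg.bd
      rw [Real.log_mul (by have := P.pf_one; linarith) (Real.exp_pos _).ne', Real.log_exp]
    rw [h2, List.map_cons, List.sum_cons, List.map_cons, List.sum_cons, List.length_cons]
    push_cast
    field_simp
    ring

/-- the bound of the growth rate -/
theorem limb (D : List Rg) (ε : ℝ) (hε : 0 < ε) : ∀ᶠ N : ℕ in atTop,
    2 * π / N * Real.log ‖jones N (dg D) (rt N)‖ ≤ (D.map Rg.rate).sum + ε := by
  have hpi := Real.pi_pos
  obtain ⟨K, hK⟩ : ∃ K : ℕ, ∀ P ∈ D, P.wd ≤ K :=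
    ⟨(D.map Rg.wd).sum, fun P hP => List.single_le_sum (by simp) _ (List.mem_map_of_mem hP)⟩
  set t : ℝ := (D.length : ℝ) with ht
  have ht0 : 0 ≤ t := Nat.cast_nonneg _
  set ε' : ℝ := ε / (4 * π * (t + 1)) with hε'
  have hε'0 : 0 < ε' := by positivity
  set S : ℝ := (D.map (fun P => Real.log P.pf)).sum with hS
  set c : ℝ := (((K + 3) * D.length + (D.map Rg.cn).sum : ℕ) : ℝ) with hc
  have hrate : 0 ≤ (D.map Rg.rate).sum := by
    apply List.sum_nonneg
    intro x hx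
    obtain ⟨P, -, rfl⟩ := List.mem_map.1 hx
    exact P.rate_nonneg
  -- the error terms tend to zero
  have hlim : Tendsto (fun N : ℕ => 2 * π / N * (c * Real.log N + S)) atTop
      (𝓝 0) := by
    have h1 : Tendsto (fun N : ℕ => Real.log (N : ℝ) / (N : ℝ)) atTop (𝓝 0) :=
      (Real.isLittleO_log_id_atTop.tendsto_div_nhds_zero).comp tendsto_natCast_atTop_atTop
    have h2 : Tendsto (fun N : ℕ => (1 : ℝ) / (N : ℝ)) atTop (𝓝 0) :=
      tendsto_one_div_atTop_nhds_zero_nat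
    have h3 := ((h1.const_mul (2 * π * c)).add (h2.const_mul (2 * π * S)))
    rw [mul_zero, mul_zero, add_zero] at h3
    refine h3.congr ?_
    intro N
    ring
  have hev : ∀ᶠ N : ℕ in atTop,
      2 * π / N * (c * Real.log N + S) < ε / 2 :=
    hlim.eventually_lt_const (by positivity)
  filter_upwards [ssb K ε' hε'0, hev, eventually_ge_atTop 1] with N hN hN2 hN1
  have hNpos : (0 : ℝ) < N := by exact_mod_cast hN1
  by_cases hj : jones N (dg D) (rt N) = 0
  · rw [hj, norm_zero, Real.log_zero, mul_zero]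
    positivity
  · have h1 := hN D hK
    have hpos : 0 < ‖jones N (dg D) (rt N)‖ := norm_pos_iff.2 hj
    have h3 := Real.log_le_log hpos h1
    obtain ⟨h4, h5⟩ := log_prod_bdb N ε' hε'0.le D
    rw [Real.log_mul (by positivity) h4.ne', Real.log_pow, h5] at h3
    rw [← hS, ← hc] at h3
    have h6 : 2 * π / N * Real.log ‖jones N (dg D) (rt N)‖ ≤ 2 * π / N *
        (c * Real.log N +
          (S + N / (2 * π) * (D.map Rg.rate).sum + N * ε' * D.length)) :=
      mul_le_mul_of_nonneg_left h3 (by positivity)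
    have h7 : 2 * π / N * (c * Real.log N +
          (S + N / (2 * π) * (D.map Rg.rate).sum + N * ε' * D.length)) =
        2 * π / N * (c * Real.log N + S) + (D.map Rg.rate).sum +
          2 * π * ε' * t := by
      rw [ht]
      field_simp
      ring
    have h8 : 2 * π * ε' * t ≤ ε / 2 := by
      rw [hε']
      have h9 : 2 * π * (ε / (4 * π * (t + 1))) * t = ε / 2 * (t / (t + 1)) := by
        field_simp
        ring
      rw [h9]
      have h10 : t / (t + 1) ≤ 1 := by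
        rw [div_le_one (by positivity)]
        linarith
      nlinarith
    linarith

end Pool.Agent.Q191.FT
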