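import Pool.Agent.Q191.FT.Dp

/-!
# Bound of the entries of the powers of a full twist
-/

set_option autoImplicit false

namespace Pool.Agent.Q191.FT

open Matrix Finset
open Pool.Agent.H550R3.Jones (WM IsMod IsInt Gen br brf tens irr nb R Rh Rhi crossP crossN)
open Pool.Agent.H897R.J (HasWt gen_br gen_v br_neg br_zero wt_F)

variable {ι : Type} [Fintype ι] [DecidableEq ι]

theorem nu_sub {v : ℂ} (hv : v ≠ 0) (μ : ℤ) (i j : ℕ) :
    nu v μ i - nu v μ j = br v (μ + 1 + i + j) * br v ((i : ℤ) - j) := by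
  unfold nu
  have h := lam_sub hv (μ + 1 + i + j) ((i : ℤ) - j)
  rw [← h]
  congr 2 <;> ring

theorem norm_br_sub (v : ℂ) (a b : ℤ) : ‖br v (a - b)‖ = ‖br v (b - a)‖ := by
  have h : a - b = -(b - a) := by ring
  rw [h, br_neg, norm_neg]

theorem brf_succ' (v : ℂ) (n : ℕ) : brf v (n + 1) = brf v n * br v ((n : ℤ) + 1) :=
  Pool.Agent.H559R3.J.brf_succ v n

theorem norm_Dn {v : ℂ} (hv : v ≠ 0) (μ : ℕ) {i l : ℕ} (h : i ≤ l) :
    ‖Dn (nu v μ) i l‖ * (‖brf v (μ + i)‖ * ‖br v ((μ : ℤ) + 1 + 2 * i)‖) =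
      ‖brf v (μ + 1 + i + l)‖ * (‖brf v i‖ * ‖brf v (l - i)‖) := by
  induction l, h using Nat.le_induction with
  | base =>
    have h0 : (range (i + 1)).erase i = range i := by
      rw [range_add_one, erase_insert (by simp)]
    have h1 : Dn (nu v μ) i i = (∏ j ∈ range i, br v ((μ : ℤ) + 1 + i + j)) *
        ∏ j ∈ range i, br v ((i : ℤ) - j) := by
      unfold Dn
      rw [h0, ← prod_mul_distrib]
      exact prod_congr rfl fun j _ => nu_sub hv μ i j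
    have h2 : ∏ j ∈ range i, br v ((i : ℤ) - j) = brf v i := by
      unfold brf
      rw [← prod_range_reflect]
      refine prod_congr rfl fun j hj => ?_
      rw [mem_range] at hj
      congr 1
      omega
    have h3 : brf v (μ + 1 + i + i) = brf v (μ + i) * (∏ j ∈ range i, br v ((μ : ℤ) + 1 + i + j)) *
        br v ((μ : ℤ) + 1 + 2 * i) := by
      have e1 : μ + 1 + i + i = μ + i + i + 1 := by ring
      rw [e1, brf_succ', brf_add]
      congr 1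
      · congr 1
        refine prod_congr rfl fun j _ => ?_
        congr 1
        push_cast; ring
      · congr 1
        push_cast; ring
    rw [h1, h2, h3, Nat.sub_self]
    have e0 : brf v 0 = 1 := by simp [brf]
    rw [e0, norm_mul, norm_mul, norm_mul, norm_one]
    ring
  | succ l hl ih =>
    rw [Dn_succ hl, norm_mul, nu_sub hv, norm_mul, norm_br_sub]
    have e1 : μ + 1 + i + (l + 1) = μ + 1 + i + l + 1 := by ring
    have e2 : l + 1 - i = l - i + 1 := by omega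
    rw [e1, e2, brf_succ', brf_succ' v (l - i), norm_mul, norm_mul]
    have e3 : ((μ : ℤ) + 1 + i + ((l + 1 : ℕ) : ℤ)) = (((μ + 1 + i + l : ℕ) : ℤ) + 1) := by
      push_cast; ring
    have e4 : (((l + 1 : ℕ) : ℤ) - i) = (((l - i : ℕ) : ℤ) + 1) := by omega
    rw [e3, e4]
    calc _ = (‖Dn (nu v μ) i l‖ * (‖brf v (μ + i)‖ * ‖br v ((μ : ℤ) + 1 + 2 * i)‖)) *
        (‖br v (((μ + 1 + i + l : ℕ) : ℤ) + 1)‖ * ‖br v (((l - i : ℕ) : ℤ) + 1)‖) := by ring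
      _ = _ := by rw [ih]; ring

theorem pow_yy {T : Matrix ι ι ℂ} {θ : ℂ} {y : ι → ℂ} (h : T *ᵥ y = θ • y) (m : ℕ) :
    T ^ m *ᵥ y = θ ^ m • y := by
  induction m with
  | zero => simp
  | succ m ih =>
    rw [pow_succ', ← mulVec_mulVec, ih, mulVec_smul, h, smul_smul, ← pow_succ]

theorem pow_formula {u : ℂ} (hu : Gen u) {M : WM ι} (hM : IsMod (u ^ 2) M) {T : Matrix ι ι ℂ}
    {s p t : ℤ} (hR : Rib u M T s p t) {x : ι → ℂ} {μ : ℤ} (hμ : 0 ≤ μ) (hx : HasWt M μ x)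
    (hp : (2 : ℤ) ∣ μ - p) {L : ℕ} (hL : M.E ^ (L + 1) *ᵥ x = 0) (m : ℕ) :
    T ^ m *ᵥ x = ∑ i ∈ range (L + 1), (u ^ (s * ((μ + 1 + 2 * i) ^ 2 - 1 - t))) ^ m •
      yy (nu (u ^ 2) μ) (GG M x) L i := by
  conv_lhs => rw [← sum_GG hu hμ x L (M := M)]
  rw [mulVec_sum]
  refine sum_congr rfl fun i hi => ?_
  rw [mem_range] at hi
  refine pow_yy (hR _ ?_ _ (Cas_yy hu hM hμ hx hL (by omega))) m
  obtain ⟨k, hk⟩ := hp
  exact ⟨k + i, by linarith⟩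

theorem norm_GG {v : ℂ} {M : WM ι} (hM : IsMod v M) {B : ℝ} (hB0 : 0 ≤ B) (hDB : DBp v M B)
    (s0 t0 : ι) (l : ℕ) : ‖GG M (Pi.single t0 1) l s0‖ ≤
      Fintype.card ι * B ^ 2 * (ga (-2 * M.wt t0) * ‖brf v l‖ ^ 2) := by
  have hg0 := ga_pos (-2 * M.wt t0)
  by_cases hw : M.wt s0 = M.wt t0
  swap
  · have hx : HasWt M (M.wt t0) (Pi.single t0 1) := by
      intro i hi
      by_cases h : i = t0
      · rw [h]
      · exact absurd (by rw [Pi.single_apply, if_neg h]) hi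
    have h1 := wt_Fpow hM (wt_Epow hM hx l) l s0
    have h2 : GG M (Pi.single t0 1) l s0 = 0 := by
      by_contra h3
      have h4 := h1 h3
      apply hw
      rw [h4]; ring
    rw [h2, norm_zero]
    positivity
  unfold GG
  rw [mulVec_single_one]
  change ‖∑ r, (M.F ^ l) s0 r * (M.E ^ l) r t0‖ ≤ _
  refine (norm_sum_le _ _).trans ?_
  have h : ∀ r ∈ (univ : Finset ι), ‖(M.F ^ l) s0 r * (M.E ^ l) r t0‖ ≤
      B ^ 2 * (ga (-2 * M.wt t0) * ‖brf v l‖ ^ 2) := by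
    intro r _
    rw [norm_mul]
    have h1 := (hDB l s0 r).2
    have h2 := (hDB l r t0).1
    beta_reduce at h1 h2
    rw [hw] at h1
    have e : ga (-2 * M.wt t0) = ga (-M.wt t0) * ga (-M.wt t0) := by
      rw [← ga_add]; congr 1; ring
    have hg := ga_pos (-M.wt t0)
    rw [e]
    calc _ ≤ (B * ga (-M.wt t0) * ‖brf v l‖) * (B * ga (-M.wt t0) * ‖brf v l‖) :=
          mul_le_mul h1 h2 (norm_nonneg _) (by positivity)
      _ = _ := by ring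
  refine (sum_le_sum h).trans ?_
  rw [sum_const, card_univ, nsmul_eq_mul]
  exact le_of_eq (by ring)

/-- the columns of nonnegative weight -/
theorem ent_pos {u : ℂ} (hu : Gen u) {M : WM ι} (hM : IsMod (u ^ 2) M) {T : Matrix ι ι ℂ}
    {s p t : ℤ} (hR : Rib u M T s p t) {B : ℝ} (hB0 : 0 ≤ B) (hDB : DBp (u ^ 2) M B) {A : ℕ}
    (hA : ∀ i, |M.wt i| ≤ A) {t0 : ι} (hμ : 0 ≤ M.wt t0) (hp : (2 : ℤ) ∣ M.wt t0 - p) {m : ℕ}
    {Θ Q : ℝ} (hΘ : ∀ c : ℕ, c ≤ 3 * A + 1 → ‖u ^ (s * ((c : ℤ) ^ 2 - 1 - t))‖ ^ m ≤ Θ)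
    (hQ0 : 0 ≤ Q)
    (hQ : ∀ μ i l : ℕ, μ ≤ A → i ≤ l → l ≤ A →
      ga (-2 * μ) * ‖brf (u ^ 2) l‖ ^ 2 *
          (‖brf (u ^ 2) (μ + i)‖ * ‖br (u ^ 2) ((μ : ℤ) + 1 + 2 * i)‖) ≤
        Q * (‖brf (u ^ 2) (μ + 1 + i + l)‖ * (‖brf (u ^ 2) i‖ * ‖brf (u ^ 2) (l - i)‖)))
    (s0 : ι) :
    ‖(T ^ m) s0 t0‖ ≤ ((A : ℝ) + 1) ^ 2 * (Θ * (Fintype.card ι * B ^ 2 * Q)) := by
  have hv := gen_v hu
  obtain ⟨μ, hμe⟩ := Int.eq_ofNat_of_zero_le hμ
  have hμA : μ ≤ A := by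
    have := (abs_le.1 (hA t0)).2
    omega
  have hx : HasWt M μ (Pi.single t0 1) := by
    intro i hi
    by_cases h : i = t0
    · rw [h, hμe]
    · exact absurd (by rw [Pi.single_apply, if_neg h]) hi
  have hL : M.E ^ (A + 1) *ᵥ Pi.single t0 (1 : ℂ) = 0 :=
    Epow_nil hM hx (B := A) (fun i => (abs_le.1 (hA i)).2) (by push_cast; omega)
  rw [hμe] at hp
  have h := congrFun (pow_formula hu hM hR (Int.natCast_nonneg μ) hx hp hL m) s0
  rw [mulVec_single_one] at h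
  change (T ^ m) s0 t0 = _ at h
  have hΘ0 : 0 ≤ Θ := le_trans (by positivity) (hΘ 0 (by omega))
  rw [h, Finset.sum_apply]
  have hb : ∀ i ∈ range (A + 1), ‖((u ^ (s * (((μ : ℤ) + 1 + 2 * i) ^ 2 - 1 - t))) ^ m •
      yy (nu (u ^ 2) μ) (GG M (Pi.single t0 1)) A i) s0‖ ≤
      ((A : ℝ) + 1) * (Θ * (Fintype.card ι * B ^ 2 * Q)) := by
    intro i hi
    rw [mem_range] at hi
    rw [Pi.smul_apply, smul_eq_mul, norm_mul, norm_pow]
    have h1 : ‖u ^ (s * (((μ : ℤ) + 1 + 2 * i) ^ 2 - 1 - t))‖ ^ m ≤ Θ := by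
      have := hΘ (μ + 1 + 2 * i) (by omega)
      push_cast at this
      exact this
    have h2 : ‖yy (nu (u ^ 2) μ) (GG M (Pi.single t0 1)) A i s0‖ ≤
        ((A : ℝ) + 1) * (Fintype.card ι * B ^ 2 * Q) := by
      unfold yy
      rw [Finset.sum_apply]
      refine (norm_sum_le _ _).trans ?_
      have h3 : ∀ l ∈ Ico i (A + 1), ‖((Dn (nu (u ^ 2) μ) i l)⁻¹ • GG M (Pi.single t0 1) l) s0‖ ≤
          Fintype.card ι * B ^ 2 * Q := by
        intro l hl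
        rw [mem_Ico] at hl
        rw [Pi.smul_apply, smul_eq_mul, norm_mul, norm_inv]
        have hDne : Dn (nu (u ^ 2) μ) i l ≠ 0 :=
          Dn_ne (L := A) ((nu_inj hu (Int.natCast_nonneg μ)).injOn) (by omega) (by omega)
        have hD := norm_pos_iff.2 hDne
        rw [inv_mul_le_iff₀ hD]
        have h4 := norm_Dn hv μ hl.1
        have h5 := hQ μ i l hμA hl.1 (by omega)
        rw [← h4] at h5
        have hpos : 0 < ‖brf (u ^ 2) (μ + i)‖ * ‖br (u ^ 2) ((μ : ℤ) + 1 + 2 * i)‖ := by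
          have := norm_pos_iff.2 (Pool.Agent.H559R3.J.brf_ne hu (μ + i))
          have := norm_pos_iff.2 (gen_br hu (n := (μ : ℤ) + 1 + 2 * i) (by omega))
          positivity
        have h6 : ga (-2 * μ) * ‖brf (u ^ 2) l‖ ^ 2 ≤ Q * ‖Dn (nu (u ^ 2) μ) i l‖ := by
          have : ga (-2 * μ) * ‖brf (u ^ 2) l‖ ^ 2 * (‖brf (u ^ 2) (μ + i)‖ * ‖br (u ^ 2) ((μ : ℤ) + 1 + 2 * i)‖) ≤
              (Q * ‖Dn (nu (u ^ 2) μ) i l‖) *
                (‖brf (u ^ 2) (μ + i)‖ * ‖br (u ^ 2) ((μ : ℤ) + 1 + 2 * i)‖) := by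
            linarith
          exact le_of_mul_le_mul_right this hpos
        have h7 := norm_GG hM hB0 hDB s0 t0 l
        rw [hμe] at h7
        calc ‖GG M (Pi.single t0 1) l s0‖ ≤
              Fintype.card ι * B ^ 2 * (ga (-2 * μ) * ‖brf (u ^ 2) l‖ ^ 2) := h7
          _ ≤ Fintype.card ι * B ^ 2 * (Q * ‖Dn (nu (u ^ 2) μ) i l‖) := by gcongr
          _ = _ := by ring
      refine (sum_le_sum h3).trans ?_
      rw [sum_const, Nat.card_Ico, nsmul_eq_mul]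
      have h7 : ((A + 1 - i : ℕ) : ℝ) ≤ (A : ℝ) + 1 := by
        have : A + 1 - i ≤ A + 1 := by omega
        exact_mod_cast this
      gcongr
    calc _ ≤ Θ * (((A : ℝ) + 1) * (Fintype.card ι * B ^ 2 * Q)) :=
          mul_le_mul h1 h2 (norm_nonneg _) hΘ0
      _ = _ := by ring
  refine (norm_sum_le _ _).trans ((sum_le_sum hb).trans ?_)
  rw [sum_const, card_range, nsmul_eq_mul]
  push_cast
  exact le_of_eq (by ring)

/-- all entries -/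
theorem ent_all {u : ℂ} (hu : Gen u) {M : WM ι} (hM : IsMod (u ^ 2) M) {T : Matrix ι ι ℂ}
    {s p t : ℤ} (hR : Rib u M T s p t) {B : ℝ} (hB0 : 0 ≤ B) (hDB : DBp (u ^ 2) M B)
    (hDB' : DBn (u ^ 2) M B) {A : ℕ}
    (hA : ∀ i, |M.wt i| ≤ A) (hp : ∀ i, (2 : ℤ) ∣ M.wt i - p) {m : ℕ}
    {Θ Q : ℝ} (hΘ : ∀ c : ℕ, c ≤ 3 * A + 1 → ‖u ^ (s * ((c : ℤ) ^ 2 - 1 - t))‖ ^ m ≤ Θ)
    (hQ0 : 0 ≤ Q)
    (hQ : ∀ μ i l : ℕ, μ ≤ A → i ≤ l → l ≤ A →
      ga (-2 * μ) * ‖brf (u ^ 2) l‖ ^ 2 *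
          (‖brf (u ^ 2) (μ + i)‖ * ‖br (u ^ 2) ((μ : ℤ) + 1 + 2 * i)‖) ≤
        Q * (‖brf (u ^ 2) (μ + 1 + i + l)‖ * (‖brf (u ^ 2) i‖ * ‖brf (u ^ 2) (l - i)‖)))
    (s0 t0 : ι) :
    ‖(T ^ m) s0 t0‖ ≤ ((A : ℝ) + 1) ^ 2 * (Θ * (Fintype.card ι * B ^ 2 * Q)) := by
  rcases le_total 0 (M.wt t0) with h | h
  · exact ent_pos hu hM hR hB0 hDB hA h (hp t0) hΘ hQ0 hQ s0
  · refine ent_pos hu (dual_mod hM) (p := p) ?_ hB0 ?_ (fun i => ?_) ?_ ?_ hΘ hQ0 hQ s0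
    · intro c hc y hy
      rw [Cas_dual (gen_v hu) hM] at hy
      exact hR c hc y hy
    · exact DBn_dual hDB'
    · change |-M.wt i| ≤ A
      rw [abs_neg]
      exact hA i
    · change 0 ≤ -M.wt t0
      omega
    · change (2 : ℤ) ∣ -M.wt t0 - p
      obtain ⟨k, hk⟩ := hp t0
      exact ⟨-k - p, by linarith⟩

end Pool.Agent.Q191.FT
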