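import Pool.Agent.Q191.FT.Near
import Pool.Agent.Q191.FT.Ent

/-!
# Full twists near the root of unity
-/

set_option autoImplicit false

namespace Pool.Agent.Q191.FT

open Matrix Finset
open Pool.Agent.W715.VC (rt rt_ne rt_zpow norm_rt_zpow rt_zpow_N br_rt sn)
open Pool.Agent.H550R3.Jones (WM IsMod IsInt Gen br brf tens irr nb R Rh Rhi crossP crossN)
open Pool.Agent.H897R.J (HasWt gen_br gen_v br_neg br_zero wt_F)
open GapVol (lob)
open scoped Real

/-- `v_8 / 4 = 2 Λ(π/4)` -/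
noncomputable def W8 : ℝ := 2 * lob (π / 4)

section

variable {N X : ℕ} {v : ℂ} {η : ℝ}

/-- quotients of factorials and their logarithms -/
theorem exp3 {a b c x : ℝ} (ha : 0 < a) (hb : 0 < b) (hc : 0 < c)
    (h : Real.log a ≤ x + (Real.log b + Real.log c)) : a ≤ Real.exp x * (b * c) := by
  have e : b * c = Real.exp (Real.log b + Real.log c) := by
    rw [Real.exp_add, Real.exp_log hb, Real.exp_log hc]
  rw [e, ← Real.exp_add]
  calc a = Real.exp (Real.log a) := (Real.exp_log ha).symm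
    _ ≤ _ := Real.exp_le_exp.2 h

theorem qb_of (hN : 0 < N) (hX : N ≤ X) (hpos : ∀ n, n ≤ X → 0 < ‖brf v n‖)
    (hL : ∀ n, n ≤ X → |Real.log ‖brf v n‖ + N / π * lob (π * n / N)| ≤ η) :
    QB v N (Real.exp (N / π * W8 + 3 * η)) := by
  have hpi := Real.pi_pos
  have hN0 : (0 : ℝ) < N := by exact_mod_cast hN
  have hNp : 0 ≤ (N : ℝ) / π := by positivity
  -- the logarithmic form
  have key : ∀ a n : ℕ, a + n < N → ∀ x : ℝ,
      lob (π * a / N) + lob (π * n / N) - lob (π * a / N + π * n / N) ≤ 2 * lob (π / 4) + π / N * x →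
      ‖brf v (a + n)‖ ≤ Real.exp (N / π * W8 + 3 * η) * Real.exp x * (‖brf v a‖ * ‖brf v n‖) := by
    intro a n h x hx
    have p1 := hpos (a + n) (by omega)
    have p2 := hpos a (by omega)
    have p3 := hpos n (by omega)
    have l1 := abs_le.1 (hL (a + n) (by omega))
    have l2 := abs_le.1 (hL a (by omega))
    have l3 := abs_le.1 (hL n (by omega))
    have e : π * ((a + n : ℕ) : ℝ) / N = π * a / N + π * n / N := by push_cast; ring
    rw [e] at l1
    have hw2 := mul_le_mul_of_nonneg_left hx hNp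
    have e2 : N / π * (2 * lob (π / 4) + π / N * x) = N / π * W8 + x := by
      unfold W8
      field_simp
    rw [e2] at hw2
    rw [← Real.exp_add]
    apply exp3 p1 p2 p3
    nlinarith [l1.2, l2.1, l3.1]
  have hang : ∀ a n : ℕ, a + n < N → 0 ≤ π - (π * a / N + π * n / N) := by
    intro a n h
    have h1 : (a : ℝ) + n ≤ N := by exact_mod_cast h.le
    have e : π * a / N + π * n / N = π * (((a : ℝ) + n) / N) := by ring
    have h2 : ((a : ℝ) + n) / N ≤ 1 := by rw [div_le_one hN0]; exact h1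
    rw [e]
    nlinarith
  refine ⟨(Real.exp_pos _).le, ?_, ?_⟩
  · intro a n h
    apply key a n h
    have h1 := lobA (x := π * a / N) (y := π * n / N) (z := π - (π * a / N + π * n / N))
      (by positivity) (by positivity) (hang a n h) (by ring)
    rw [Pool.Agent.W709.QAT.lob_pi_sub] at h1
    have e : π / N * ((((N : ℤ) - 2 * a : ℤ) : ℝ) * (Real.log 2 / 4)) =
        -((π * a / N - π / 2) * (Real.log 2 / 2)) := by
      push_cast
      field_simp
      ring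
    rw [e]
    linarith
  · intro a n h
    apply key a n h
    have h1 := lobA (x := π - (π * a / N + π * n / N)) (y := π * a / N) (z := π * n / N)
      (hang a n h) (by positivity) (by positivity) (by ring)
    rw [Pool.Agent.W709.QAT.lob_pi_sub] at h1
    have e : π / N * (((2 * ((a + n : ℕ) : ℤ) - N : ℤ) : ℝ) * (Real.log 2 / 4)) =
        -((π - (π * a / N + π * n / N) - π / 2) * (Real.log 2 / 2)) := by
      push_cast
      field_simp
      ring
    rw [e]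
    linarith

/-- the middle quotient -/
theorem quotM (hN : 0 < N) (hpos : ∀ n, n ≤ X → 0 < ‖brf v n‖)
    (hL : ∀ n, n ≤ X → |Real.log ‖brf v n‖ + N / π * lob (π * n / N)| ≤ η) {μ i l : ℕ}
    (hil : i ≤ l) (h : μ + i + l ≤ X) :
    ga (-2 * μ) * ‖brf v l‖ ^ 2 * ‖brf v (μ + i)‖ ≤ Real.exp (2 * (N / π * W8 + 3 * η)) *
      (‖brf v (μ + i + l)‖ * (‖brf v i‖ * ‖brf v (l - i)‖)) := by
  have hpi := Real.pi_pos
  have hN0 : (0 : ℝ) < N := by exact_mod_cast hN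
  have hNp : 0 ≤ (N : ℝ) / π := by positivity
  have p1 := hpos l (by omega)
  have p2 := hpos (μ + i) (by omega)
  have p3 := hpos (μ + i + l) h
  have p4 := hpos i (by omega)
  have p5 := hpos (l - i) (by omega)
  have l1 := abs_le.1 (hL l (by omega))
  have l2 := abs_le.1 (hL (μ + i) (by omega))
  have l3 := abs_le.1 (hL (μ + i + l) h)
  have l4 := abs_le.1 (hL i (by omega))
  have l5 := abs_le.1 (hL (l - i) (by omega))
  have hM := lobM (π * i / N) (π * l / N) (π * μ / N) (by positivity)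
  have e1 : π * ((μ + i : ℕ) : ℝ) / N = π * μ / N + π * i / N := by push_cast; ring
  have e2 : π * ((μ + i + l : ℕ) : ℝ) / N = π * μ / N + π * i / N + π * l / N := by push_cast; ring
  have e3 : π * ((l - i : ℕ) : ℝ) / N = π * l / N - π * i / N := by
    rw [Nat.cast_sub hil]; ring
  rw [e1] at l2
  rw [e2] at l3
  rw [e3] at l5
  have hM2 := mul_le_mul_of_nonneg_left hM hNp
  have e4 : N / π * (4 * lob (π / 4) + π * μ / N * (Real.log 2 / 2)) =
      2 * (N / π * W8) + 2 * μ * (Real.log 2 / 4) := by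
    unfold W8
    field_simp
    ring
  rw [e4] at hM2
  have f1 : ga (-2 * μ) * ‖brf v l‖ ^ 2 * ‖brf v (μ + i)‖ =
      Real.exp (-(2 * μ * (Real.log 2 / 4)) + (2 * Real.log ‖brf v l‖ + Real.log ‖brf v (μ + i)‖)) := by
    have g1 : ‖brf v l‖ ^ 2 = Real.exp (2 * Real.log ‖brf v l‖) := by
      rw [two_mul, Real.exp_add, Real.exp_log p1, sq]
    rw [Real.exp_add, Real.exp_add, Real.exp_log p2, ← g1, ga]
    have g2 : ((-2 * (μ : ℤ) : ℤ) : ℝ) * (Real.log 2 / 4) = -(2 * μ * (Real.log 2 / 4)) := by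
      push_cast; ring
    rw [g2]
    ring
  have f2 : Real.exp (2 * (N / π * W8 + 3 * η)) * (‖brf v (μ + i + l)‖ * (‖brf v i‖ *
      ‖brf v (l - i)‖)) = Real.exp (2 * (N / π * W8 + 3 * η) + (Real.log ‖brf v (μ + i + l)‖ +
        (Real.log ‖brf v i‖ + Real.log ‖brf v (l - i)‖))) := by
    rw [Real.exp_add, Real.exp_add, Real.exp_add, Real.exp_log p3, Real.exp_log p4,
      Real.exp_log p5]
  rw [f1, f2]
  apply Real.exp_le_exp.2
  nlinarith [l1.2, l2.2, l3.1, l4.1, l5.1]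

end

/-- the number of crossings of a full twist of `k` strands -/
def nc : ℕ → ℕ
  | 0 => 0
  | k + 1 => nc k + 2 * k

theorem nc_eq (k : ℕ) : nc k = k * (k - 1) := by
  induction k with
  | zero => rfl
  | succ k ih =>
    rw [nc, ih]
    cases k with
    | zero => rfl
    | succ k => simp only [Nat.add_sub_cancel]; ring

theorem last2_smul {ι κ : Type} [Fintype ι] [DecidableEq ι] [Fintype κ] [DecidableEq κ] (c : ℂ)
    (A : Matrix (κ × κ) (κ × κ) ℂ) :
    (last2 (c • A) : Matrix ((ι × κ) × κ) ((ι × κ) × κ) ℂ) = c • last2 A := by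
  ext p q
  rw [Matrix.smul_apply]
  unfold last2
  split_ifs <;> simp [Matrix.smul_apply]

theorem jstep_smul {ι κ : Type} [Fintype ι] [DecidableEq ι] [Fintype κ] [DecidableEq κ] (c d : ℂ)
    (A : Matrix (κ × κ) (κ × κ) ℂ) (J : Matrix (ι × κ) (ι × κ) ℂ) :
    jstep (c • A) (d • J) = (c * (d * c)) • jstep A J := by
  unfold jstep
  rw [last2_smul, smul_kronecker]
  simp only [smul_mul_assoc, mul_smul_comm, smul_smul]

theorem tstep_smul {ι κ : Type} [Fintype ι] [DecidableEq ι] [Fintype κ] [DecidableEq κ] (c d : ℂ)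
    (T : Matrix ι ι ℂ) (J : Matrix (ι × κ) (ι × κ) ℂ) :
    tstep (c • T) (d • J) = (c * d) • tstep T J := by
  unfold tstep
  rw [smul_kronecker, smul_mul_assoc, mul_smul_comm, smul_smul]

theorem Jop_smul {N : ℕ} (c : ℂ) (A : Matrix (Fin N × Fin N) (Fin N × Fin N) ℂ) : ∀ k,
    Jop (c • A) k = c ^ (2 * k) • Jop A k
  | 0 => by
    change (1 : Matrix _ _ ℂ) = _ • (1 : Matrix _ _ ℂ)
    simp
  | k + 1 => by
    have h : Jop (c • A) (k + 1) = jstep (c • A) (Jop (c • A) k) := rfl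
    rw [h, Jop_smul c A k, jstep_smul]
    have e : c * (c ^ (2 * k) * c) = c ^ (2 * (k + 1)) := by ring
    rw [e]
    rfl

theorem TT_smul {N : ℕ} (c : ℂ) (A : Matrix (Fin N × Fin N) (Fin N × Fin N) ℂ) : ∀ k,
    TT (c • A) k = c ^ nc k • TT A k
  | 0 => by
    change (1 : Matrix _ _ ℂ) = _ • (1 : Matrix _ _ ℂ)
    simp [nc]
  | k + 1 => by
    have h : TT (c • A) (k + 1) = tstep (TT (c • A) k) (Jop (c • A) k) := rfl
    rw [h, TT_smul c A k, Jop_smul, tstep_smul, ← pow_add]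
    rfl

/-- the radius condition -/
structure Rad (K m N : ℕ) (r : ℝ) : Prop where
  hN : 2 ≤ N
  r0 : 0 < r
  hr : 128 * ((K : ℝ) + 1) ^ 2 * (N : ℝ) ^ 3 * ((m : ℝ) + 1) * r ≤ 1
  hr2 : 1 ≤ 256 * ((K : ℝ) + 1) ^ 2 * (N : ℝ) ^ 3 * ((m : ℝ) + 1) * r

theorem Rad.near {K m N : ℕ} {r : ℝ} (h : Rad K m N r) {v : ℂ} (hv : ‖v - rt N‖ = r) :
    Near N (4 * (K + 1) * N) r v where
  hN := h.hN
  hX := by nlinarith
  r0 := h.r0
  hr := by
    have h1 := h.hr
    have h0 := h.r0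
    have hm : (0 : ℝ) ≤ m := Nat.cast_nonneg m
    push_cast
    have e : 8 * (4 * ((K : ℝ) + 1) * N) ^ 2 * N * r = 128 * ((K : ℝ) + 1) ^ 2 * (N : ℝ) ^ 3 * 1 * r := by
      ring
    rw [e]
    refine le_trans ?_ h1
    gcongr
    linarith
  hv := hv

theorem sq_bound {x : ℝ} (hx : 0 ≤ x) (h : x ^ 2 ≤ 2) : x ≤ 2 := by nlinarith

/-- powers of `u` -/
theorem Rad.u_pow {K m N : ℕ} {r : ℝ} (h : Rad K m N r) {u : ℂ} (hv : ‖u ^ 2 - rt N‖ = r) {e : ℤ}
    {j : ℕ} (he : |(e : ℝ)| * j ≤ 32 * ((K : ℝ) + 1) ^ 2 * (N : ℝ) ^ 2 * ((m : ℝ) + 1)) :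
    ‖u ^ e‖ ^ j ≤ 2 := by
  have hn := h.near hv
  have h0 := h.r0
  have hN2 : (2 : ℝ) ≤ N := by exact_mod_cast h.hN
  have h1 : ‖(u ^ 2) ^ (e * j)‖ ≤ 2 := by
    apply hn.norm_zpow
    have h2 : |((e * j : ℤ) : ℝ)| = |(e : ℝ)| * j := by
      push_cast
      rw [abs_mul, abs_of_nonneg (Nat.cast_nonneg j : (0 : ℝ) ≤ j)]
    rw [h2]
    have h3 := h.hr
    calc |(e : ℝ)| * j * r ≤ 32 * ((K : ℝ) + 1) ^ 2 * (N : ℝ) ^ 2 * ((m : ℝ) + 1) * r := by gcongr
      _ ≤ 1 / 4 * (128 * ((K : ℝ) + 1) ^ 2 * (N : ℝ) ^ 3 * ((m : ℝ) + 1) * r) := by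
        have : (N : ℝ) ^ 2 ≤ (N : ℝ) ^ 3 := by
          have : (N : ℝ) ^ 3 = N ^ 2 * N := by ring
          rw [this]
          nlinarith [sq_nonneg (N : ℝ)]
        have e1 : 1 / 4 * (128 * ((K : ℝ) + 1) ^ 2 * (N : ℝ) ^ 3 * ((m : ℝ) + 1) * r) =
          32 * ((K : ℝ) + 1) ^ 2 * (N : ℝ) ^ 3 * ((m : ℝ) + 1) * r := by ring
        rw [e1]
        gcongr
      _ ≤ 1 / 4 := by linarith
  refine sq_bound (by positivity) ?_
  have h2 : (‖u ^ e‖ ^ j) ^ 2 = ‖(u ^ 2) ^ (e * j)‖ := by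
    rw [← norm_pow, ← norm_pow, ← zpow_natCast (u ^ e) j, ← _root_.zpow_mul, ← zpow_natCast _ 2,
      ← _root_.zpow_mul, ← zpow_natCast u 2, ← _root_.zpow_mul]
    congr 2
    push_cast; ring
  rw [h2]
  exact h1

theorem card_Tp (N : ℕ) : ∀ k, Fintype.card (Tp N k) = N ^ k
  | 0 => rfl
  | k + 1 => by
    have h : Fintype.card (Tp N (k + 1)) = Fintype.card (Tp N k × Fin N) := rfl
    rw [h, Fintype.card_prod, card_Tp N k, Fintype.card_fin, pow_succ]

/-- the bound at a point of the circle -/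
noncomputable def Bd (K N : ℕ) (η r : ℝ) : ℝ :=
  2 * ((((K * N : ℕ) : ℝ) + 1) ^ 2 * (2 * (((N ^ K : ℕ) : ℝ) *
    ((Real.exp (N / π * W8 + 3 * η) * 2 * 2) ^ K) ^ 2 *
      (6 / r * Real.exp (2 * (N / π * W8 + 3 * η))))))

theorem pt_core {K m N : ℕ} {r η : ℝ} (h : Rad K m N r) {u : ℂ} (hu : Gen u)
    (hv : ‖u ^ 2 - rt N‖ = r)
    (hL : ∀ n, n ≤ 4 * (K + 1) * N → |Real.log ‖brf (u ^ 2) n‖ + N / π * lob (π * n / N)| ≤ η)
    {A : Matrix (Fin N × Fin N) (Fin N × Fin N) ℂ} {s : ℤ} (hs : |s| = 1)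
    (hR : Rib u (MM (u ^ 2) N K) (TT A K) s (K * ((N : ℤ) - 1)) (K * ((N : ℤ) ^ 2 - 1)))
    {f : ℤ} (hf : |f| = (N : ℤ) ^ 2 - 1) (s0 t0 : Tp N K) :
    ‖((TT (u ^ f • A) K) ^ m) s0 t0‖ ≤ Bd K N η r := by
  have hn := h.near hv
  have hN2 : (2 : ℝ) ≤ N := by exact_mod_cast h.hN
  have hN1 := h.hN
  have hr0 := h.r0
  set E1 := Real.exp (N / π * W8 + 3 * η) with hE1
  have hE1p : 0 < E1 := Real.exp_pos _
  have hNX : N ≤ 4 * (K + 1) * N := by nlinarith
  have hpos : ∀ n, n ≤ 4 * (K + 1) * N → 0 < ‖brf (u ^ 2) n‖ := fun n hn' => hn.brf_pos hn'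
  -- divided powers
  have hDB := DB_MM hu (N := N) (B := E1) (β := 2) (qb_of (by omega) hNX hpos hL)
    (K := K) (by
      intro e he
      apply hn.norm_zpow
      have h1 : |(e : ℝ)| ≤ 2 * (K * N) * N := by exact_mod_cast he
      have h3 := h.hr
      have hK : (0 : ℝ) ≤ K := Nat.cast_nonneg K
      have hm : (0 : ℝ) ≤ m := Nat.cast_nonneg m
      calc |(e : ℝ)| * r ≤ 2 * (K * N) * N * r := by gcongr
        _ ≤ 1 / 4 * (128 * ((K : ℝ) + 1) ^ 2 * (N : ℝ) ^ 3 * ((m : ℝ) + 1) * r) := by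
          have e1 : 1 / 4 * (128 * ((K : ℝ) + 1) ^ 2 * (N : ℝ) ^ 3 * ((m : ℝ) + 1) * r) =
            32 * (K + 1) * ((K + 1) * (N : ℝ)) * N * N * ((m : ℝ) + 1) * r := by ring
          have e2 : 2 * (K * (N : ℝ)) * N * r = 2 * 1 * (K * N) * N * 1 * 1 * r := by ring
          rw [e1, e2]
          have hK1 : (1 : ℝ) ≤ K + 1 := by linarith
          gcongr
          · linarith
          · linarith
          · linarith
          · linarith
        _ ≤ 1 / 4 := by linarith) K le_rfl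
  -- the main bound
  have hent := ent_all hu (MM_mod (gen_v hu) N K) hR (B := (E1 * 2 * 2) ^ K) (by positivity)
    hDB.1 hDB.2
    (A := K * N) (fun i => by push_cast; exact (MM_wt (u ^ 2) N K i).1)
    (fun i => (MM_wt (u ^ 2) N K i).2) (m := m) (Θ := 2)
    (Q := 6 / r * Real.exp (2 * (N / π * W8 + 3 * η)))
    (by
      intro c hc
      apply h.u_pow hv
      have hc' : (c : ℝ) ≤ 3 * (K * N) + 1 := by exact_mod_cast hc
      have hc0 : (0 : ℝ) ≤ c := Nat.cast_nonneg c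
      have hK : (0 : ℝ) ≤ K := Nat.cast_nonneg K
      have hm : (0 : ℝ) ≤ m := Nat.cast_nonneg m
      have h1 : |(((s * ((c : ℤ) ^ 2 - 1 - K * ((N : ℤ) ^ 2 - 1)) : ℤ)) : ℝ)| ≤
          (c : ℝ) ^ 2 + 1 + K * N ^ 2 := by
        have hs' : |(s : ℝ)| = 1 := by exact_mod_cast hs
        rw [Int.cast_mul, abs_mul, hs', one_mul, abs_le]
        push_cast
        constructor <;> nlinarith [sq_nonneg (c : ℝ), mul_nonneg hK (sq_nonneg (N : ℝ))]
      have h2 : (c : ℝ) ^ 2 + 1 + K * N ^ 2 ≤ 32 * ((K : ℝ) + 1) ^ 2 * (N : ℝ) ^ 2 := by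
        have h3 : (c : ℝ) ^ 2 ≤ (3 * (K * N) + 1) ^ 2 := by gcongr
        have h4 : (3 * (K * (N : ℝ)) + 1) ≤ 3 * ((K + 1) * N) := by nlinarith
        have h5 : (3 * (K * (N : ℝ)) + 1) ^ 2 ≤ (3 * ((K + 1) * N)) ^ 2 := by gcongr
        have h6 : K * (N : ℝ) ^ 2 ≤ ((K : ℝ) + 1) ^ 2 * (N : ℝ) ^ 2 := by
          gcongr
          nlinarith
        have h7 : (1 : ℝ) ≤ ((K : ℝ) + 1) ^ 2 * (N : ℝ) ^ 2 := by
          have h8 : (1 : ℝ) ≤ ((K : ℝ) + 1) ^ 2 := by nlinarith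
          have h9 : (1 : ℝ) ≤ (N : ℝ) ^ 2 := by nlinarith
          nlinarith
        nlinarith
      calc _ ≤ ((c : ℝ) ^ 2 + 1 + K * N ^ 2) * m := by gcongr
        _ ≤ (32 * ((K : ℝ) + 1) ^ 2 * (N : ℝ) ^ 2) * (m + 1) := by
          gcongr
          linarith)
    (by positivity) (by
      intro μ i l hμ hil hl
      have hKN : 4 * (K + 1) * N = 4 * (K * N) + 4 * N := by ring
      have hb1 := (hn.br_bd (n := μ + 1 + 2 * i) (by omega) (by omega)).2
      have hb2 := (hn.br_bd (n := μ + i + l + 1) (by omega) (by omega)).1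
      have e1 : brf (u ^ 2) (μ + 1 + i + l) = brf (u ^ 2) (μ + i + l) *
          br (u ^ 2) ((μ + i + l + 1 : ℕ) : ℤ) := by
        have : μ + 1 + i + l = μ + i + l + 1 := by ring
        rw [this, brf_succ']
        push_cast; rfl
      have q1 := quotM (μ := μ) (by omega) hpos hL hil (by omega)
      have p3 := hpos (μ + i + l) (by omega)
      have p4 := hpos i (by omega)
      have p5 := hpos (l - i) (by omega)
      rw [e1, norm_mul]
      push_cast at hb1 hb2 ⊢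
      generalize Real.exp (2 * (N / π * W8 + 3 * η)) = E2 at q1 ⊢
      have hE2 : 0 ≤ E2 := by
        have : 0 ≤ E2 * (‖brf (u ^ 2) (μ + i + l)‖ * (‖brf (u ^ 2) i‖ * ‖brf (u ^ 2) (l - i)‖)) :=
          le_trans (by have := ga_pos (-2 * μ); positivity) q1
        exact nonneg_of_mul_nonneg_left this (by positivity)
      calc ga (-2 * μ) * ‖brf (u ^ 2) l‖ ^ 2 *
            (‖brf (u ^ 2) (μ + i)‖ * ‖br (u ^ 2) ((μ : ℤ) + 1 + 2 * i)‖)
          = ga (-2 * μ) * ‖brf (u ^ 2) l‖ ^ 2 * ‖brf (u ^ 2) (μ + i)‖ *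
            ‖br (u ^ 2) ((μ : ℤ) + 1 + 2 * i)‖ := by ring
        _ ≤ E2 * (‖brf (u ^ 2) (μ + i + l)‖ * (‖brf (u ^ 2) i‖ * ‖brf (u ^ 2) (l - i)‖)) * 3 := by
          gcongr
        _ = (6 / r * E2) * (‖brf (u ^ 2) (μ + i + l)‖ * (r / 2) *
            (‖brf (u ^ 2) i‖ * ‖brf (u ^ 2) (l - i)‖)) := by
          field_simp
          ring
        _ ≤ (6 / r * E2) * (‖brf (u ^ 2) (μ + i + l)‖ *
            ‖br (u ^ 2) ((μ : ℤ) + i + l + 1)‖ * (‖brf (u ^ 2) i‖ * ‖brf (u ^ 2) (l - i)‖)) := by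
          gcongr)
    s0 t0
  -- the framing
  rw [TT_smul, smul_pow, Matrix.smul_apply, smul_eq_mul, norm_mul]
  have hfr : ‖((u ^ f) ^ nc K) ^ m‖ ≤ 2 := by
    rw [← pow_mul, norm_pow]
    apply h.u_pow hv
    have hf' : |(f : ℝ)| ≤ (N : ℝ) ^ 2 := by
      have : |f| ≤ (N : ℤ) ^ 2 := by omega
      exact_mod_cast this
    have hnc : ((nc K : ℕ) : ℝ) ≤ ((K : ℝ) + 1) ^ 2 := by
      have h1 : nc K ≤ (K + 1) ^ 2 := by
        rw [nc_eq]
        have h2 : K * (K - 1) ≤ K * K := Nat.mul_le_mul_left K (Nat.sub_le K 1)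
        nlinarith
      exact_mod_cast h1
    have hm : (0 : ℝ) ≤ m := Nat.cast_nonneg m
    push_cast
    calc |(f : ℝ)| * ((nc K : ℝ) * m) ≤ (N : ℝ) ^ 2 * (((K : ℝ) + 1) ^ 2 * (m + 1)) := by
          gcongr
          linarith
      _ ≤ _ := by
          have : 0 ≤ (N : ℝ) ^ 2 * (((K : ℝ) + 1) ^ 2 * (m + 1)) := by positivity
          nlinarith
  rw [card_Tp] at hent
  unfold Bd
  exact mul_le_mul hfr hent (norm_nonneg _) (by norm_num)

end Pool.Agent.Q191.FT
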