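import Pool.Agent.Q191.FT.Sc
import Pool.Agent.H550R3.Jones.Ptr
import Pool.Agent.Q191.FT.Pt

/-!
# A circle around the strands
-/

set_option autoImplicit false

namespace Pool.Agent.Q191.FT

open Matrix Finset
open scoped Kronecker
open Pool.Agent.H550R3.Jones (WM IsMod IsInt Gen br brf tens irr nb R Rh Rhi crossP crossN ptr)
open Pool.Agent.H897R.J (HasWt gen_br gen_v br_neg br_zero wt_F)

variable {ι κ : Type} [Fintype ι] [DecidableEq ι] [Fintype κ] [DecidableEq κ]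

/-- a vector tensor a basis vector -/
def tv (y : ι → ℂ) (x : κ) : ι × κ → ℂ := fun p => if p.2 = x then y p.1 else 0

omit [DecidableEq ι] in
theorem mulVec_tv {μ : Type} (A : Matrix μ (ι × κ) ℂ) (y : ι → ℂ) (x : κ) (m : μ) :
    (A *ᵥ tv y x) m = ∑ j, A m (j, x) * y j := by
  rw [mulVec, dotProduct, Fintype.sum_prod_type]
  refine sum_congr rfl fun j _ => ?_
  rw [sum_eq_single x]
  · unfold tv; rw [if_pos rfl]
  · intro k _ hk
    unfold tv
    rw [if_neg hk, mul_zero]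
  · intro h; exact absurd (mem_univ _) h

/-- the R-matrix on a highest weight vector of the first factor -/
theorem R_hw_left {u : ℂ} {M : WM ι} {V : WM κ} {a : ℤ} {y : ι → ℂ}
    (hyw : HasWt M (a - 1) y) (hyE : M.E *ᵥ y = 0) (x : κ) (i : ι) (x' : κ) :
    (R u M V *ᵥ tv y x) (i, x') = if x' = x then u ^ ((a - 1) * V.wt x) * y i else 0 := by
  unfold R
  rw [← mulVec_mulVec, mulVec_diagonal]
  have h0 : ∀ n, 0 < n → M.E ^ n *ᵥ y = 0 := by
    intro n hn
    obtain ⟨n, rfl⟩ : ∃ m, n = m + 1 := ⟨n - 1, by omega⟩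
    rw [pow_succ, ← mulVec_mulVec, hyE, mulVec_zero]
  have h1 : ((∑ n ∈ range (nb M), ((u ^ 2) ^ (n * (n - 1) / 2) / brf (u ^ 2) n) •
      ((M.E ^ n) ⊗ₖ (V.F ^ n))) *ᵥ tv y x) (i, x') = if x' = x then y i else 0 := by
    rw [sum_mulVec, Finset.sum_apply, sum_eq_single 0]
    · rw [smul_mulVec, Pi.smul_apply, mulVec_tv]
      simp only [pow_zero, kroneckerMap_apply, Matrix.one_apply]
      by_cases hx : x' = x
      · rw [if_pos hx, sum_eq_single i]
        · simp [brf, hx]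
        · intro j _ hj
          rw [if_neg hj.symm, zero_mul, zero_mul]
        · intro h; exact absurd (mem_univ _) h
      · simp [hx]
    · intro n _ hn
      rw [smul_mulVec, Pi.smul_apply, mulVec_tv]
      have h2 : ∑ j, ((M.E ^ n) ⊗ₖ (V.F ^ n)) (i, x') (j, x) * y j =
          (V.F ^ n) x' x * (M.E ^ n *ᵥ y) i := by
        rw [mulVec, dotProduct, mul_sum]
        refine sum_congr rfl fun j _ => ?_
        rw [kroneckerMap_apply]
        ring
      rw [h2, h0 n (Nat.pos_of_ne_zero hn), Pi.zero_apply, mul_zero, smul_zero]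
    · intro h
      exact absurd (mem_range.2 (Nat.succ_pos _)) h
  rw [h1]
  split_ifs with hx
  · by_cases hy : y i = 0
    · rw [hy]; ring
    · rw [hyw i hy, hx]
  · rw [mul_zero]

/-- diagonal entries of the R-matrix -/
theorem R_diag {u : ℂ} {M : WM ι} {V : WM κ} (hV : IsMod (u ^ 2) V) (x : κ) (i i' : ι) :
    R u V M (x, i) (x, i') = if i = i' then u ^ (V.wt x * M.wt i) else 0 := by
  unfold R
  rw [diagonal_mul, Matrix.sum_apply, sum_eq_single 0]
  · simp only [pow_zero, Matrix.smul_apply, kroneckerMap_apply, Matrix.one_apply_eq,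
      Matrix.one_apply, brf]
    split_ifs with h
    · simp
    · simp
  · intro n _ hn
    rw [Matrix.smul_apply, kroneckerMap_apply]
    have : (V.E ^ n) x x = 0 := by
      by_contra h
      have := Pool.Agent.H22R3.J.E_pow_wt hV n x x h
      omega
    rw [this, zero_mul, smul_zero]
  · intro h
    exact absurd (mem_range.2 (Nat.succ_pos _)) h

/-- the partial trace of the double braiding on highest weight vectors -/
theorem ptr_hw {u : ℂ} (hu : Gen u) {M : WM ι} {V : WM κ}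
    (hV : IsMod (u ^ 2) V) {a : ℤ} {y : ι → ℂ}
    (hyw : HasWt M (a - 1) y) (hyE : M.E *ᵥ y = 0) :
    ptr (fun x => (u ^ 2) ^ V.wt x) (Rh u V M * Rh u M V) *ᵥ y =
      (∑ x, (u ^ 2) ^ (a * V.wt x)) • y := by
  have hu0 := hu.1
  funext i
  rw [Pi.smul_apply, smul_eq_mul, sum_mul]
  have h1 : (ptr (fun x => (u ^ 2) ^ V.wt x) (Rh u V M * Rh u M V) *ᵥ y) i =
      ∑ x, (u ^ 2) ^ V.wt x * ((Rh u V M * Rh u M V) *ᵥ tv y x) (i, x) := by
    rw [mulVec, dotProduct]
    unfold ptr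
    simp only [sum_mul, mulVec_tv, mul_sum]
    rw [sum_comm]
    exact sum_congr rfl fun x _ => sum_congr rfl fun j _ => by ring
  rw [h1]
  refine sum_congr rfl fun x _ => ?_
  have h2 : Rh u M V *ᵥ tv y x = fun q : κ × ι => if q.1 = x then u ^ ((a - 1) * V.wt x) * y q.2 else 0 := by
    funext q
    exact R_hw_left hyw hyE x q.2 q.1
  have h3 : ((Rh u V M * Rh u M V) *ᵥ tv y x) (i, x) =
      u ^ (V.wt x * M.wt i) * (u ^ ((a - 1) * V.wt x) * y i) := by
    rw [← mulVec_mulVec, h2, mulVec, dotProduct, Fintype.sum_prod_type, sum_eq_single x,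
      sum_eq_single i]
    · rw [if_pos rfl]
      congr 1
      change R u V M (x, i) (x, i) = _
      rw [R_diag hV, if_pos rfl]
    · intro i' _ hi
      have : Rh u V M (i, x) (x, i') = 0 := by
        change R u V M (x, i) (x, i') = 0
        rw [R_diag hV, if_neg hi.symm]
      rw [this, zero_mul]
    · intro h; exact absurd (mem_univ _) h
    · intro x' _ hx
      refine sum_eq_zero fun i' _ => ?_
      rw [if_neg hx, mul_zero]
    · intro h; exact absurd (mem_univ _) h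
  rw [h3]
  by_cases hy : y i = 0
  · rw [hy]; ring
  · rw [hyw i hy, ← mul_assoc, ← mul_assoc, ← zpow_natCast u 2, ← _root_.zpow_mul,
      ← _root_.zpow_mul, ← zpow_add₀ hu0, ← zpow_add₀ hu0]
    congr 2
    push_cast; ring

/-- the circle around `k` strands -/
noncomputable def BB (v : ℂ) {N : ℕ} (A : Matrix (Fin N × Fin N) (Fin N × Fin N) ℂ) (k : ℕ) :
    Matrix (Tp N k) (Tp N k) ℂ :=
  (-1 : ℂ) ^ (N - 1) • ptr (fun x => v ^ (irr v N).wt x) (Jop A k)

/-- its eigenvalues -/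
noncomputable def chi (v : ℂ) (N : ℕ) (c : ℤ) : ℂ :=
  (-1 : ℂ) ^ (N - 1) * ∑ x : Fin N, v ^ (c * (irr v N).wt x)

theorem chi_neg (v : ℂ) (N : ℕ) (c : ℤ) : chi v N (-c) = chi v N c := by
  unfold chi
  congr 1
  rw [← Equiv.sum_comp Fin.revPerm]
  refine sum_congr rfl fun x _ => ?_
  congr 1
  have h : (irr v N).wt (Fin.revPerm x) = - (irr v N).wt x := by
    change (N : ℤ) - 1 - 2 * ((Fin.rev x : Fin N) : ℕ) = -((N : ℤ) - 1 - 2 * (x : ℕ))
    rw [Fin.val_rev]
    have := x.2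
    omega
  rw [h]
  ring

theorem BB_sc {u : ℂ} (hu : Gen u) (N k : ℕ) :
    Sc u (MM (u ^ 2) N k) (BB (u ^ 2) (Rh u (irr (u ^ 2) N) (irr (u ^ 2) N)) k)
      (k * ((N : ℤ) - 1)) (chi (u ^ 2) N) := by
  have hv := gen_v hu
  have hM := MM_mod hv N k
  have hV : IsMod (u ^ 2) (irr (u ^ 2) N) := Pool.Agent.H345J.irr_mod hv N
  have hJ : IsInt (tens (u ^ 2) (MM (u ^ 2) N k) (irr (u ^ 2) N))
      (tens (u ^ 2) (MM (u ^ 2) N k) (irr (u ^ 2) N))
      (Rh u (irr (u ^ 2) N) (MM (u ^ 2) N k) * Rh u (MM (u ^ 2) N k) (irr (u ^ 2) N)) :=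
    int_comp (Pool.Agent.H345J.taskInt u hu _ _ _ _ hV hM)
      (Pool.Agent.H345J.taskInt u hu _ _ _ _ hM hV)
  have hP := Pool.Agent.H550R3.Jones.taskPtr550 (u ^ 2) hv _ _ _ _ hM hV _ hJ
  have hS : Sc u (MM (u ^ 2) N k) (ptr (fun x => (u ^ 2) ^ (irr (u ^ 2) N).wt x)
      (Rh u (irr (u ^ 2) N) (MM (u ^ 2) N k) * Rh u (MM (u ^ 2) N k) (irr (u ^ 2) N)))
      (k * ((N : ℤ) - 1)) (fun c => ∑ x : Fin N, (u ^ 2) ^ (c * (irr (u ^ 2) N).wt x)) := by
    refine sc_of_hw hu hM hP ?_ (fun i => (MM_wt (u ^ 2) N k i).2) ?_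
    · intro c
      have h := chi_neg (u ^ 2) N c
      unfold chi at h
      exact mul_left_cancel₀ (pow_ne_zero _ (by norm_num)) h
    · intro c y hyw hyE
      exact ptr_hw hu hV hyw hyE
  have h := hS.smul ((-1 : ℂ) ^ (N - 1))
  rw [← Jop_braid hu N k] at h
  exact h

theorem ptr_smul (w : κ → ℂ) (d : ℂ) (J : Matrix (ι × κ) (ι × κ) ℂ) :
    ptr w (d • J) = d • ptr w J := by
  ext i j
  rw [Matrix.smul_apply, smul_eq_mul]
  unfold ptr
  rw [mul_sum]
  refine sum_congr rfl fun x _ => ?_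
  rw [Matrix.smul_apply, smul_eq_mul]
  ring

theorem BB_smul (v c : ℂ) {N : ℕ} (A : Matrix (Fin N × Fin N) (Fin N × Fin N) ℂ) (k : ℕ) :
    BB v (c • A) k = c ^ (2 * k) • BB v A k := by
  unfold BB
  rw [Jop_smul, ptr_smul, smul_comm]

end Pool.Agent.Q191.FT
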