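import Pool.Agent.Q191.FT.Max
import Pool.Agent.W709.QAT.Fin

/-!
# Words of crossings as operators on lists, and the full twist
-/

set_option autoImplicit false

namespace Pool.Agent.Q191.FT

open Matrix Finset
open scoped Kronecker

variable {N : ℕ}

/-- the operator `A` on the strands `j`, `j + 1` -/
noncomputable def op (A : Matrix (Fin N × Fin N) (Fin N × Fin N) ℂ) (j : ℕ)
    (f : List (Fin N) → ℂ) : List (Fin N) → ℂ := fun s => match s.drop j with
  | a :: b :: r => ∑ p : Fin N × Fin N, A (a, b) p * f (s.take j ++ p.1 :: p.2 :: r)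
  | _ => 0

theorem op_app (A : Matrix (Fin N × Fin N) (Fin N × Fin N) ℂ) (f : List (Fin N) → ℂ)
    (l : List (Fin N)) (a b : Fin N) (r : List (Fin N)) {j : ℕ} (hj : l.length = j) :
    op A j f (l ++ a :: b :: r) = ∑ p : Fin N × Fin N, A (a, b) p * f (l ++ p.1 :: p.2 :: r) := by
  subst hj
  simp only [op, List.drop_left, List.take_left]

theorem op_short (A : Matrix (Fin N × Fin N) (Fin N × Fin N) ℂ) (f : List (Fin N) → ℂ)
    {s : List (Fin N)} {j : ℕ} (h : s.length < j + 2) : op A j f s = 0 := by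
  unfold op
  split
  · rename_i a b r hd
    exfalso
    have := congrArg List.length hd
    rw [List.length_drop] at this
    simp at this
    omega
  · rfl

/-- the operator of a word of crossings -/
noncomputable def wop (A : Matrix (Fin N × Fin N) (Fin N × Fin N) ℂ) (w : List ℕ)
    (f : List (Fin N) → ℂ) : List (Fin N) → ℂ := w.foldl (fun g j => op A j g) f

theorem wop_append (A : Matrix (Fin N × Fin N) (Fin N × Fin N) ℂ) (w w' : List ℕ)
    (f : List (Fin N) → ℂ) : wop A (w ++ w') f = wop A w' (wop A w f) := by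
  unfold wop
  rw [List.foldl_append]

theorem wop_nil (A : Matrix (Fin N × Fin N) (Fin N × Fin N) ℂ) (f : List (Fin N) → ℂ) :
    wop A [] f = f := rfl

theorem wop_single (A : Matrix (Fin N × Fin N) (Fin N × Fin N) ℂ) (j : ℕ) (f : List (Fin N) → ℂ) :
    wop A [j] f = op A j f := rfl

theorem op_eq_zero (A : Matrix (Fin N × Fin N) (Fin N × Fin N) ℂ) (j : ℕ) {f : List (Fin N) → ℂ}
    {s : List (Fin N)} (h : ∀ s' : List (Fin N), s'.length = s.length → f s' = 0) :
    op A j f s = 0 := by
  unfold op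
  split
  · rename_i a b r hd
    have hl := congrArg List.length hd
    rw [List.length_drop] at hl
    simp only [List.length_cons] at hl
    refine sum_eq_zero fun p _ => ?_
    rw [h, mul_zero]
    rw [List.length_append, List.length_take, List.length_cons, List.length_cons]
    omega
  · rfl

theorem wop_zero (A : Matrix (Fin N × Fin N) (Fin N × Fin N) ℂ) {j : ℕ} (w : List ℕ) :
    j ∈ w → ∀ (f : List (Fin N) → ℂ) (s : List (Fin N)), s.length < j + 2 → wop A w f s = 0 := by
  induction w using List.reverseRecOn with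
  | nil => intro h; simp at h
  | append_singleton w l ih =>
    intro hj f s hs
    rw [wop_append, wop_single]
    rw [List.mem_append, List.mem_singleton] at hj
    rcases hj with hj | hj
    · exact op_eq_zero A l fun s' hs' => ih hj f s' (by omega)
    · subst hj
      exact op_short A _ hs

/-- the list of the entries of a state -/
def toL : (k : ℕ) → Tp N k → List (Fin N)
  | 0, _ => []
  | k + 1, y => toL k y.1 ++ [y.2]

theorem toL_length : ∀ (k : ℕ) (y : Tp N k), (toL k y).length = k
  | 0, _ => rfl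
  | k + 1, y => by
    change (toL k y.1 ++ [y.2]).length = k + 1
    rw [List.length_append, toL_length k y.1]
    rfl

theorem exists_toL : ∀ (k : ℕ) (l : List (Fin N)), l.length = k → ∃ y : Tp N k, toL k y = l
  | 0, l, h => ⟨(), (List.length_eq_zero_iff.1 h).symm⟩
  | k + 1, l, h => by
    rcases List.eq_nil_or_concat l with h0 | ⟨l', a, h0⟩
    · rw [h0] at h
      simp at h
    · subst h0
      rw [List.concat_eq_append, List.length_append] at h
      obtain ⟨y, hy⟩ := exists_toL k l' (by simpa using h)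
      refine ⟨(y, a), ?_⟩
      change toL k y ++ [a] = _
      rw [hy, List.concat_eq_append]

/-- the matrix of an operator on `k` strands, the first of them has the number `i` -/
def Rep (i k : ℕ) (T : Matrix (Tp N k) (Tp N k) ℂ)
    (O : (List (Fin N) → ℂ) → List (Fin N) → ℂ) : Prop :=
  ∀ (l r : List (Fin N)), l.length = i → ∀ (f : List (Fin N) → ℂ) (y : Tp N k),
    O f (l ++ (toL k y ++ r)) = ∑ q : Tp N k, T y q * f (l ++ (toL k q ++ r))

theorem Rep.comp {i k : ℕ} {T T' : Matrix (Tp N k) (Tp N k) ℂ}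
    {O O' : (List (Fin N) → ℂ) → List (Fin N) → ℂ} (h : Rep i k T O) (h' : Rep i k T' O') :
    Rep i k (T' * T) (fun f => O' (O f)) := by
  intro l r hl f y
  change O' (O f) _ = _
  rw [h' l r hl (O f) y]
  have e : ∀ q, O f (l ++ (toL k q ++ r)) = ∑ p : Tp N k, T q p * f (l ++ (toL k p ++ r)) :=
    fun q => h l r hl f q
  simp only [e, mul_sum, mul_apply, sum_mul]
  rw [sum_comm]
  exact sum_congr rfl fun p _ => sum_congr rfl fun q _ => by ring

theorem Rep_one (i k : ℕ) : Rep i k (1 : Matrix (Tp N k) (Tp N k) ℂ) (fun f => f) := by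
  intro l r hl f y
  rw [sum_eq_single y]
  · rw [one_apply_eq, one_mul]
  · intro q _ hq
    rw [one_apply_ne hq.symm, zero_mul]
  · intro h; exact absurd (mem_univ _) h

theorem sum_Tp_succ (k : ℕ) (g : Tp N (k + 1) → ℂ) :
    ∑ q : Tp N (k + 1), g q = ∑ x : Tp N k, ∑ a : Fin N, g (x, a) :=
  Fintype.sum_prod_type (α₁ := Tp N k) (α₂ := Fin N) g

/-- one more strand -/
theorem Rep.succ {i k : ℕ} {T : Matrix (Tp N k) (Tp N k) ℂ}
    {O : (List (Fin N) → ℂ) → List (Fin N) → ℂ} (h : Rep i k T O) :
    Rep i (k + 1) (T ⊗ₖ (1 : Matrix (Fin N) (Fin N) ℂ) : Matrix (Tp N k × Fin N) (Tp N k × Fin N) ℂ)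
      O := by
  rintro l r hl f ⟨x, a⟩
  have e1 : ∀ (x : Tp N k) (a : Fin N), toL (k + 1) (x, a) ++ r = toL k x ++ (a :: r) := by
    intro x a
    change (toL k x ++ [a]) ++ r = _
    rw [List.append_assoc]
    rfl
  rw [e1, h l (a :: r) hl f x, sum_Tp_succ]
  refine sum_congr rfl fun q _ => ?_
  rw [sum_eq_single a]
  · rw [e1]
    change T x q * _ = (T x q * (1 : Matrix (Fin N) (Fin N) ℂ) a a) * _
    rw [one_apply_eq, mul_one]
  · intro b _ hb
    change (T x q * (1 : Matrix (Fin N) (Fin N) ℂ) a b) * _ = 0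
    rw [one_apply_ne hb.symm, mul_zero, zero_mul]
  · intro h; exact absurd (mem_univ _) h

/-- an operator on the last two strands -/
theorem Rep_last2 (A : Matrix (Fin N × Fin N) (Fin N × Fin N) ℂ) (i k : ℕ) :
    Rep i (k + 2) (last2 A : Matrix ((Tp N k × Fin N) × Fin N) ((Tp N k × Fin N) × Fin N) ℂ)
      (op A (i + k)) := by
  rintro l r hl f ⟨⟨x, a⟩, b⟩
  have e1 : ∀ (x : Tp N k) (a b : Fin N), l ++ (toL (k + 2) ((x, a), b) ++ r) =
      (l ++ toL k x) ++ a :: b :: r := by
    intro x a b
    change l ++ (((toL k x ++ [a]) ++ [b]) ++ r) = _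
    simp
  rw [e1, op_app A f _ a b r (by rw [List.length_append, toL_length, hl])]
  rw [sum_Tp_succ, sum_Tp_succ, sum_eq_single x, Fintype.sum_prod_type]
  · refine sum_congr rfl fun a' _ => sum_congr rfl fun b' _ => ?_
    rw [e1]
    change _ = (if x = x then A (a, b) (a', b') else 0) * _
    rw [if_pos rfl]
  · intro x' _ hx
    refine sum_eq_zero fun a' _ => sum_eq_zero fun b' _ => ?_
    change (if x = x' then A (a, b) (a', b') else 0) * _ = 0
    rw [if_neg (fun h => hx h.symm), zero_mul]
  · intro h; exact absurd (mem_univ _) h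

/-- the strand `i + k` runs once around the strands `i, …, i + k - 1` -/
def around (i k : ℕ) : List ℕ := ((List.range k).map (i + ·)).reverse ++ (List.range k).map (i + ·)

/-- a full twist of the strands `i, …, i + k - 1` -/
def ftw (i : ℕ) : ℕ → List ℕ
  | 0 => []
  | k + 1 => around i k ++ ftw i k

theorem around_succ (i k : ℕ) : around i (k + 1) = (i + k) :: (around i k ++ [i + k]) := by
  unfold around
  rw [List.range_succ, List.map_append, List.reverse_append]
  simp

theorem jstep_eq {ι κ : Type} [Fintype ι] [DecidableEq ι] [Fintype κ] [DecidableEq κ]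
    (A : Matrix (κ × κ) (κ × κ) ℂ) (J : Matrix (ι × κ) (ι × κ) ℂ) :
    jstep A J = last2 A * ((J ⊗ₖ (1 : Matrix κ κ ℂ)) * last2 A) := by
  unfold jstep
  rw [Matrix.mul_assoc]

theorem Rep_around (A : Matrix (Fin N × Fin N) (Fin N × Fin N) ℂ) (i : ℕ) : ∀ k,
    Rep i (k + 1) (Jop A k : Matrix (Tp N k × Fin N) (Tp N k × Fin N) ℂ) (wop A (around i k))
  | 0 => Rep_one i 1
  | k + 1 => by
    have h1 := Rep_last2 A i k
    have h2 := (Rep_around A i k).succ
    have h3 := (h1.comp h2).comp h1
    have e : (fun f : List (Fin N) → ℂ => op A (i + k) (wop A (around i k) (op A (i + k) f))) =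
        wop A (around i (k + 1)) := by
      funext f
      rw [around_succ, ← List.singleton_append, wop_append, wop_append, wop_single, wop_single]
    rw [← e]
    have e2 : (Jop A (k + 1) : Matrix (Tp N (k + 1) × Fin N) (Tp N (k + 1) × Fin N) ℂ) =
        last2 A * ((Jop A k ⊗ₖ (1 : Matrix (Fin N) (Fin N) ℂ)) * last2 A) :=
      jstep_eq A (Jop A k)
    rw [e2]
    exact h3

theorem Rep_ftw (A : Matrix (Fin N × Fin N) (Fin N × Fin N) ℂ) (i : ℕ) : ∀ k,
    Rep i k (TT A k) (wop A (ftw i k))
  | 0 => Rep_one i 0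
  | k + 1 => by
    have h1 := Rep_around A i k
    have h2 := (Rep_ftw A i k).succ
    have h3 := h1.comp h2
    have e : (fun f : List (Fin N) → ℂ => wop A (ftw i k) (wop A (around i k) f)) =
        wop A (ftw i (k + 1)) := by
      funext f
      rw [ftw, wop_append]
    rw [← e]
    exact h3

/-- `m` full twists -/
def ftws (i k m : ℕ) : List ℕ := (List.replicate m (ftw i k)).flatten

theorem ftws_succ (i k m : ℕ) : ftws i k (m + 1) = ftw i k ++ ftws i k m := by
  unfold ftws
  rw [List.replicate_succ, List.flatten_cons]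

theorem Rep_ftws (A : Matrix (Fin N × Fin N) (Fin N × Fin N) ℂ) (i k : ℕ) : ∀ m,
    Rep i k (TT A k ^ m) (wop A (ftws i k m))
  | 0 => by
    rw [pow_zero]
    exact Rep_one i k
  | m + 1 => by
    have h1 := (Rep_ftw A i k).comp (Rep_ftws A i k m)
    have e : (fun f : List (Fin N) → ℂ => wop A (ftws i k m) (wop A (ftw i k) f)) =
        wop A (ftws i k (m + 1)) := by
      funext f
      rw [ftws_succ, wop_append]
    rw [← e, pow_succ]
    exact h1

theorem ftws_zero (i k : ℕ) : ftws i k 0 = [] := rfl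

theorem ftws_small (i m : ℕ) {k : ℕ} (hk : k ≤ 1) : ftws i k m = [] := by
  have h : ftw i k = [] := by
    rcases k with _ | _ | k
    · rfl
    · simp [ftw, around]
    · omega
  unfold ftws
  rw [h]
  simp

theorem mem_ftws (i : ℕ) {k m : ℕ} (hk : 2 ≤ k) (hm : 1 ≤ m) : i + (k - 2) ∈ ftws i k m := by
  obtain ⟨m, rfl⟩ : ∃ m', m = m' + 1 := ⟨m - 1, by omega⟩
  obtain ⟨k, rfl⟩ : ∃ k', k = k' + 2 := ⟨k - 2, by omega⟩
  rw [ftws_succ, ftw, around_succ]
  simp

/-- bound of the operator of `m` full twists -/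
theorem wop_bound (A : Matrix (Fin N × Fin N) (Fin N × Fin N) ℂ) (i k m : ℕ) {w B : ℝ} (hN : 1 ≤ N)
    (hw : 1 ≤ w) (hB : 0 ≤ B) (hA : ∀ s t : Tp N k, ‖(TT A k ^ m) s t‖ ≤ w)
    {f : List (Fin N) → ℂ} (hf : ∀ s, ‖f s‖ ≤ B) (s : List (Fin N)) :
    ‖wop A (ftws i k m) f s‖ ≤ B * ((N : ℝ) ^ k * w) := by
  have hN1 : (1 : ℝ) ≤ (N : ℝ) ^ k := one_le_pow₀ (by exact_mod_cast hN)
  have hc : (1 : ℝ) ≤ (N : ℝ) ^ k * w := by nlinarith
  rcases Nat.lt_or_ge s.length (i + k) with hs | hs
  · by_cases h : 2 ≤ k ∧ 1 ≤ m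
    · rw [wop_zero A _ (mem_ftws i h.1 h.2) f s (by omega), norm_zero]
      positivity
    · have h2 : ftws i k m = [] := by
        by_cases hk : k ≤ 1
        · exact ftws_small i m hk
        · have : m = 0 := by
            by_contra hm
            exact h ⟨by omega, by omega⟩
          rw [this]; rfl
      rw [h2, wop_nil]
      refine (hf s).trans ?_
      nlinarith
  · obtain ⟨y, hy⟩ := exists_toL (N := N) k ((s.drop i).take k) (by
      rw [List.length_take, List.length_drop]
      omega)
    have e : s = s.take i ++ (toL k y ++ (s.drop i).drop k) := by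
      rw [hy, List.take_append_drop, List.take_append_drop]
    have hl : (s.take i).length = i := by
      rw [List.length_take]; omega
    rw [e, Rep_ftws A i k m _ _ hl f y]
    refine (norm_sum_le _ _).trans ?_
    have h : ∀ q ∈ (univ : Finset (Tp N k)), ‖(TT A k ^ m) y q *
        f (s.take i ++ (toL k q ++ (s.drop i).drop k))‖ ≤ w * B := by
      intro q _
      rw [norm_mul]
      exact mul_le_mul (hA y q) (hf _) (norm_nonneg _) (by linarith)
    refine (sum_le_sum h).trans ?_
    rw [sum_const, card_univ, card_Tp, nsmul_eq_mul]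
    push_cast
    exact le_of_eq (by ring)

end Pool.Agent.Q191.FT
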