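import Pool.Agent.H897R.J.HWB
import Pool.Agent.H345J.Tasks
import Pool.Agent.H22R3.J.Nat

/-!
# The Casimir operator of a weight module
-/

set_option autoImplicit false

namespace Pool.Agent.Q191.FT

open Matrix Finset
open Pool.Agent.H550R3.Jones (WM IsMod IsInt Gen br brf tens irr nb)
open Pool.Agent.H897R.J (HasWt gen_br gen_v br_neg br_zero wt_F)

variable {ι : Type} [Fintype ι] [DecidableEq ι]

/-- the eigenvalue of the Casimir operator on the irreducible module of dimension `c` -/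
noncomputable def lam (v : ℂ) (c : ℤ) : ℂ := v ^ c + v ^ (-c)

theorem lam_sub {v : ℂ} (hv : v ≠ 0) (a b : ℤ) :
    lam v (a + b) - lam v (a - b) = br v a * br v b := by
  unfold lam br
  have e1 : v ^ (a + b) = v ^ a * v ^ b := zpow_add₀ hv _ _
  have e2 : v ^ (-(a + b)) = v ^ (-a) * v ^ (-b) := by rw [← zpow_add₀ hv]; congr 1; ring
  have e3 : v ^ (a - b) = v ^ a * v ^ (-b) := by rw [← zpow_add₀ hv]; congr 1
  have e4 : v ^ (-(a - b)) = v ^ (-a) * v ^ b := by rw [← zpow_add₀ hv]; congr 1; ring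
  rw [e1, e2, e3, e4]
  ring

theorem lam_neg (v : ℂ) (c : ℤ) : lam v (-c) = lam v c := by
  unfold lam; rw [neg_neg, add_comm]

/-- the Casimir operator -/
noncomputable def Cas (v : ℂ) (M : WM ι) : Matrix ι ι ℂ :=
  M.F * M.E + diagonal fun i => lam v (M.wt i + 1)

theorem Cas_E {v : ℂ} (hv : v ≠ 0) {M : WM ι} (hM : IsMod v M) : Cas v M * M.E = M.E * Cas v M := by
  unfold Cas
  have h1 : M.E * M.F = M.F * M.E + diagonal fun i => br v 1 * br v (M.wt i) := by
    rw [← hM.comm]; abel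
  rw [add_mul, mul_add, ← mul_assoc M.E, h1, add_mul, add_assoc]
  congr 1
  ext i j
  rw [Matrix.add_apply, diagonal_mul, diagonal_mul, mul_diagonal]
  by_cases h0 : M.E i j = 0
  · simp [h0]
  have h2 := hM.hE i j h0
  have h3 := lam_sub hv (M.wt i) 1
  have h4 : M.wt j + 1 = M.wt i - 1 := by omega
  rw [h4, mul_comm (M.E i j), ← add_mul]
  congr 1
  rw [eq_add_of_sub_eq h3, mul_comm (br v (M.wt i))]

theorem Cas_F {v : ℂ} (hv : v ≠ 0) {M : WM ι} (hM : IsMod v M) : Cas v M * M.F = M.F * Cas v M := by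
  unfold Cas
  have h1 : M.E * M.F = M.F * M.E + diagonal fun i => br v 1 * br v (M.wt i) := by
    rw [← hM.comm]; abel
  rw [add_mul, mul_add, mul_assoc, h1, mul_add, add_assoc]
  congr 1
  ext i j
  rw [Matrix.add_apply, mul_diagonal, diagonal_mul, mul_diagonal]
  by_cases h0 : M.F i j = 0
  · simp [h0]
  have h2 := hM.hF i j h0
  have h3 := lam_sub hv (M.wt j) 1
  have h4 : M.wt i + 1 = M.wt j - 1 := by omega
  rw [h4, mul_comm (lam v _) (M.F i j), ← mul_add]
  congr 1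
  rw [eq_add_of_sub_eq h3, mul_comm (br v (M.wt j))]

theorem Cas_Epow {v : ℂ} (hv : v ≠ 0) {M : WM ι} (hM : IsMod v M) (n : ℕ) :
    Cas v M * M.E ^ n = M.E ^ n * Cas v M := by
  have h : Commute (Cas v M) M.E := Cas_E hv hM
  exact h.pow_right n

theorem Cas_Fpow {v : ℂ} (hv : v ≠ 0) {M : WM ι} (hM : IsMod v M) (n : ℕ) :
    Cas v M * M.F ^ n = M.F ^ n * Cas v M := by
  have h : Commute (Cas v M) M.F := Cas_F hv hM
  exact h.pow_right n

theorem wt_E {v : ℂ} {M : WM ι} (h : IsMod v M) {μ : ℤ} {x : ι → ℂ} (hx : HasWt M μ x) :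
    HasWt M (μ + 2) (M.E *ᵥ x) := by
  intro i hi
  rw [mulVec, dotProduct] at hi
  obtain ⟨j, _, hj⟩ := exists_ne_zero_of_sum_ne_zero hi
  have h1 := h.hE i j (left_ne_zero_of_mul hj)
  have h2 := hx j (right_ne_zero_of_mul hj)
  omega

theorem wt_Epow {v : ℂ} {M : WM ι} (h : IsMod v M) {μ : ℤ} {x : ι → ℂ} (hx : HasWt M μ x) (n : ℕ) :
    HasWt M (μ + 2 * n) (M.E ^ n *ᵥ x) := by
  induction n with
  | zero => simpa using hx
  | succ n ih =>
    rw [pow_succ', ← mulVec_mulVec]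
    have := wt_E h ih
    convert this using 1
    push_cast; ring

theorem wt_Fpow {v : ℂ} {M : WM ι} (h : IsMod v M) {μ : ℤ} {x : ι → ℂ} (hx : HasWt M μ x) (n : ℕ) :
    HasWt M (μ - 2 * n) (M.F ^ n *ᵥ x) := by
  induction n with
  | zero => simpa using hx
  | succ n ih =>
    rw [pow_succ', ← mulVec_mulVec]
    have := wt_F h ih
    convert this using 1
    push_cast; ring

omit [Fintype ι] [DecidableEq ι] in
theorem HasWt.smul {M : WM ι} {μ : ℤ} {x : ι → ℂ} (hx : HasWt M μ x) (a : ℂ) :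
    HasWt M μ (a • x) := by
  intro i hi
  rw [Pi.smul_apply, smul_eq_mul] at hi
  exact hx i (right_ne_zero_of_mul hi)

theorem Cas_vec {v : ℂ} {M : WM ι} {μ : ℤ} {x : ι → ℂ} (hx : HasWt M μ x) :
    Cas v M *ᵥ x = M.F *ᵥ (M.E *ᵥ x) + lam v (μ + 1) • x := by
  unfold Cas
  rw [add_mulVec, ← mulVec_mulVec]
  congr 1
  ext i
  rw [mulVec_diagonal, Pi.smul_apply, smul_eq_mul]
  by_cases hi : x i = 0
  · simp [hi]
  · rw [hx i hi]

/-- the Newton sequence `F^l E^l x` -/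
theorem Cas_G {v : ℂ} (hv : v ≠ 0) {M : WM ι} (hM : IsMod v M) {μ : ℤ} {x : ι → ℂ}
    (hx : HasWt M μ x) (l : ℕ) : Cas v M *ᵥ (M.F ^ l *ᵥ (M.E ^ l *ᵥ x)) =
      M.F ^ (l + 1) *ᵥ (M.E ^ (l + 1) *ᵥ x) +
      lam v (μ + 1 + 2 * l) • (M.F ^ l *ᵥ (M.E ^ l *ᵥ x)) := by
  rw [mulVec_mulVec, Cas_Fpow hv hM, ← mulVec_mulVec, Cas_vec (wt_Epow hM hx l), mulVec_add,
    mulVec_smul]
  congr 1
  · rw [mulVec_mulVec _ M.E, ← pow_succ', mulVec_mulVec _ _ M.F, ← pow_succ]
  · congr 2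
    ring

/-- the dual module -/
def dual (M : WM ι) : WM ι where
  wt i := - M.wt i
  E := M.F
  F := M.E

theorem dual_mod {v : ℂ} {M : WM ι} (hM : IsMod v M) : IsMod v (dual M) where
  hE i j h := by
    have := hM.hF i j h
    change - M.wt i = - M.wt j + 2
    omega
  hF i j h := by
    have := hM.hE i j h
    change - M.wt i + 2 = - M.wt j
    omega
  comm := by
    change M.F * M.E - M.E * M.F = diagonal fun i => br v 1 * br v (- M.wt i)
    have h : M.F * M.E - M.E * M.F = -(M.E * M.F - M.F * M.E) := by abel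
    rw [h, hM.comm]
    ext i j
    rw [neg_apply, diagonal_apply, diagonal_apply]
    split_ifs with h
    · rw [br_neg]; ring
    · simp

theorem Cas_dual {v : ℂ} (hv : v ≠ 0) {M : WM ι} (hM : IsMod v M) : Cas v (dual M) = Cas v M := by
  unfold Cas
  change M.E * M.F + _ = _
  have h1 : M.E * M.F = M.F * M.E + diagonal fun i => br v 1 * br v (M.wt i) := by
    rw [← hM.comm]; abel
  rw [h1, add_assoc]
  congr 1
  ext i j
  rw [Matrix.add_apply, diagonal_apply, diagonal_apply, diagonal_apply]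
  split_ifs with h
  · have h3 := lam_sub hv (M.wt i) 1
    change br v 1 * br v (M.wt i) + lam v (- M.wt i + 1) = _
    have h4 : - M.wt i + 1 = -(M.wt i - 1) := by ring
    rw [h4, lam_neg, eq_add_of_sub_eq h3, mul_comm (br v (M.wt i))]
  · simp

omit [Fintype ι] [DecidableEq ι] in
theorem HasWt_dual {M : WM ι} {μ : ℤ} {x : ι → ℂ} : HasWt (dual M) μ x ↔ HasWt M (-μ) x := by
  unfold HasWt dual
  constructor
  · intro h i hi
    have := h i hi
    simp only at this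
    omega
  · intro h i hi
    have := h i hi
    simp only
    omega

/-- `F^n E^n x` for an eigenvector `x` of the Casimir operator -/
theorem G_eig {v : ℂ} (hv : v ≠ 0) {M : WM ι} (hM : IsMod v M) {μ : ℤ} {x : ι → ℂ}
    (hx : HasWt M μ x) {a : ℤ} (ha : Cas v M *ᵥ x = lam v a • x) (n : ℕ) :
    M.F ^ n *ᵥ (M.E ^ n *ᵥ x) = (∏ j ∈ range n, (lam v a - lam v (μ + 1 + 2 * j))) • x := by
  induction n with
  | zero => simp
  | succ n ih =>
    have h := Cas_G hv hM hx n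
    rw [ih] at h
    rw [mulVec_smul, ha] at h
    rw [eq_sub_of_add_eq h.symm, prod_range_succ, smul_smul, smul_smul, ← sub_smul]
    congr 1
    ring

theorem Epow_nil {v : ℂ} {M : WM ι} (hM : IsMod v M) {μ : ℤ} {x : ι → ℂ} (hx : HasWt M μ x)
    {B : ℤ} (hB : ∀ i, M.wt i ≤ B) {n : ℕ} (hn : B < μ + 2 * n) : M.E ^ n *ᵥ x = 0 := by
  ext i
  by_contra h
  have := wt_Epow hM hx n i h
  have := hB i
  omega

omit [DecidableEq ι] in
theorem exists_B (M : WM ι) : ∃ B : ℤ, ∀ i, M.wt i ≤ B := by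
  obtain ⟨B, hB⟩ := (Set.finite_range M.wt).bddAbove
  exact ⟨B, fun i => hB ⟨i, rfl⟩⟩

/-- an eigenvector of the Casimir operator is zero unless the weight is small enough -/
theorem eig_zero {v : ℂ} (hv : v ≠ 0) {M : WM ι} (hM : IsMod v M) {μ : ℤ} {x : ι → ℂ}
    (hx : HasWt M μ x) {a : ℤ} (ha : Cas v M *ᵥ x = lam v a • x)
    (h : ∀ j : ℕ, lam v a ≠ lam v (μ + 1 + 2 * j)) : x = 0 := by
  obtain ⟨B, hB⟩ := exists_B M
  have h1 := G_eig hv hM hx ha (B - μ).toNat.succ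
  rw [Epow_nil hM hx hB (by push_cast [Nat.succ_eq_add_one]; omega), mulVec_zero] at h1
  refine (smul_eq_zero.mp h1.symm).resolve_left ?_
  rw [← ne_eq, prod_ne_zero_iff]
  intro j _
  exact sub_ne_zero.2 (h j)

theorem lam_ne {u : ℂ} (hu : Gen u) {a b : ℤ} (h1 : a ≠ b) (h2 : a ≠ -b) (hp : (2 : ℤ) ∣ a - b) :
    lam (u ^ 2) a ≠ lam (u ^ 2) b := by
  obtain ⟨k, hk⟩ := hp
  have h := lam_sub (gen_v hu) (b + k) k
  have e1 : b + k + k = a := by omega
  have e2 : b + k - k = b := by omega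
  rw [e1, e2] at h
  rw [← sub_ne_zero, h]
  exact mul_ne_zero (gen_br hu (by omega)) (gen_br hu (by omega))

end Pool.Agent.Q191.FT
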