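import Pool.Agent.Q191.FT.Brd

/-!
# Diagrams with twist regions of any number of strands
-/

set_option autoImplicit false

namespace Pool.Agent.Q191.FT

open Matrix Finset Filter Topology
open Pool.Agent.W715.VC (rt PP QQ)
open Pool.Agent.H550R3.Jones (br crossP crossN)
open GapVol (lob)
open scoped Real

/-- the pieces of a diagram -/
inductive Pc
  | cup (i : ℕ)
  | cap (i : ℕ)
  | twist (i : ℕ) (σ : Bool) (m : ℕ)
  | full (i k : ℕ) (σ : Bool) (m : ℕ)

/-- the operator of a piece -/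
noncomputable def Pc.act (N : ℕ) (v : ℂ) : Pc → (List (Fin N) → ℂ) → List (Fin N) → ℂ
  | .cup i, f => Pool.Agent.W709.QAT.Piece.act N v (.cup i) f
  | .cap i, f => Pool.Agent.W709.QAT.Piece.act N v (.cap i) f
  | .twist i σ m, f => Pool.Agent.W709.QAT.Piece.act N v (.twist i σ m) f
  | .full i k σ m, f => wop (if σ then crossP N v else crossN N v) (ftws i k m) f

/-- the operator of a diagram -/
noncomputable def rn (N : ℕ) (v : ℂ) (D : List Pc) (f : List (Fin N) → ℂ) : List (Fin N) → ℂ :=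
  D.foldl (fun g P => P.act N v g) f

/-- the coloured Jones polynomial -/
noncomputable def jns (N : ℕ) (D : List Pc) (v : ℂ) : ℂ :=
  if h : 0 < N then rn N v D (fun s => if s = [⟨0, h⟩] then 1 else 0) [⟨0, h⟩] else 0

/-- the growth rate of a piece -/
noncomputable def Pc.rate : Pc → ℝ
  | .cup _ => 0
  | .cap _ => 0
  | .twist _ _ m => Pool.Agent.W709.QAT.rate m
  | .full _ k _ _ => (k + 1) * (8 * lob (π / 4))

/-- the polynomial factor of a piece -/
noncomputable def Pc.pf : Pc → ℝ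
  | .cup _ => 1
  | .cap _ => 1
  | .twist _ _ m => ((m : ℝ) + 1) ^ 2
  | .full _ k _ m => ((m : ℝ) + 1) ^ (24 * (k + 1) ^ 2 + 1)

/-- the number of strands of a full twist -/
def Pc.wd : Pc → ℕ
  | .full _ k _ _ => k
  | _ => 0

theorem Pc.rate_nonneg (P : Pc) : 0 ≤ P.rate := by
  rcases P with i | i | ⟨i, σ, m⟩ | ⟨i, k, σ, m⟩
  · exact le_rfl
  · exact le_rfl
  · exact Pool.Agent.W28.QAT.rate_nonneg m
  · have := lob_four_nonneg
    change 0 ≤ ((k : ℝ) + 1) * (8 * lob (π / 4))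
    positivity

theorem Pc.pf_one (P : Pc) : 1 ≤ P.pf := by
  rcases P with i | i | ⟨i, σ, m⟩ | ⟨i, k, σ, m⟩
  · exact le_rfl
  · exact le_rfl
  · exact one_le_pow₀ (by have : (0 : ℝ) ≤ m := Nat.cast_nonneg m; linarith)
  · exact one_le_pow₀ (by have : (0 : ℝ) ≤ m := Nat.cast_nonneg m; linarith)

/-- the bound of a piece -/
noncomputable def Pc.bd (N : ℕ) (ε : ℝ) (P : Pc) : ℝ :=
  P.pf * Real.exp (N * (P.rate / (2 * π) + ε))

theorem Pc.bd_one {N : ℕ} {ε : ℝ} (hε : 0 ≤ ε) (P : Pc) : 1 ≤ P.bd N ε := by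
  have h1 := P.pf_one
  have h2 : 1 ≤ Real.exp (N * (P.rate / (2 * π) + ε)) := by
    apply Real.one_le_exp
    have := P.rate_nonneg
    have := Real.pi_pos
    positivity
  unfold Pc.bd
  nlinarith

theorem act_bound {N K : ℕ} {ε : ℝ} (hN : 1 ≤ N) (hε : 0 ≤ ε) (hK : 0 < K)
    (hTW : ∀ m : ℕ, ∀ p q : Fin N × Fin N, ‖(PP N ^ m) p q‖ ≤ Pool.Agent.W28.QAT.wt N ε m ∧
      ‖(QQ N ^ m) p q‖ ≤ Pool.Agent.W28.QAT.wt N ε m) (P : Pc) (hPK : P.wd ≤ K)
    (hFT : ∀ k, k ≤ K → ∀ (m : ℕ) (s t : Tp N k),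
      ‖((TT (PP N) k) ^ m) s t‖ ≤ ((m : ℝ) + 1) ^ (24 * (k + 1) ^ 2 + 1) *
        Real.exp (N * ((2 * k + 2) * W8 / π + ε)) ∧
      ‖((TT (QQ N) k) ^ m) s t‖ ≤ ((m : ℝ) + 1) ^ (24 * (k + 1) ^ 2 + 1) *
        Real.exp (N * ((2 * k + 2) * W8 / π + ε)))
    (f : List (Fin N) → ℂ) (B : ℝ) (hB : 0 ≤ B)
    (hf : ∀ s, ‖f s‖ ≤ B) (s : List (Fin N)) :
    ‖P.act N (rt N) f s‖ ≤ B * ((N : ℝ) ^ (K + 2) * P.bd N ε) := by
  have hNR : (1 : ℝ) ≤ N := by exact_mod_cast hN
  have hbd := P.bd_one (N := N) hε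
  have hK2 : (N : ℝ) ^ 2 ≤ (N : ℝ) ^ (K + 2) := pow_le_pow_right₀ hNR (by omega)
  rcases P with i | i | ⟨i, σ, m⟩ | ⟨i, k, σ, m⟩
  · have h := Pool.Agent.W28.QAT.act_bound hN hTW (.cup i) f B hB hf s
    have e : Pool.Agent.W28.QAT.cost N ε (.cup i) = (N : ℝ) ^ 2 := by
      simp [Pool.Agent.W28.QAT.cost, Pool.Agent.W709.QAT.Piece.size]
    rw [e] at h
    refine h.trans ?_
    have : (N : ℝ) ^ 2 ≤ (N : ℝ) ^ (K + 2) * (Pc.cup i).bd N ε := by nlinarith
    gcongr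
  · have h := Pool.Agent.W28.QAT.act_bound hN hTW (.cap i) f B hB hf s
    have e : Pool.Agent.W28.QAT.cost N ε (.cap i) = (N : ℝ) ^ 2 := by
      simp [Pool.Agent.W28.QAT.cost, Pool.Agent.W709.QAT.Piece.size]
    rw [e] at h
    refine h.trans ?_
    have : (N : ℝ) ^ 2 ≤ (N : ℝ) ^ (K + 2) * (Pc.cap i).bd N ε := by nlinarith
    gcongr
  · have h := Pool.Agent.W28.QAT.act_bound hN hTW (.twist i σ m) f B hB hf s
    have e : Pool.Agent.W28.QAT.cost N ε (.twist i σ m) = (N : ℝ) ^ 2 * (Pc.twist i σ m).bd N ε := by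
      simp [Pool.Agent.W28.QAT.cost, Pool.Agent.W709.QAT.Piece.size, Pc.bd, Pc.pf, Pc.rate,
        Pool.Agent.W28.QAT.wt]
    rw [e] at h
    refine h.trans ?_
    gcongr
  · have hk : k ≤ K := hPK
    have hb : ∀ A : Matrix (Fin N × Fin N) (Fin N × Fin N) ℂ,
        (∀ s t : Tp N k, ‖((TT A k) ^ m) s t‖ ≤ ((m : ℝ) + 1) ^ (24 * (k + 1) ^ 2 + 1) *
          Real.exp (N * ((2 * k + 2) * W8 / π + ε))) →
        ‖wop A (ftws i k m) f s‖ ≤ B * ((N : ℝ) ^ (K + 2) * (Pc.full i k σ m).bd N ε) := by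
      intro A hA
      have e : (Pc.full i k σ m).bd N ε = ((m : ℝ) + 1) ^ (24 * (k + 1) ^ 2 + 1) *
          Real.exp (N * ((2 * k + 2) * W8 / π + ε)) := by
        unfold Pc.bd Pc.pf Pc.rate W8
        congr 2
        have := Real.pi_pos
        field_simp
        ring
      rw [← e] at hA
      refine (wop_bound A i k m hN hbd hB hA hf s).trans ?_
      have hk2 : (N : ℝ) ^ k ≤ (N : ℝ) ^ (K + 2) := pow_le_pow_right₀ hNR (by omega)
      gcongr
    change ‖wop (if σ then crossP N (rt N) else crossN N (rt N)) (ftws i k m) f s‖ ≤ _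
    cases σ
    · exact hb (QQ N) fun s t => (hFT k hk m s t).2
    · exact hb (PP N) fun s t => (hFT k hk m s t).1

theorem run_bound {N K : ℕ} {ε : ℝ} (hN : 1 ≤ N) (hε : 0 ≤ ε) (hK : 0 < K)
    (hTW : ∀ m : ℕ, ∀ p q : Fin N × Fin N, ‖(PP N ^ m) p q‖ ≤ Pool.Agent.W28.QAT.wt N ε m ∧
      ‖(QQ N ^ m) p q‖ ≤ Pool.Agent.W28.QAT.wt N ε m)
    (hFT : ∀ k, k ≤ K → ∀ (m : ℕ) (s t : Tp N k),
      ‖((TT (PP N) k) ^ m) s t‖ ≤ ((m : ℝ) + 1) ^ (24 * (k + 1) ^ 2 + 1) *
        Real.exp (N * ((2 * k + 2) * W8 / π + ε)) ∧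
      ‖((TT (QQ N) k) ^ m) s t‖ ≤ ((m : ℝ) + 1) ^ (24 * (k + 1) ^ 2 + 1) *
        Real.exp (N * ((2 * k + 2) * W8 / π + ε))) (D : List Pc) :
    (∀ P ∈ D, P.wd ≤ K) →
    ∀ (f : List (Fin N) → ℂ) (B : ℝ), 0 ≤ B → (∀ s, ‖f s‖ ≤ B) → ∀ s : List (Fin N),
    ‖rn N (rt N) D f s‖ ≤ B * ((N : ℝ) ^ ((K + 2) * D.length) * (D.map (Pc.bd N ε)).prod) := by
  induction D with
  | nil =>
    intro _ f B hB hf s
    simpa [rn] using hf s
  | cons P D ih =>
    intro hD f B hB hf s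
    have hPK := hD P (by simp)
    have h0 : 0 ≤ (N : ℝ) ^ (K + 2) * P.bd N ε := by
      have := P.bd_one (N := N) hε
      positivity
    have h1 := ih (fun Q hQ => hD Q (by simp [hQ])) (P.act N (rt N) f)
      (B * ((N : ℝ) ^ (K + 2) * P.bd N ε)) (mul_nonneg hB h0)
      (act_bound hN hε hK hTW P hPK hFT f B hB hf) s
    rw [List.map_cons, List.prod_cons, List.length_cons, mul_add, mul_one, pow_add]
    refine h1.trans (le_of_eq ?_)
    ring

/-- the state sum -/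
theorem ssf (K : ℕ) (ε : ℝ) (hε : 0 < ε) : ∀ᶠ N : ℕ in atTop, ∀ D : List Pc, (∀ P ∈ D, P.wd ≤ K) →
    ‖jns N D (rt N)‖ ≤ (N : ℝ) ^ ((K + 3) * D.length) * (D.map (Pc.bd N ε)).prod := by
  have hFT : ∀ᶠ N : ℕ in atTop, ∀ k ∈ Finset.range (K + 2), ∀ (m : ℕ) (s t : Tp N k),
      ‖((TT (PP N) k) ^ m) s t‖ ≤ ((m : ℝ) + 1) ^ (24 * (k + 1) ^ 2 + 1) *
        Real.exp (N * ((2 * k + 2) * W8 / π + ε)) ∧
      ‖((TT (QQ N) k) ^ m) s t‖ ≤ ((m : ℝ) + 1) ^ (24 * (k + 1) ^ 2 + 1) *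
        Real.exp (N * ((2 * k + 2) * W8 / π + ε)) := by
    rw [Filter.eventually_all_finset]
    intro k _
    exact full_bound k ε hε
  filter_upwards [hFT, Pool.Agent.W709.QAT.tw ε hε, eventually_ge_atTop 1] with N hFT hTW hN1
  intro D hD
  have h0 : 0 < N := hN1
  unfold jns
  rw [dif_pos h0]
  have h1 := run_bound (K := K + 1) hN1 hε.le (by omega) hTW
    (fun k hk => hFT k (Finset.mem_range.2 (by omega))) D (fun P hP => (hD P hP).trans (by omega))
    (fun s => if s = [(⟨0, h0⟩ : Fin N)] then (1 : ℂ) else 0) 1 zero_le_one (by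
      intro s
      show ‖(if s = [(⟨0, h0⟩ : Fin N)] then (1 : ℂ) else 0)‖ ≤ 1
      split_ifs <;> simp) [⟨0, h0⟩]
  rw [one_mul] at h1
  exact h1

theorem log_prod_bd (N : ℕ) (ε : ℝ) (hε : 0 ≤ ε) (D : List Pc) :
    0 < (D.map (Pc.bd N ε)).prod ∧ Real.log ((D.map (Pc.bd N ε)).prod) =
    (D.map (fun P => Real.log P.pf)).sum + N / (2 * π) * (D.map Pc.rate).sum + N * ε * D.length := by
  have hpi := Real.pi_pos
  induction D with
  | nil => simp
  | cons P D ih =>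
    obtain ⟨ih0, ih⟩ := ih
    have h1 := P.bd_one (N := N) hε
    have h0 : 0 < P.bd N ε := by linarith
    rw [List.map_cons, List.prod_cons, Real.log_mul h0.ne' ih0.ne', ih]
    refine ⟨by positivity, ?_⟩
    have h2 : Real.log (P.bd N ε) = Real.log P.pf + N * (P.rate / (2 * π) + ε) := by
      unfold Pc.bd
      rw [Real.log_mul (by have := P.pf_one; linarith) (Real.exp_pos _).ne', Real.log_exp]
    rw [h2, List.map_cons, List.sum_cons, List.map_cons, List.sum_cons, List.length_cons]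
    push_cast
    field_simp
    ring

/-- the bound of the growth rate -/
theorem limf (D : List Pc) (ε : ℝ) (hε : 0 < ε) : ∀ᶠ N : ℕ in atTop,
    2 * π / N * Real.log ‖jns N D (rt N)‖ ≤ (D.map Pc.rate).sum + ε := by
  have hpi := Real.pi_pos
  obtain ⟨K, hK⟩ : ∃ K : ℕ, ∀ P ∈ D, P.wd ≤ K :=
    ⟨(D.map Pc.wd).sum, fun P hP => List.single_le_sum (by simp) _ (List.mem_map_of_mem hP)⟩
  set t : ℝ := (D.length : ℝ) with ht
  have ht0 : 0 ≤ t := Nat.cast_nonneg _
  set ε' : ℝ := ε / (4 * π * (t + 1)) with hε'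
  have hε'0 : 0 < ε' := by positivity
  set S : ℝ := (D.map (fun P => Real.log P.pf)).sum with hS
  have hrate : 0 ≤ (D.map Pc.rate).sum := by
    apply List.sum_nonneg
    intro x hx
    obtain ⟨P, -, rfl⟩ := List.mem_map.1 hx
    exact P.rate_nonneg
  -- the error terms tend to zero
  have hlim : Tendsto (fun N : ℕ => 2 * π / N * (((K : ℝ) + 3) * D.length * Real.log N + S)) atTop
      (𝓝 0) := by
    have h1 : Tendsto (fun N : ℕ => Real.log (N : ℝ) / (N : ℝ)) atTop (𝓝 0) :=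
      (Real.isLittleO_log_id_atTop.tendsto_div_nhds_zero).comp tendsto_natCast_atTop_atTop
    have h2 : Tendsto (fun N : ℕ => (1 : ℝ) / (N : ℝ)) atTop (𝓝 0) :=
      tendsto_one_div_atTop_nhds_zero_nat
    have h3 := ((h1.const_mul (2 * π * (((K : ℝ) + 3) * D.length))).add (h2.const_mul (2 * π * S)))
    rw [mul_zero, mul_zero, add_zero] at h3
    refine h3.congr ?_
    intro N
    ring
  have hev : ∀ᶠ N : ℕ in atTop,
      2 * π / N * (((K : ℝ) + 3) * D.length * Real.log N + S) < ε / 2 :=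
    hlim.eventually_lt_const (by positivity)
  filter_upwards [ssf K ε' hε'0, hev, eventually_ge_atTop 1] with N hN hN2 hN1
  have hNpos : (0 : ℝ) < N := by exact_mod_cast hN1
  by_cases hj : jns N D (rt N) = 0
  · rw [hj, norm_zero, Real.log_zero, mul_zero]
    positivity
  · have h1 := hN D hK
    have hpos : 0 < ‖jns N D (rt N)‖ := norm_pos_iff.2 hj
    have h3 := Real.log_le_log hpos h1
    obtain ⟨h4, h5⟩ := log_prod_bd N ε' hε'0.le D
    rw [Real.log_mul (by positivity) h4.ne', Real.log_pow, h5] at h3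
    rw [← hS] at h3
    have h6 : 2 * π / N * Real.log ‖jns N D (rt N)‖ ≤ 2 * π / N *
        ((((K + 3) * D.length : ℕ) : ℝ) * Real.log N +
          (S + N / (2 * π) * (D.map Pc.rate).sum + N * ε' * D.length)) :=
      mul_le_mul_of_nonneg_left h3 (by positivity)
    have h7 : 2 * π / N * ((((K + 3) * D.length : ℕ) : ℝ) * Real.log N +
          (S + N / (2 * π) * (D.map Pc.rate).sum + N * ε' * D.length)) =
        2 * π / N * (((K : ℝ) + 3) * D.length * Real.log N + S) + (D.map Pc.rate).sum +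
          2 * π * ε' * t := by
      rw [ht]
      push_cast
      field_simp
      ring
    have h8 : 2 * π * ε' * t ≤ ε / 2 := by
      rw [hε']
      have h9 : 2 * π * (ε / (4 * π * (t + 1))) * t = ε / 2 * (t / (t + 1)) := by
        field_simp
        ring
      rw [h9]
      have h10 : t / (t + 1) ≤ 1 := by
        rw [div_le_one (by positivity)]
        linarith
      nlinarith
    linarith

/-! ### Continuity -/

theorem wop_cont {N : ℕ} {v : ℂ} {A : ℂ → Matrix (Fin N × Fin N) (Fin N × Fin N) ℂ}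
    (hA : ∀ p q, ContinuousAt (fun w => A w p q) v) (w : List ℕ) :
    ∀ (f : ℂ → List (Fin N) → ℂ), (∀ s, ContinuousAt (fun z => f z s) v) → ∀ s : List (Fin N),
    ContinuousAt (fun z => wop (A z) w (f z) s) v := by
  induction w with
  | nil => intro f hf s; exact hf s
  | cons j w ih =>
    intro f hf s
    refine ih (fun z => op (A z) j (f z)) ?_ s
    intro s
    unfold op
    match h : s.drop j with
    | [] => exact continuousAt_const
    | [a] => exact continuousAt_const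
    | a :: b :: r =>
      exact tendsto_finsetSum _ fun p _ => (hA _ p).mul (hf _)

theorem act_cont {N : ℕ} {v : ℂ} (hv : v ≠ 0) (hN : ∀ k : ℕ, 0 < k → k < N → br v k ≠ 0)
    (hN1 : 1 ≤ N) (P : Pc) (f : ℂ → List (Fin N) → ℂ)
    (hf : ∀ s, ContinuousAt (fun w => f w s) v) (s : List (Fin N)) :
    ContinuousAt (fun w => P.act N w (f w) s) v := by
  cases P with
  | cup i => exact Pool.Agent.W613.QAT.act_cont hv hN hN1 (.cup i) f hf s
  | cap i => exact Pool.Agent.W613.QAT.act_cont hv hN hN1 (.cap i) f hf s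
  | twist i σ m => exact Pool.Agent.W613.QAT.act_cont hv hN hN1 (.twist i σ m) f hf s
  | full i k σ m =>
    refine wop_cont (A := fun w => if σ then crossP N w else crossN N w) ?_ _ f hf s
    intro p q
    have h := Pool.Agent.W613.QAT.cross_cont hv hN σ 1 p q
    simpa only [pow_one] using h

theorem run_cont {N : ℕ} {v : ℂ} (hv : v ≠ 0) (hN : ∀ k : ℕ, 0 < k → k < N → br v k ≠ 0)
    (hN1 : 1 ≤ N) (D : List Pc) : ∀ (f : ℂ → List (Fin N) → ℂ),
    (∀ s, ContinuousAt (fun w => f w s) v) → ∀ s : List (Fin N),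
    ContinuousAt (fun w => rn N w D (f w) s) v := by
  induction D with
  | nil => intro f hf s; exact hf s
  | cons P D ih =>
    intro f hf s
    exact ih (fun w => P.act N w (f w)) (act_cont hv hN hN1 P f hf) s

theorem contf (D : List Pc) (N : ℕ) (hN1 : 1 ≤ N) : ContinuousAt (jns N D) (rt N) := by
  have hN : 0 < N := hN1
  have h : jns N D = fun v => rn N v D (fun s => if s = [⟨0, hN⟩] then 1 else 0) [⟨0, hN⟩] := by
    funext v
    unfold jns
    rw [dif_pos hN]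
  rw [h]
  exact run_cont (Pool.Agent.W613.QAT.rt_ne N) Pool.Agent.W613.QAT.br_rt hN1 D
    (fun _ s => if s = [⟨0, hN⟩] then 1 else 0) (fun s => continuousAt_const) _

end Pool.Agent.Q191.FT
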