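import Pool.Agent.Q191.FT.Pt
import Pool.Agent.H756R3.J.Cont

/-!
# Full twists: the entries are holomorphic near the root of unity
-/

set_option autoImplicit false

namespace Pool.Agent.Q191.FT

open Matrix Finset
open scoped Kronecker
open Pool.Agent.H550R3.Jones (br brf crossP crossN)
open Pool.Agent.H756R3.J (brf_ne)

section

variable {m n o : Type} [Fintype m] [Fintype n] [Fintype o]

/-- the entries are differentiable -/
def DA (A : ℂ → Matrix m n ℂ) (v : ℂ) : Prop := ∀ i j, DifferentiableAt ℂ (fun w => A w i j) v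

omit [Fintype m] [Fintype o] in
theorem DA.mul {A : ℂ → Matrix m n ℂ} {B : ℂ → Matrix n o ℂ} {v : ℂ} (hA : DA A v) (hB : DA B v) :
    DA (fun w => A w * B w) v := by
  intro i j
  simp only [mul_apply]
  exact DifferentiableAt.fun_sum fun k _ => (hA i k).mul (hB k j)

omit [Fintype m] [Fintype n] in
theorem DA.const (A : Matrix m n ℂ) (v : ℂ) : DA (fun _ => A) v := fun _ _ =>
  differentiableAt_const _

omit [Fintype m] in
theorem DA.pow [Fintype m] [DecidableEq m] {A : ℂ → Matrix m m ℂ} {v : ℂ} (hA : DA A v) (k : ℕ) :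
    DA (fun w => A w ^ k) v := by
  induction k with
  | zero =>
    simp only [pow_zero]
    exact DA.const _ _
  | succ k ih =>
    simp only [pow_succ]
    exact ih.mul hA

theorem DA.kron {ι κ : Type} [Fintype ι] [DecidableEq ι] [Fintype κ] [DecidableEq κ]
    {J : ℂ → Matrix ι ι ℂ} {v : ℂ} (hJ : DA J v) :
    DA (fun w => J w ⊗ₖ (1 : Matrix κ κ ℂ)) v := by
  intro p q
  simp only [kroneckerMap_apply]
  exact (hJ p.1 q.1).mul (differentiableAt_const _)

theorem DA.last2 {ι κ : Type} [Fintype ι] [DecidableEq ι] [Fintype κ] [DecidableEq κ]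
    {A : ℂ → Matrix (κ × κ) (κ × κ) ℂ} {v : ℂ} (hA : DA A v) :
    DA (fun w => (FT.last2 (A w) : Matrix ((ι × κ) × κ) ((ι × κ) × κ) ℂ)) v := by
  intro p q
  unfold FT.last2
  by_cases h : p.1.1 = q.1.1
  · simp only [h, if_true]
    exact hA _ _
  · simp only [h, if_false]
    exact differentiableAt_const _

theorem DA.jstep {ι κ : Type} [Fintype ι] [DecidableEq ι] [Fintype κ] [DecidableEq κ]
    {A : ℂ → Matrix (κ × κ) (κ × κ) ℂ} {J : ℂ → Matrix (ι × κ) (ι × κ) ℂ} {v : ℂ}
    (hA : DA A v) (hJ : DA J v) : DA (fun w => FT.jstep (A w) (J w)) v := by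
  unfold FT.jstep
  exact (hA.last2.mul hJ.kron).mul hA.last2

theorem DA.tstep {ι κ : Type} [Fintype ι] [DecidableEq ι] [Fintype κ] [DecidableEq κ]
    {T : ℂ → Matrix ι ι ℂ} {J : ℂ → Matrix (ι × κ) (ι × κ) ℂ} {v : ℂ}
    (hT : DA T v) (hJ : DA J v) : DA (fun w => FT.tstep (T w) (J w)) v := by
  unfold FT.tstep
  exact hT.kron.mul hJ

end

theorem DA_Jop {N : ℕ} {A : ℂ → Matrix (Fin N × Fin N) (Fin N × Fin N) ℂ} {v : ℂ} (hA : DA A v) :
    ∀ k, DA (fun w => Jop (A w) k) v
  | 0 => DA.const _ _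
  | k + 1 => hA.jstep (DA_Jop hA k)

theorem DA_TT {N : ℕ} {A : ℂ → Matrix (Fin N × Fin N) (Fin N × Fin N) ℂ} {v : ℂ} (hA : DA A v) :
    ∀ k, DA (fun w => TT (A w) k) v
  | 0 => DA.const _ _
  | k + 1 => (DA_TT hA k).tstep (DA_Jop hA k)

theorem zpow_diff {v : ℂ} (hv : v ≠ 0) (n : ℤ) : DifferentiableAt ℂ (fun v : ℂ => v ^ n) v :=
  differentiableAt_zpow.2 (Or.inl hv)

theorem br_diff {v : ℂ} (hv : v ≠ 0) (n : ℤ) : DifferentiableAt ℂ (fun v : ℂ => br v n) v :=
  (zpow_diff hv n).sub (zpow_diff hv (-n))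

theorem prod_diff {f : ℕ → ℂ → ℂ} {v : ℂ} (hf : ∀ j, DifferentiableAt ℂ (f j) v) (m : ℕ) :
    DifferentiableAt ℂ (fun w => ∏ j ∈ range m, f j w) v := by
  induction m with
  | zero => simp
  | succ m ih =>
    simp only [prod_range_succ]
    exact ih.mul (hf m)

theorem brf_diff {v : ℂ} (hv : v ≠ 0) (m : ℕ) : DifferentiableAt ℂ (fun v : ℂ => brf v m) v := by
  unfold brf
  exact prod_diff (fun j => br_diff hv _) m

theorem crossP_diff {N : ℕ} {v : ℂ} (hv : v ≠ 0) (hN : ∀ k : ℕ, 0 < k → k < N → br v k ≠ 0) :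
    DA (fun w => crossP N w) v := by
  intro p q
  unfold crossP
  by_cases h : (p.1 : ℕ) + p.2 = q.1 + q.2 ∧ (q.2 : ℕ) ≤ p.1
  · simp only [h, and_self, if_true]
    refine ((((zpow_diff hv _).mul (differentiableAt_id.pow _)).mul ((brf_diff hv _).div
      ((brf_diff hv _).mul (brf_diff hv _)) (mul_ne_zero (brf_ne hN q.2.2)
        (brf_ne hN (by have := p.1.2; omega))))).mul
        (prod_diff (fun j => br_diff hv _) _))
  · simp only [h, if_false]
    exact differentiableAt_const _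

theorem crossN_diff {N : ℕ} {v : ℂ} (hv : v ≠ 0) (hN : ∀ k : ℕ, 0 < k → k < N → br v k ≠ 0) :
    DA (fun w => crossN N w) v := by
  intro p q
  unfold crossN
  by_cases h : (p.1 : ℕ) + p.2 = q.1 + q.2 ∧ (q.1 : ℕ) ≤ p.2
  · simp only [h, and_self, if_true]
    refine (((((differentiableAt_const _).mul (zpow_diff hv _)).div (differentiableAt_id.pow _)
      (pow_ne_zero _ hv)).mul ((brf_diff hv _).div
      ((brf_diff hv _).mul (brf_diff hv _)) (mul_ne_zero (brf_ne hN q.1.2)
        (brf_ne hN (by have := p.2.2; omega))))).mul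
        (prod_diff (fun j => br_diff hv _) _))
  · simp only [h, if_false]
    exact differentiableAt_const _

end Pool.Agent.Q191.FT
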