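import Pool.Agent.Q191.FT.Tw

/-!
# Bounds of the divided powers of `E` and `F` on tensor powers
-/

set_option autoImplicit false

namespace Pool.Agent.Q191.FT

open Matrix Finset
open scoped Kronecker
open Pool.Agent.H550R3.Jones (WM IsMod IsInt Gen br brf tens irr nb R Rh Rhi crossP crossN)
open Pool.Agent.H897R.J (HasWt gen_br gen_v br_neg br_zero wt_F)
open Pool.Agent.H667J (gb qf qn)

variable {ι κ : Type} [Fintype ι] [DecidableEq ι] [Fintype κ] [DecidableEq κ]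

theorem gb_brf {u : ℂ} (hu : Gen u) (j k : ℕ) :
    gb (u ^ 2) (j + k) k * (brf (u ^ 2) j * brf (u ^ 2) k) =
      (u ^ 2) ^ (j * k) * brf (u ^ 2) (j + k) := by
  have hx := Pool.Agent.H345J.sub_inv_ne hu
  have h := Pool.Agent.H667J.gb_qf (gen_v hu) _ j k rfl
  rw [Pool.Agent.H667J.brf_eq hx, Pool.Agent.H667J.brf_eq hx, Pool.Agent.H667J.brf_eq hx, pow_add]
  linear_combination ((u ^ 2 - (u ^ 2)⁻¹) ^ j * (u ^ 2 - (u ^ 2)⁻¹) ^ k) * h

theorem norm_gb {u : ℂ} (hu : Gen u) (j k : ℕ) :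
    ‖gb (u ^ 2) (j + k) k‖ * ‖brf (u ^ 2) j‖ * ‖brf (u ^ 2) k‖ =
      ‖(u ^ 2) ^ (j * k)‖ * ‖brf (u ^ 2) (j + k)‖ := by
  have h := congrArg norm (gb_brf hu j k)
  rw [norm_mul, norm_mul, norm_mul] at h
  linarith

/-- `2^(n/4)` -/
noncomputable def ga (n : ℤ) : ℝ := Real.exp (n * (Real.log 2 / 4))

theorem ga_pos (n : ℤ) : 0 < ga n := Real.exp_pos _

theorem ga_add (a b : ℤ) : ga (a + b) = ga a * ga b := by
  unfold ga
  rw [← Real.exp_add]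
  congr 1
  push_cast; ring

theorem ga_zero : ga 0 = 1 := by simp [ga]

theorem ga_le {a b : ℤ} (h : a ≤ b + 1) : ga a ≤ 2 * ga b := by
  have h2 : (2 : ℝ) = Real.exp (Real.log 2) := (Real.exp_log (by norm_num)).symm
  unfold ga
  conv_rhs => rw [h2]
  rw [← Real.exp_add, Real.exp_le_exp, Real.exp_log (by norm_num)]
  have hl : 0 < Real.log 2 := Real.log_pos (by norm_num)
  have h' : (a : ℝ) ≤ b + 1 := by exact_mod_cast h
  nlinarith

/-- bound of the entries of the divided powers of `E` and `F` -/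
def DB (v : ℂ) (M : WM ι) (B : ℝ) (φ ψ : ι → ι → ℝ) : Prop :=
  ∀ (n : ℕ) (i j : ι), ‖(M.E ^ n) i j‖ ≤ B * φ i j * ‖brf v n‖ ∧
    ‖(M.F ^ n) i j‖ ≤ B * ψ i j * ‖brf v n‖

/-- bounds for columns of positive weight -/
def DBp (v : ℂ) (M : WM ι) (B : ℝ) : Prop :=
  DB v M B (fun _ j => ga (-M.wt j)) (fun i _ => ga (-M.wt i))

/-- bounds for columns of negative weight -/
def DBn (v : ℂ) (M : WM ι) (B : ℝ) : Prop :=
  DB v M B (fun i _ => ga (M.wt i)) (fun _ j => ga (M.wt j))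

theorem DBn_dual {v : ℂ} {M : WM ι} {B : ℝ} (h : DBn v M B) : DBp v (dual M) B := by
  intro n i j
  have h1 := h n i j
  change ‖(M.F ^ n) i j‖ ≤ B * ga (- -M.wt j) * ‖brf v n‖ ∧
    ‖(M.E ^ n) i j‖ ≤ B * ga (- -M.wt i) * ‖brf v n‖
  rw [neg_neg, neg_neg]
  exact ⟨h1.2, h1.1⟩

theorem DB_triv (v : ℂ) : DB v triv 1 (fun _ _ => 1) (fun _ _ => 1) := by
  intro n i j
  rcases Nat.eq_zero_or_pos n with h | h
  · subst h
    have h1 : ‖(1 : Matrix Unit Unit ℂ) i j‖ ≤ 1 := by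
      rw [one_apply]
      split_ifs <;> simp
    rw [pow_zero, pow_zero]
    have h2 : brf v 0 = 1 := by simp [brf]
    rw [h2, norm_one, mul_one, mul_one]
    exact ⟨h1, h1⟩
  · have h1 : triv.E ^ n = 0 := zero_pow h.ne'
    have h2 : triv.F ^ n = 0 := zero_pow h.ne'
    rw [h1, h2]
    simp

theorem brf_add (v : ℂ) (a n : ℕ) :
    brf v (a + n) = brf v a * ∏ t ∈ range n, br v (((a + t : ℕ) : ℤ) + 1) := by
  unfold brf
  rw [prod_range_add]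

/-- the entries of the powers of `E` and `F` on the irreducible module -/
theorem irr_E_norm {u : ℂ} (hu : Gen u) {N n : ℕ} {i j : Fin N} {x : ℝ} (hx : 0 ≤ x)
    (h : (j : ℕ) = i + n → ‖brf (u ^ 2) (N - 1 - i)‖ ≤
      x * (‖brf (u ^ 2) (N - 1 - j)‖ * ‖brf (u ^ 2) n‖)) :
    ‖((irr (u ^ 2) N).E ^ n) i j‖ ≤ x * ‖brf (u ^ 2) n‖ := by
  have hne := Pool.Agent.H559R3.J.brf_ne hu
  rw [Pool.Agent.H559R3.J.E_pow]
  split_ifs with hj
  · have h1 := h hj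
    have hjN := j.2
    have e : N - 1 - (i : ℕ) = N - 1 - j + n := by omega
    rw [e, brf_add, norm_mul] at h1
    have h2 : ∏ t ∈ range n, br (u ^ 2) ((N : ℤ) - (j : ℕ) + t) =
        ∏ t ∈ range n, br (u ^ 2) (((N - 1 - (j : ℕ) + t : ℕ) : ℤ) + 1) := by
      refine prod_congr rfl fun t _ => ?_
      congr 1
      omega
    rw [h2]
    have h3 := norm_pos_iff.2 (hne (N - 1 - j))
    have h4 : ‖brf (u ^ 2) (N - 1 - ↑j)‖ * ‖∏ t ∈ range n, br (u ^ 2) (((N - 1 - (j : ℕ) + t : ℕ) : ℤ) + 1)‖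
        ≤ ‖brf (u ^ 2) (N - 1 - ↑j)‖ * (x * ‖brf (u ^ 2) n‖) := by linarith
    exact le_of_mul_le_mul_left h4 h3
  · rw [norm_zero]; positivity

theorem irr_F_norm {u : ℂ} (hu : Gen u) {N n : ℕ} {i j : Fin N} {x : ℝ} (hx : 0 ≤ x)
    (h : (i : ℕ) = j + n → ‖brf (u ^ 2) i‖ ≤ x * (‖brf (u ^ 2) j‖ * ‖brf (u ^ 2) n‖)) :
    ‖((irr (u ^ 2) N).F ^ n) i j‖ ≤ x * ‖brf (u ^ 2) n‖ := by
  have hne := Pool.Agent.H559R3.J.brf_ne hu
  rw [Pool.Agent.H559R3.J.F_pow hu]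
  split_ifs with hj
  · have h1 := h hj
    rw [norm_div, div_le_iff₀ (norm_pos_iff.2 (hne _))]
    linarith
  · rw [norm_zero]; positivity

/-- the two bounds of the `q`-binomial coefficients -/
structure QB (v : ℂ) (N : ℕ) (B : ℝ) : Prop where
  B0 : 0 ≤ B
  h1 : ∀ a n : ℕ, a + n < N → ‖brf v (a + n)‖ ≤ B * ga ((N : ℤ) - 2 * a) * (‖brf v a‖ * ‖brf v n‖)
  h2 : ∀ a n : ℕ, a + n < N →
    ‖brf v (a + n)‖ ≤ B * ga (2 * ((a + n : ℕ) : ℤ) - N) * (‖brf v a‖ * ‖brf v n‖)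

theorem QB.trans {a b x y B : ℝ} (hB : 0 ≤ B) (hxy : x ≤ 2 * y) (hb : 0 ≤ b) (h : a ≤ B * x * b) :
    a ≤ (B * 2) * y * b := by
  refine h.trans ?_
  have : B * x * b ≤ B * (2 * y) * b := by gcongr
  linarith

theorem DBp_irr {u : ℂ} (hu : Gen u) {N : ℕ} {B : ℝ} (hB : QB (u ^ 2) N B) :
    DBp (u ^ 2) (irr (u ^ 2) N) (B * 2) := by
  have hB0 := hB.B0
  intro n i j
  have hi := i.2
  have hj := j.2
  constructor
  · refine irr_E_norm hu (by have := (ga_pos (-(irr (u ^ 2) N).wt j)).le; positivity) fun h => ?_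
    have h1 := hB.h1 (N - 1 - j) n (by omega)
    have e : N - 1 - (i : ℕ) = N - 1 - j + n := by omega
    rw [← e] at h1
    refine QB.trans hB0 (ga_le ?_) (by positivity) h1
    change _ ≤ -((N : ℤ) - 1 - 2 * (j : ℕ)) + 1
    omega
  · refine irr_F_norm hu (by have := (ga_pos (-(irr (u ^ 2) N).wt i)).le; positivity) fun h => ?_
    have h1 := hB.h2 j n (by omega)
    rw [← h] at h1
    refine QB.trans hB0 (ga_le ?_) (by positivity) h1
    change _ ≤ -((N : ℤ) - 1 - 2 * (i : ℕ)) + 1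
    omega

theorem DBn_irr {u : ℂ} (hu : Gen u) {N : ℕ} {B : ℝ} (hB : QB (u ^ 2) N B) :
    DBn (u ^ 2) (irr (u ^ 2) N) (B * 2) := by
  have hB0 := hB.B0
  intro n i j
  have hi := i.2
  have hj := j.2
  constructor
  · refine irr_E_norm hu (by have := (ga_pos ((irr (u ^ 2) N).wt i)).le; positivity) fun h => ?_
    have h1 := hB.h2 (N - 1 - j) n (by omega)
    have e : N - 1 - (i : ℕ) = N - 1 - j + n := by omega
    rw [← e] at h1
    refine QB.trans hB0 (ga_le ?_) (by positivity) h1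
    change _ ≤ ((N : ℤ) - 1 - 2 * (i : ℕ)) + 1
    omega
  · refine irr_F_norm hu (by have := (ga_pos ((irr (u ^ 2) N).wt j)).le; positivity) fun h => ?_
    have h1 := hB.h1 j n (by omega)
    rw [← h] at h1
    refine QB.trans hB0 (ga_le ?_) (by positivity) h1
    change _ ≤ ((N : ℤ) - 1 - 2 * (j : ℕ)) + 1
    omega

theorem single_bound {n : ℕ} {f : ℕ → ℂ} {C : ℝ} (hC : 0 ≤ C)
    (h1 : ∀ k ∈ range (n + 1), ∀ k' ∈ range (n + 1), f k ≠ 0 → f k' ≠ 0 → k = k')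
    (h2 : ∀ k ∈ range (n + 1), f k ≠ 0 → ‖f k‖ ≤ C) : ‖∑ k ∈ range (n + 1), f k‖ ≤ C := by
  by_cases h : ∃ k ∈ range (n + 1), f k ≠ 0
  · obtain ⟨k, hk, hk0⟩ := h
    rw [sum_eq_single_of_mem k hk]
    · exact h2 k hk hk0
    · intro k' hk' hne
      by_contra h0
      exact hne (h1 k' hk' k hk h0 hk0)
  · push Not at h
    rw [sum_eq_zero h, norm_zero]
    exact hC

theorem DB_tens {u : ℂ} (hu : Gen u) {M : WM ι} {V : WM κ} (hM : IsMod (u ^ 2) M)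
    (hV : IsMod (u ^ 2) V) {A A' : ℤ} (hA : ∀ i, |M.wt i| ≤ A) (hA' : ∀ j, |V.wt j| ≤ A')
    {B B' β : ℝ} {φ ψ : ι → ι → ℝ} {φ' ψ' : κ → κ → ℝ} (hφ : ∀ i j, 0 ≤ φ i j)
    (hψ : ∀ i j, 0 ≤ ψ i j) (hφ' : ∀ i j, 0 ≤ φ' i j) (hψ' : ∀ i j, 0 ≤ ψ' i j)
    (hB0 : 0 ≤ B) (hB0' : 0 ≤ B') (hB : DB (u ^ 2) M B φ ψ) (hB' : DB (u ^ 2) V B' φ' ψ')
    (hβ : ∀ e : ℤ, |e| ≤ 2 * A * A' → ‖(u ^ 2) ^ e‖ ≤ β) :
    DB (u ^ 2) (tens (u ^ 2) M V) (B * B' * β) (fun p q => φ p.1 q.1 * φ' p.2 q.2)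
      (fun p q => ψ p.1 q.1 * ψ' p.2 q.2) := by
  have hv := gen_v hu
  rintro n ⟨i', j'⟩ ⟨i, j⟩
  have hA0 : 0 ≤ A := (abs_nonneg _).trans (hA i)
  have hA0' : 0 ≤ A' := (abs_nonneg _).trans (hA' j)
  have hβ0 : 0 ≤ β := (norm_nonneg _).trans (hβ 0 (by rw [abs_zero]; positivity))
  have p1 := hφ i' i
  have p2 := hψ i' i
  have p3 := hφ' j' j
  have p4 := hψ' j' j
  have hwM : ∀ (m : ℕ) (a b : ι), (M.E ^ m) a b ≠ 0 → M.wt a = M.wt b + 2 * m :=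
    fun m a b h => (Pool.Agent.H22R3.J.E_pow_wt hM m a b h).trans (by ring)
  have hwV : ∀ (m : ℕ) (a b : κ), (V.E ^ m) a b ≠ 0 → V.wt a = V.wt b + 2 * m :=
    fun m a b h => (Pool.Agent.H22R3.J.E_pow_wt hV m a b h).trans (by ring)
  have hfM : ∀ (m : ℕ) (a b : ι), (M.F ^ m) a b ≠ 0 → M.wt b = M.wt a + 2 * m := by
    intro m a b h
    have h3 := Pool.Agent.H22R3.J.E_pow_wt (dual_mod hM) m a b h
    change -M.wt a = -M.wt b + 2 * m at h3
    omega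
  have hfV : ∀ (m : ℕ) (a b : κ), (V.F ^ m) a b ≠ 0 → V.wt b = V.wt a + 2 * m := by
    intro m a b h
    have h3 := Pool.Agent.H22R3.J.E_pow_wt (dual_mod hV) m a b h
    change -V.wt a = -V.wt b + 2 * m at h3
    omega
  have hi := abs_le.1 (hA i)
  have hi' := abs_le.1 (hA i')
  have hj := abs_le.1 (hA' j)
  have hj' := abs_le.1 (hA' j')
  constructor
  · have hC : 0 ≤ B * B' * β * (φ i' i * φ' j' j) * ‖brf (u ^ 2) n‖ := by positivity
    rw [Pool.Agent.H667J.tens_E_eq, Pool.Agent.H667J.tE_pow hv _ (fun a b h => hV.hE a b h)]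
    refine single_bound hC ?_ ?_
    · intro k hk k' hk' h h'
      rw [mem_range] at hk hk'
      have e1 := hwM _ _ _ (left_ne_zero_of_mul (right_ne_zero_of_mul h))
      have e2 := hwM _ _ _ (left_ne_zero_of_mul (right_ne_zero_of_mul h'))
      omega
    · intro k hk h
      rw [mem_range] at hk
      have e1 := hwM _ _ _ (left_ne_zero_of_mul (right_ne_zero_of_mul h))
      have e2 := hwV _ _ _ (left_ne_zero_of_mul (right_ne_zero_of_mul (right_ne_zero_of_mul h)))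
      have b1 : ((n - k : ℕ) : ℤ) ≤ A := by omega
      have b2 : (k : ℤ) ≤ A' := by omega
      have hg := norm_gb hu (n - k) k
      rw [Nat.sub_add_cancel (by omega)] at hg
      rw [norm_mul, norm_mul, norm_mul]
      have c1 := (hB (n - k) i' i).1
      have c2 := (hB' k j' j).1
      have c3 : ‖(u ^ 2) ^ ((n - k) * k)‖ * ‖(u ^ 2) ^ (((n - k : ℕ) : ℤ) * V.wt j)‖ ≤ β := by
        rw [← norm_mul, ← zpow_natCast, ← zpow_add₀ hv]
        refine hβ _ ?_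
        rw [abs_le]
        push_cast
        have k0 : (0 : ℤ) ≤ k := by positivity
        have n0 : (0 : ℤ) ≤ ((n - k : ℕ) : ℤ) := by positivity
        constructor
        · nlinarith [mul_nonneg n0 k0, mul_nonneg n0 (by linarith [hj.1] : 0 ≤ V.wt j + A'),
            mul_nonneg (by linarith : 0 ≤ A - ((n - k : ℕ) : ℤ)) hA0']
        · nlinarith [mul_nonneg n0 (by linarith [hj.2] : 0 ≤ A' - V.wt j),
            mul_nonneg n0 (by linarith : 0 ≤ A' - (k : ℤ)),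
            mul_nonneg (by linarith : 0 ≤ A - ((n - k : ℕ) : ℤ)) hA0']
      calc ‖gb (u ^ 2) n k‖ * (‖(M.E ^ (n - k)) i' i‖ * (‖(V.E ^ k) j' j‖ *
            ‖(u ^ 2) ^ (((n - k : ℕ) : ℤ) * V.wt j)‖))
          ≤ ‖gb (u ^ 2) n k‖ * ((B * φ i' i * ‖brf (u ^ 2) (n - k)‖) *
            ((B' * φ' j' j * ‖brf (u ^ 2) k‖) *
            ‖(u ^ 2) ^ (((n - k : ℕ) : ℤ) * V.wt j)‖)) := by gcongr
        _ = B * B' * (φ i' i * φ' j' j) *
            (‖gb (u ^ 2) n k‖ * ‖brf (u ^ 2) (n - k)‖ * ‖brf (u ^ 2) k‖) *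
            ‖(u ^ 2) ^ (((n - k : ℕ) : ℤ) * V.wt j)‖ := by ring
        _ = B * B' * (‖(u ^ 2) ^ ((n - k) * k)‖ * ‖(u ^ 2) ^ (((n - k : ℕ) : ℤ) * V.wt j)‖) *
            (φ i' i * φ' j' j) * ‖brf (u ^ 2) n‖ := by rw [hg]; ring
        _ ≤ B * B' * β * (φ i' i * φ' j' j) * ‖brf (u ^ 2) n‖ := by gcongr
  · have hC : 0 ≤ B * B' * β * (ψ i' i * ψ' j' j) * ‖brf (u ^ 2) n‖ := by positivity
    rw [Pool.Agent.H667J.tens_F_eq, Pool.Agent.H667J.tF_pow hv _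
      (Pool.Agent.H667J.shift_of_hF hM)]
    refine single_bound hC ?_ ?_
    · intro k hk k' hk' h h'
      rw [mem_range] at hk hk'
      have e1 := hfM _ _ _ (left_ne_zero_of_mul (left_ne_zero_of_mul (right_ne_zero_of_mul h)))
      have e2 := hfM _ _ _ (left_ne_zero_of_mul (left_ne_zero_of_mul (right_ne_zero_of_mul h')))
      omega
    · intro k hk h
      rw [mem_range] at hk
      have e1 := hfM _ _ _ (left_ne_zero_of_mul (left_ne_zero_of_mul (right_ne_zero_of_mul h)))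
      have e2 := hfV _ _ _ (right_ne_zero_of_mul (right_ne_zero_of_mul h))
      have b1 : ((n - k : ℕ) : ℤ) ≤ A' := by omega
      have b2 : (k : ℤ) ≤ A := by omega
      have hg := norm_gb hu (n - k) k
      rw [Nat.sub_add_cancel (by omega)] at hg
      rw [norm_mul, norm_mul, norm_mul]
      have c1 := (hB k i' i).2
      have c2 := (hB' (n - k) j' j).2
      have c3 : ‖(u ^ 2) ^ ((n - k) * k)‖ * ‖(u ^ 2) ^ (-(((n - k : ℕ) : ℤ) * M.wt i))‖ ≤ β := by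
        rw [← norm_mul, ← zpow_natCast, ← zpow_add₀ hv]
        refine hβ _ ?_
        rw [abs_le]
        push_cast
        have k0 : (0 : ℤ) ≤ k := by positivity
        have n0 : (0 : ℤ) ≤ ((n - k : ℕ) : ℤ) := by positivity
        constructor
        · nlinarith [mul_nonneg n0 k0, mul_nonneg n0 (by linarith [hi.2] : 0 ≤ A - M.wt i),
            mul_nonneg (by linarith : 0 ≤ A' - ((n - k : ℕ) : ℤ)) hA0]
        · nlinarith [mul_nonneg n0 (by linarith [hi.1] : 0 ≤ A + M.wt i),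
            mul_nonneg n0 (by linarith : 0 ≤ A - (k : ℤ)),
            mul_nonneg (by linarith : 0 ≤ A' - ((n - k : ℕ) : ℤ)) hA0]
      calc ‖gb (u ^ 2) n k‖ * (‖(M.F ^ k) i' i‖ * ‖(u ^ 2) ^ (-(((n - k : ℕ) : ℤ) * M.wt i))‖ *
            ‖(V.F ^ (n - k)) j' j‖)
          ≤ ‖gb (u ^ 2) n k‖ * ((B * ψ i' i * ‖brf (u ^ 2) k‖) *
            ‖(u ^ 2) ^ (-(((n - k : ℕ) : ℤ) * M.wt i))‖ *
            (B' * ψ' j' j * ‖brf (u ^ 2) (n - k)‖)) := by gcongr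
        _ = B * B' * (ψ i' i * ψ' j' j) *
            (‖gb (u ^ 2) n k‖ * ‖brf (u ^ 2) (n - k)‖ * ‖brf (u ^ 2) k‖) *
            ‖(u ^ 2) ^ (-(((n - k : ℕ) : ℤ) * M.wt i))‖ := by ring
        _ = B * B' * (‖(u ^ 2) ^ ((n - k) * k)‖ * ‖(u ^ 2) ^ (-(((n - k : ℕ) : ℤ) * M.wt i))‖) *
            (ψ i' i * ψ' j' j) * ‖brf (u ^ 2) n‖ := by rw [hg]; ring
        _ ≤ B * B' * β * (ψ i' i * ψ' j' j) * ‖brf (u ^ 2) n‖ := by gcongr

theorem irr_wt (v : ℂ) (N : ℕ) (j : Fin N) : |(irr v N).wt j| ≤ N := by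
  have := j.2
  change |(N : ℤ) - 1 - 2 * (j : ℕ)| ≤ N
  rw [abs_le]
  constructor <;> omega

theorem DBp_tens {u : ℂ} (hu : Gen u) {M : WM ι} {V : WM κ} (hM : IsMod (u ^ 2) M)
    (hV : IsMod (u ^ 2) V) {A A' : ℤ} (hA : ∀ i, |M.wt i| ≤ A) (hA' : ∀ j, |V.wt j| ≤ A')
    {B B' β : ℝ} (hB0 : 0 ≤ B) (hB0' : 0 ≤ B') (hB : DBp (u ^ 2) M B) (hB' : DBp (u ^ 2) V B')
    (hβ : ∀ e : ℤ, |e| ≤ 2 * A * A' → ‖(u ^ 2) ^ e‖ ≤ β) :
    DBp (u ^ 2) (tens (u ^ 2) M V) (B * B' * β) := by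
  have h := DB_tens hu hM hV hA hA' (fun _ j => (ga_pos _).le) (fun i _ => (ga_pos _).le)
    (fun _ j => (ga_pos _).le) (fun i _ => (ga_pos _).le) hB0 hB0' hB hB' hβ
  intro n i j
  have h1 := h n i j
  have e1 : ∀ p : ι × κ, ga (-(tens (u ^ 2) M V).wt p) = ga (-M.wt p.1) * ga (-V.wt p.2) := by
    intro p
    rw [← ga_add]
    congr 1
    change -(M.wt p.1 + V.wt p.2) = _
    ring
  simp only [e1]
  exact h1

theorem DBn_tens {u : ℂ} (hu : Gen u) {M : WM ι} {V : WM κ} (hM : IsMod (u ^ 2) M)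
    (hV : IsMod (u ^ 2) V) {A A' : ℤ} (hA : ∀ i, |M.wt i| ≤ A) (hA' : ∀ j, |V.wt j| ≤ A')
    {B B' β : ℝ} (hB0 : 0 ≤ B) (hB0' : 0 ≤ B') (hB : DBn (u ^ 2) M B) (hB' : DBn (u ^ 2) V B')
    (hβ : ∀ e : ℤ, |e| ≤ 2 * A * A' → ‖(u ^ 2) ^ e‖ ≤ β) :
    DBn (u ^ 2) (tens (u ^ 2) M V) (B * B' * β) := by
  have h := DB_tens hu hM hV hA hA' (fun i _ => (ga_pos _).le) (fun _ j => (ga_pos _).le)
    (fun i _ => (ga_pos _).le) (fun _ j => (ga_pos _).le) hB0 hB0' hB hB' hβ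
  intro n i j
  have h1 := h n i j
  have e1 : ∀ p : ι × κ, ga ((tens (u ^ 2) M V).wt p) = ga (M.wt p.1) * ga (V.wt p.2) := by
    intro p
    rw [← ga_add]
    rfl
  simp only [e1]
  exact h1

/-- the divided powers on the tensor powers -/
theorem DB_MM {u : ℂ} (hu : Gen u) {N : ℕ} {B β : ℝ} (hB : QB (u ^ 2) N B) {K : ℕ}
    (hβ : ∀ e : ℤ, |e| ≤ 2 * (K * N) * N → ‖(u ^ 2) ^ e‖ ≤ β) :
    ∀ k, k ≤ K → DBp (u ^ 2) (MM (u ^ 2) N k) ((B * 2 * β) ^ k) ∧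
      DBn (u ^ 2) (MM (u ^ 2) N k) ((B * 2 * β) ^ k)
  | 0, _ => by
    have h := DB_triv (u ^ 2)
    constructor
    · intro n i j
      have h1 := h n i j
      have e1 : ∀ i : Tp N 0, ga (-(MM (u ^ 2) N 0).wt i) = 1 := fun i => by
        change ga (-0) = 1
        rw [neg_zero, ga_zero]
      simp only [e1]
      rw [pow_zero]
      exact h1
    · intro n i j
      have h1 := h n i j
      have e1 : ∀ i : Tp N 0, ga ((MM (u ^ 2) N 0).wt i) = 1 := fun i => by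
        change ga 0 = 1
        rw [ga_zero]
      simp only [e1]
      rw [pow_zero]
      exact h1
  | k + 1, hk => by
    have hv := gen_v hu
    have hB0 := hB.B0
    have ih := DB_MM hu hB hβ k (by omega)
    have hβ0 : 0 ≤ β := (norm_nonneg _).trans (hβ 0 (by rw [abs_zero]; positivity))
    have hβ' : ∀ e : ℤ, |e| ≤ 2 * (k * N) * N → ‖(u ^ 2) ^ e‖ ≤ β := by
      intro e he
      refine hβ e (he.trans ?_)
      have h1 : (k : ℤ) * N ≤ K * N := by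
        have : (k : ℤ) ≤ K := by omega
        gcongr
      gcongr
    have e : (B * 2 * β) ^ (k + 1) = (B * 2 * β) ^ k * (B * 2) * β := by rw [pow_succ]; ring
    rw [e]
    exact ⟨DBp_tens hu (MM_mod hv N k) (Pool.Agent.H345J.irr_mod hv N)
        (fun i => (MM_wt (u ^ 2) N k i).1) (irr_wt _ N) (by positivity) (by positivity) ih.1
        (DBp_irr hu hB) hβ',
      DBn_tens hu (MM_mod hv N k) (Pool.Agent.H345J.irr_mod hv N)
        (fun i => (MM_wt (u ^ 2) N k i).1) (irr_wt _ N) (by positivity) (by positivity) ih.2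
        (DBn_irr hu hB) hβ'⟩

end Pool.Agent.Q191.FT
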