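import Pool.Agent.Q191.FT.Qid

/-!
# The double braiding on highest weight vectors
-/

set_option autoImplicit false

namespace Pool.Agent.Q191.FT

open Matrix Finset
open scoped Kronecker
open Pool.Agent.H550R3.Jones (WM IsMod IsInt Gen br brf tens irr nb R Rh Rhi)
open Pool.Agent.H897R.J (HasWt gen_br gen_v br_neg br_zero wt_F)

variable {ι κ : Type} [Fintype ι] [DecidableEq ι] [Fintype κ] [DecidableEq κ]

omit [DecidableEq κ] in
theorem one_kron_vec (X : Matrix κ κ ℂ) (y : ι × κ → ℂ) (i : ι) (k : κ) :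
    (((1 : Matrix ι ι ℂ) ⊗ₖ X) *ᵥ y) (i, k) = (X *ᵥ fun k' => y (i, k')) k := by
  rw [mulVec, dotProduct, mulVec, dotProduct, Fintype.sum_prod_type, sum_eq_single i]
  · refine sum_congr rfl fun k' _ => ?_
    rw [kroneckerMap_apply, one_apply_eq, one_mul]
  · intro i' _ hi
    refine sum_eq_zero fun k' _ => ?_
    rw [kroneckerMap_apply, one_apply_ne hi.symm, zero_mul, zero_mul]
  · intro h; exact absurd (mem_univ i) h

omit [DecidableEq ι] in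
theorem kron_one_vec (X : Matrix ι ι ℂ) (y : ι × κ → ℂ) (i : ι) (k : κ) :
    ((X ⊗ₖ (1 : Matrix κ κ ℂ)) *ᵥ y) (i, k) = (X *ᵥ fun i' => y (i', k)) i := by
  rw [mulVec, dotProduct, mulVec, dotProduct, Fintype.sum_prod_type]
  refine sum_congr rfl fun i' _ => ?_
  rw [sum_eq_single k]
  · rw [kroneckerMap_apply, one_apply_eq, mul_one]
  · intro k' _ hk
    rw [kroneckerMap_apply, one_apply_ne hk.symm, mul_zero, zero_mul]
  · intro h; exact absurd (mem_univ k) h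

theorem kronE {v : ℂ} (hv : v ≠ 0) {M : WM ι} {N : WM κ} {y : ι × κ → ℂ}
    (h0 : (tens v M N).E *ᵥ y = 0) : (M.E ⊗ₖ (1 : Matrix κ κ ℂ)) *ᵥ y =
      - (((1 : Matrix ι ι ℂ) ⊗ₖ KiE v N) *ᵥ y) := by
  have h1 : ((1 : Matrix ι ι ℂ) ⊗ₖ N.K v (-1)) * (tens v M N).E =
      (M.E ⊗ₖ (1 : Matrix κ κ ℂ)) + (1 : Matrix ι ι ℂ) ⊗ₖ KiE v N := by
    change ((1 : Matrix ι ι ℂ) ⊗ₖ N.K v (-1)) * (M.E ⊗ₖ N.K v 1 + (1 : Matrix ι ι ℂ) ⊗ₖ N.E) = _
    rw [mul_add, ← mul_kronecker_mul, ← mul_kronecker_mul, one_mul, one_mul]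
    congr 2
    unfold WM.K
    rw [diagonal_mul_diagonal, ← diagonal_one]
    congr 1
    funext i
    rw [← zpow_add₀ hv]
    simp
  have h2 : (((1 : Matrix ι ι ℂ) ⊗ₖ N.K v (-1)) * (tens v M N).E) *ᵥ y = 0 := by
    rw [← mulVec_mulVec, h0, mulVec_zero]
  rw [h1, add_mulVec] at h2
  exact eq_neg_of_add_eq_zero_left h2

theorem kronEF {v : ℂ} (hv : v ≠ 0) {M : WM ι} {N : WM κ} {y : ι × κ → ℂ}
    (h0 : (tens v M N).E *ᵥ y = 0) (n : ℕ) : ((M.E ^ n) ⊗ₖ (N.F ^ n)) *ᵥ y =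
      (-1 : ℂ) ^ n • (((1 : Matrix ι ι ℂ) ⊗ₖ (N.F ^ n * KiE v N ^ n)) *ᵥ y) := by
  have h1 : ((M.E ^ n) ⊗ₖ (1 : Matrix κ κ ℂ)) *ᵥ y =
      (-1 : ℂ) ^ n • (((1 : Matrix ι ι ℂ) ⊗ₖ (KiE v N ^ n)) *ᵥ y) := by
    induction n with
    | zero => simp
    | succ n ih =>
      have e1 : ((M.E ^ (n + 1)) ⊗ₖ (1 : Matrix κ κ ℂ)) =
          (M.E ⊗ₖ (1 : Matrix κ κ ℂ)) * ((M.E ^ n) ⊗ₖ (1 : Matrix κ κ ℂ)) := by
        rw [← mul_kronecker_mul, one_mul, pow_succ']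
      have e2 : (M.E ⊗ₖ (1 : Matrix κ κ ℂ)) * ((1 : Matrix ι ι ℂ) ⊗ₖ (KiE v N ^ n)) =
          ((1 : Matrix ι ι ℂ) ⊗ₖ (KiE v N ^ n)) * (M.E ⊗ₖ (1 : Matrix κ κ ℂ)) := by
        rw [← mul_kronecker_mul, ← mul_kronecker_mul, one_mul, one_mul, mul_one, mul_one]
      rw [e1, ← mulVec_mulVec, ih, mulVec_smul, mulVec_mulVec, e2, ← mulVec_mulVec, kronE hv h0,
        mulVec_neg, mulVec_mulVec, ← mul_kronecker_mul, one_mul, ← pow_succ, pow_succ (-1 : ℂ),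
        mul_neg_one, neg_smul, smul_neg]
  have e3 : ((M.E ^ n) ⊗ₖ (N.F ^ n)) =
      ((1 : Matrix ι ι ℂ) ⊗ₖ (N.F ^ n)) * ((M.E ^ n) ⊗ₖ (1 : Matrix κ κ ℂ)) := by
    rw [← mul_kronecker_mul, one_mul, mul_one]
  rw [e3, ← mulVec_mulVec, h1, mulVec_smul, mulVec_mulVec, ← mul_kronecker_mul, one_mul]

/-- a nonzero Casimir eigenvector has a weight in the expected range -/
theorem wt_range {u : ℂ} (hu : Gen u) {M : WM ι} (hM : IsMod (u ^ 2) M) {μ : ℤ} {x : ι → ℂ}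
    (hx : HasWt M μ x) (hx0 : x ≠ 0) {b : ℤ} (hb : 0 ≤ b) (hp : (2 : ℤ) ∣ b - (μ + 1))
    (ha : Cas (u ^ 2) M *ᵥ x = lam (u ^ 2) b • x) :
    ∃ k : ℕ, b - (μ + 1) = 2 * k := by
  by_contra hcon
  apply hx0
  refine eig_zero (gen_v hu) hM hx ha fun j => ?_
  obtain ⟨c, hc⟩ := hp
  have hc0 : c < 0 := by
    by_contra h
    exact hcon ⟨c.toNat, by omega⟩
  exact lam_ne hu (by omega) (by omega) ⟨c - j, by omega⟩

/-- the action of the R-matrix on a highest weight vector -/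
theorem R_hw {u : ℂ} (hu : Gen u) {M : WM ι} {N : WM κ} (hM : IsMod (u ^ 2) M)
    (hN : IsMod (u ^ 2) N) {y : ι × κ → ℂ} {c : ℤ} (hw : HasWt (tens (u ^ 2) M N) (c - 1) y)
    (h0 : (tens (u ^ 2) M N).E *ᵥ y = 0) {b : ℤ} (hb : 0 ≤ b)
    (hp : ∀ k, (2 : ℤ) ∣ b - (N.wt k + 1))
    (hC : ((1 : Matrix ι ι ℂ) ⊗ₖ Cas (u ^ 2) N) *ᵥ y = lam (u ^ 2) b • y) (i : ι) (k : κ) :
    (R u M N *ᵥ y) (i, k) = u ^ (M.wt i * N.wt k + (N.wt k + 1) ^ 2 - b ^ 2) * y (i, k) := by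
  have hv := gen_v hu
  -- the slice
  set x : κ → ℂ := fun k' => y (i, k') with hx
  have hxw : HasWt N (c - 1 - M.wt i) x := by
    intro k' hk'
    have h1 : M.wt i + N.wt k' = c - 1 := hw (i, k') hk'
    omega
  have hxC : Cas (u ^ 2) N *ᵥ x = lam (u ^ 2) b • x := by
    funext k'
    have h := congrFun hC (i, k')
    rw [one_kron_vec] at h
    exact h
  by_cases hx0 : x = 0
  · -- the slice is zero
    have hy : y (i, k) = 0 := congrFun hx0 k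
    rw [hy, mul_zero]
    unfold R
    rw [← mulVec_mulVec, mulVec_diagonal]
    have : ((∑ n ∈ range (nb M), ((u ^ 2) ^ (n * (n - 1) / 2) / brf (u ^ 2) n) •
        ((M.E ^ n) ⊗ₖ (N.F ^ n))) *ᵥ y) (i, k) = 0 := by
      rw [sum_mulVec, Finset.sum_apply]
      refine sum_eq_zero fun n _ => ?_
      rw [smul_mulVec, kronEF hv h0, Pi.smul_apply, Pi.smul_apply, one_kron_vec]
      have e : (fun k' => y (i, k')) = 0 := hx0
      rw [e, mulVec_zero]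
      simp
    rw [this, mul_zero]
  obtain ⟨k', hk'⟩ : ∃ k', x k' ≠ 0 := by
    by_contra h
    push Not at h
    exact hx0 (funext h)
  obtain ⟨m, hm⟩ := wt_range hu hN hxw hx0 hb (by
    have h1 := hp k'
    rwa [hxw k' hk'] at h1) hxC
  have hR := Pool.Agent.H22R3.J.R_eq (N := N) hM (max (nb M) (m + 1)) (le_max_left _ _)
  rw [hR, ← mulVec_mulVec, mulVec_diagonal]
  have hsum : ((∑ n ∈ range (max (nb M) (m + 1)), ((u ^ 2) ^ (n * (n - 1) / 2) / brf (u ^ 2) n) •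
        ((M.E ^ n) ⊗ₖ (N.F ^ n))) *ᵥ y) (i, k) =
      ((u ^ 2) ^ (-(2 * (m : ℤ) * (b - m))) • x) k := by
    have hS := sum_FKE hu hN (k := m) (β := b - m) (x := x) (L := max (nb M) (m + 1)) (by
      have e : b - (m : ℤ) - m - 1 = c - 1 - M.wt i := by omega
      rw [e]; exact hxw) (by
      have e : b - (m : ℤ) + m = b := by ring
      rw [e]; exact hxC) (lt_of_lt_of_le (Nat.lt_succ_self m) (le_max_right _ _))
    rw [← hS, sum_mulVec, Finset.sum_apply, Finset.sum_apply]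
    refine sum_congr rfl fun n _ => ?_
    rw [smul_mulVec, kronEF hv h0, Pi.smul_apply, Pi.smul_apply, one_kron_vec, Pi.smul_apply,
      smul_eq_mul, smul_eq_mul, smul_eq_mul, mulVec_mulVec]
    ring
  rw [hsum, Pi.smul_apply, smul_eq_mul]
  by_cases hk : x k = 0
  · rw [hk]
    have : y (i, k) = 0 := hk
    rw [this]; ring
  have hwk := hxw k hk
  have e1 : (u ^ 2) ^ (-(2 * (m : ℤ) * (b - m))) = u ^ (-(4 * (m : ℤ) * (b - m))) := by
    rw [← zpow_natCast u 2, ← _root_.zpow_mul]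
    congr 1
    push_cast; ring
  rw [e1, ← mul_assoc, ← zpow_add₀ hu.1]
  congr 2
  change M.wt i * N.wt k + _ = _
  have e2 : N.wt k + 1 = b - 2 * m := by omega
  rw [e2]
  ring

/-- the double braiding acts on a highest weight vector of weight `c - 1` by a scalar -/
theorem D_hw {u : ℂ} (hu : Gen u) {M : WM ι} {N : WM κ} (hM : IsMod (u ^ 2) M)
    (hN : IsMod (u ^ 2) N) {y : ι × κ → ℂ} {c : ℤ} (hw : HasWt (tens (u ^ 2) M N) (c - 1) y)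
    (h0 : (tens (u ^ 2) M N).E *ᵥ y = 0) {a b : ℤ} (ha : 0 ≤ a) (hb : 0 ≤ b)
    (hpM : ∀ i, (2 : ℤ) ∣ a - (M.wt i + 1)) (hpN : ∀ k, (2 : ℤ) ∣ b - (N.wt k + 1))
    (hCM : (Cas (u ^ 2) M ⊗ₖ (1 : Matrix κ κ ℂ)) *ᵥ y = lam (u ^ 2) a • y)
    (hCN : ((1 : Matrix ι ι ℂ) ⊗ₖ Cas (u ^ 2) N) *ᵥ y = lam (u ^ 2) b • y) :
    (Rh u N M * Rh u M N) *ᵥ y = u ^ (c ^ 2 + 1 - a ^ 2 - b ^ 2) • y := by
  have hv := gen_v hu
  have hR := R_hw hu hM hN hw h0 hb hpN hCN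
  set y' : κ × ι → ℂ := Rh u M N *ᵥ y with hy'
  have hy'a : ∀ k i, y' (k, i) = u ^ (M.wt i * N.wt k + (N.wt k + 1) ^ 2 - b ^ 2) * y (i, k) := by
    intro k i
    rw [← hR i k]
    rfl
  have hw' : HasWt (tens (u ^ 2) N M) (c - 1) y' := by
    rintro ⟨k, i⟩ h
    rw [hy'a] at h
    have h1 : M.wt i + N.wt k = c - 1 := hw (i, k) (right_ne_zero_of_mul h)
    change N.wt k + M.wt i = c - 1
    omega
  have h0' : (tens (u ^ 2) N M).E *ᵥ y' = 0 := by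
    have hI := (Pool.Agent.H345J.taskInt u hu ι κ M N hM hN).e
    rw [hy', mulVec_mulVec, ← hI, ← mulVec_mulVec, h0, mulVec_zero]
  have hC' : ((1 : Matrix κ κ ℂ) ⊗ₖ Cas (u ^ 2) M) *ᵥ y' = lam (u ^ 2) a • y' := by
    funext p
    obtain ⟨k, i⟩ := p
    rw [one_kron_vec, Pi.smul_apply, smul_eq_mul, hy'a]
    have h1 := congrFun hCM (i, k)
    rw [kron_one_vec, Pi.smul_apply, smul_eq_mul] at h1
    have h2 : (Cas (u ^ 2) M *ᵥ fun k' => y' (k, k')) i =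
        u ^ (M.wt i * N.wt k + (N.wt k + 1) ^ 2 - b ^ 2) *
          (Cas (u ^ 2) M *ᵥ fun i' => y (i', k)) i := by
      rw [mulVec, dotProduct, mulVec, dotProduct, mul_sum]
      refine sum_congr rfl fun i' _ => ?_
      rw [hy'a]
      by_cases hc : Cas (u ^ 2) M i i' = 0
      · rw [hc]; ring
      · have hwt : M.wt i = M.wt i' := by
          unfold Cas at hc
          rw [Matrix.add_apply] at hc
          by_cases hii : i = i'
          · rw [hii]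
          rw [diagonal_apply_ne _ hii, add_zero, mul_apply] at hc
          obtain ⟨j, _, hj⟩ := exists_ne_zero_of_sum_ne_zero hc
          have g1 := hM.hF i j (left_ne_zero_of_mul hj)
          have g2 := hM.hE j i' (right_ne_zero_of_mul hj)
          omega
        rw [hwt]
        ring
    rw [h2, h1]
    ring
  have hR2 := R_hw hu hN hM hw' h0' ha hpM hC'
  rw [← mulVec_mulVec, ← hy']
  funext p
  obtain ⟨i, k⟩ := p
  have h3 : (Rh u N M *ᵥ y') (i, k) = (R u N M *ᵥ y') (k, i) := rfl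
  rw [h3, hR2, hy'a, Pi.smul_apply, smul_eq_mul, ← mul_assoc]
  by_cases hy : y (i, k) = 0
  · rw [hy]; ring
  have h4 : M.wt i + N.wt k = c - 1 := hw (i, k) hy
  congr 1
  rw [← zpow_add₀ hu.1]
  congr 1
  have h5 : c = M.wt i + N.wt k + 1 := by omega
  rw [h5]
  ring

/-- the inverse of the double braiding -/
theorem Di_hw {u : ℂ} (hu : Gen u) {M : WM ι} {N : WM κ} (hM : IsMod (u ^ 2) M)
    (hN : IsMod (u ^ 2) N) {y : ι × κ → ℂ} {c : ℤ} (hw : HasWt (tens (u ^ 2) M N) (c - 1) y)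
    (h0 : (tens (u ^ 2) M N).E *ᵥ y = 0) {a b : ℤ} (ha : 0 ≤ a) (hb : 0 ≤ b)
    (hpM : ∀ i, (2 : ℤ) ∣ a - (M.wt i + 1)) (hpN : ∀ k, (2 : ℤ) ∣ b - (N.wt k + 1))
    (hCM : (Cas (u ^ 2) M ⊗ₖ (1 : Matrix κ κ ℂ)) *ᵥ y = lam (u ^ 2) a • y)
    (hCN : ((1 : Matrix ι ι ℂ) ⊗ₖ Cas (u ^ 2) N) *ᵥ y = lam (u ^ 2) b • y) :
    (Rhi u M N * Rhi u N M) *ᵥ y = u ^ (-(c ^ 2 + 1 - a ^ 2 - b ^ 2)) • y := by
  have h := D_hw hu hM hN hw h0 ha hb hpM hpN hCM hCN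
  have h1 : (Rhi u M N * Rhi u N M) * (Rh u N M * Rh u M N) = 1 := by
    rw [Matrix.mul_assoc, ← Matrix.mul_assoc (Rhi u N M),
      (Pool.Agent.H345J.taskInv u hu κ ι N M hN hM).1, Matrix.one_mul,
      (Pool.Agent.H345J.taskInv u hu ι κ M N hM hN).1]
  have h2 : y = u ^ (c ^ 2 + 1 - a ^ 2 - b ^ 2) • ((Rhi u M N * Rhi u N M) *ᵥ y) := by
    rw [← mulVec_smul, ← h, mulVec_mulVec, h1, one_mulVec]
  nth_rewrite 2 [h2]
  rw [smul_smul, ← zpow_add₀ hu.1, neg_add_cancel, zpow_zero, one_smul]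

end Pool.Agent.Q191.FT
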