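import Pool.Agent.W709.QAT.Calc
import Pool.Agent.H811R3.EvenVolR

/-!
# An inequality for Lobachevsky's function, and the products `S N m` for `m ≤ C N`
-/

set_option autoImplicit false

namespace Pool.Agent.Q191.FT

open GapVol (lob)
open Filter
open EvenVol.LobIneq (lob_per lob_neg)
open Pool.Agent.W709.QAT (lob_pi_sub conc tet2)
open scoped Real

/-- subadditivity -/
theorem lob_sub_add {a b : ℝ} (ha : 0 ≤ a) (hb : 0 ≤ b) (hab : a + b ≤ π) :
    lob (a + b) ≤ lob a + lob b := by
  wlog h : b ≤ a with H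
  · have := H hb ha (by linarith) (by linarith)
    rw [add_comm b a] at this
    linarith
  rcases eq_or_lt_of_le hb with hb0 | hb0
  · rw [← hb0, GapVol.lob_zero, add_zero, add_zero]
  rcases eq_or_lt_of_le hab with hab' | hab'
  · rw [hab']
    have e : b = π - a := by linarith
    rw [e, lob_pi_sub]
    have := lob_pi_sub 0
    rw [sub_zero, GapVol.lob_zero] at this
    linarith
  have ha0 : 0 < a := by linarith
  have t := Pool.Agent.W120.VC.tet a b (π - (a + b)) (a + b) 0 (π - (a + b)) ha0 hb0
    (by linarith) (by ring) (by linarith) le_rfl (by linarith) (by ring)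
  rw [GapVol.lob_zero] at t
  have hpi := Real.pi_pos
  -- `sin b ≤ sin a`
  have hs : Real.sin b ≤ Real.sin a := by
    rcases le_total a (π / 2) with h2 | h2
    · exact Real.sin_le_sin_of_le_of_le_pi_div_two (by linarith) h2 h
    · rw [← Real.sin_pi_sub a]
      exact Real.sin_le_sin_of_le_of_le_pi_div_two (by linarith) (by linarith) (by linarith)
  have hsb : 0 < Real.sin b := Real.sin_pos_of_pos_of_lt_pi hb0 (by linarith)
  have hl : Real.log (2 * Real.sin b) ≤ Real.log (2 * Real.sin a) :=
    Real.log_le_log (by positivity) (by linarith)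
  have e1 : a + b - a = b := by ring
  have e2 : π - (a + b) - (π - (a + b)) = 0 := by ring
  rw [e1, e2] at t
  nlinarith

theorem lob_conc' {x y : ℝ} (hx : 0 ≤ x) (hy : 0 ≤ y) (hxy : x + y ≤ π) :
    lob x + lob y ≤ 2 * lob ((x + y) / 2) := by
  rcases eq_or_lt_of_le hxy with h | h
  · have e : y = π - x := by linarith
    rw [e, lob_pi_sub]
    have e1 : (x + (π - x)) / 2 = π / 2 := by ring
    rw [e1, GapVol.lob_half]
    linarith
  · exact conc hx hy h

/-- the basic inequality -/
theorem lobW (x y : ℝ) : lob x + lob y - lob (x + y) ≤ 3 * lob (π / 3) := by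
  have hpi := Real.pi_pos
  have hW : 0 ≤ 3 * lob (π / 3) := by
    have := EvenVol.LobIneq.lob_nonneg (x := π / 3) (by positivity) (by linarith)
    linarith
  obtain ⟨x', hx', hxx⟩ := lob_per.exists_mem_Ico₀ hpi x
  -- reduce both variables
  set m : ℤ := ⌊x / π⌋ with hm
  set n : ℤ := ⌊y / π⌋ with hn
  set a : ℝ := x - m * π with ha
  set b : ℝ := y - n * π with hb
  have ha0 : 0 ≤ a := by
    have := Int.floor_le (x / π)
    rw [le_div_iff₀ hpi] at this
    rw [ha]; linarith
  have ha1 : a < π := by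
    have := Int.lt_floor_add_one (x / π)
    rw [div_lt_iff₀ hpi] at this
    rw [ha]; linarith
  have hb0 : 0 ≤ b := by
    have := Int.floor_le (y / π)
    rw [le_div_iff₀ hpi] at this
    rw [hb]; linarith
  have hb1 : b < π := by
    have := Int.lt_floor_add_one (y / π)
    rw [div_lt_iff₀ hpi] at this
    rw [hb]; linarith
  have e1 : lob x = lob a := (lob_per.sub_int_mul_eq (x := x) m).symm
  have e2 : lob y = lob b := (lob_per.sub_int_mul_eq (x := y) n).symm
  have e3 : lob (x + y) = lob (a + b) := by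
    rw [← lob_per.sub_int_mul_eq (x := x + y) (m + n)]
    congr 1
    rw [ha, hb]; push_cast; ring
  rw [e1, e2, e3]
  rcases le_total (a + b) π with h | h
  · have h1 := lob_conc' ha0 hb0 h
    have h2 := tet2 (l := a + b) (by linarith) h
    have h3 := GapVol.lob_dup
    linarith
  · have h1 := lob_sub_add (a := π - a) (b := π - b) (by linarith) (by linarith) (by linarith)
    have e4 : lob (a + b) = -lob (π - a + (π - b)) := by
      have h2 : lob (-(a + b)) = lob (π - a + (π - b)) := by
        rw [← lob_per (-(a + b)), ← lob_per (-(a + b) + π)]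
        congr 1
        ring
      rw [lob_neg] at h2
      linarith
    rw [lob_pi_sub, lob_pi_sub] at h1
    rw [e4]
    linarith

/-- the other side, with the signs reversed -/
theorem lobW' (x y : ℝ) : lob (x + y) - lob x - lob y ≤ 3 * lob (π / 3) := by
  have h := lobW (-x) (-y)
  have e : -x + -y = -(x + y) := by ring
  rw [e, lob_neg, lob_neg, lob_neg] at h
  linarith

/-- tangent plane at the triangle with angles `π/2, π/4, π/4` -/
theorem lobA {x y z : ℝ} (hx : 0 ≤ x) (hy : 0 ≤ y) (hz : 0 ≤ z) (h : x + y + z = π) :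
    lob x + lob y + lob z ≤ 2 * lob (π / 4) - (x - π / 2) * (Real.log 2 / 2) := by
  have hpi := Real.pi_pos
  have t := Pool.Agent.W120.VC.tet (π / 2) (π / 4) (π / 4) x y z (by linarith) (by linarith)
    (by linarith) (by ring) hx hy hz h
  have e1 : Real.log (2 * Real.sin (π / 2)) = Real.log 2 := by rw [Real.sin_pi_div_two, mul_one]
  have e2 : Real.log (2 * Real.sin (π / 4)) = Real.log 2 / 2 := by
    rw [Real.sin_pi_div_four]
    have : 2 * (√2 / 2) = √2 := by ring
    rw [this, Real.log_sqrt (by norm_num)]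
  rw [e1, e2, GapVol.lob_half] at t
  have e3 : z = π - x - y := by linarith
  rw [e3] at t ⊢
  nlinarith

theorem lob_four_nonneg : 0 ≤ lob (π / 4) := by
  have hpi := Real.pi_pos
  exact EvenVol.LobIneq.lob_nonneg (by linarith) (by linarith)

theorem W_le : 3 * lob (π / 3) ≤ 4 * lob (π / 4) := by
  have hpi := Real.pi_pos
  have h1 := lobA (x := π / 3) (y := π / 3) (z := π / 3) (by linarith) (by linarith) (by linarith)
    (by ring)
  have h2 := lobA (x := π) (y := 0) (z := 0) (by linarith) le_rfl le_rfl (by ring)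
  have h3 : lob π = 0 := EvenVol.LobIneq.lob_pi
  rw [GapVol.lob_zero, h3] at h2
  have h4 := lob_four_nonneg
  nlinarith

/-- floor reduction -/
theorem red_floor (x : ℝ) : ∃ a : ℝ, a = x - ⌊x / π⌋ * π ∧ 0 ≤ a ∧ a < π := by
  have hpi := Real.pi_pos
  refine ⟨_, rfl, ?_, ?_⟩
  · have := Int.floor_le (x / π)
    rw [le_div_iff₀ hpi] at this
    linarith
  · have := Int.lt_floor_add_one (x / π)
    rw [div_lt_iff₀ hpi] at this
    linarith

theorem lob_red (x : ℝ) (n : ℤ) : lob (x - n * π) = lob x := lob_per.sub_int_mul_eq n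

/-- the inequality for the middle terms -/
theorem lobM (i l μ : ℝ) (hμ : 0 ≤ μ) :
    lob i + lob (l - i) - lob l + (lob (μ + i + l) - lob l - lob (μ + i)) ≤
      4 * lob (π / 4) + μ * (Real.log 2 / 2) := by
  have hpi := Real.pi_pos
  have hlog : 0 < Real.log 2 := Real.log_pos (by norm_num)
  have hμ' : 0 ≤ μ * (Real.log 2 / 2) := by positivity
  have hW := W_le
  have hV1 := lobW i (l - i)
  rw [add_sub_cancel] at hV1
  have hV2 := lobW' (μ + i) l
  obtain ⟨a, ha, ha0, ha1⟩ := red_floor i
  obtain ⟨b, hb, hb0, hb1⟩ := red_floor (l - i)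
  obtain ⟨c, hc, hc0, hc1⟩ := red_floor (μ + i)
  obtain ⟨d, hd, hd0, hd1⟩ := red_floor l
  have ea : lob i = lob a := by rw [ha, lob_red]
  have eb : lob (l - i) = lob b := by rw [hb, lob_red]
  have ec : lob (μ + i) = lob c := by rw [hc, lob_red]
  have ed : lob l = lob d := by rw [hd, lob_red]
  have eab : lob l = lob (a + b) := by
    rw [← lob_red l (⌊i / π⌋ + ⌊(l - i) / π⌋)]
    congr 1
    rw [ha, hb]; push_cast; ring
  have ecd : lob (μ + i + l) = lob (c + d) := by
    rw [← lob_red (μ + i + l) (⌊(μ + i) / π⌋ + ⌊l / π⌋)]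
    congr 1
    rw [hc, hd]; push_cast; ring
  -- the first volume
  rcases le_total (a + b) π with h1 | h1
  swap
  · have h2 := lob_sub_add (a := π - a) (b := π - b) (by linarith) (by linarith) (by linarith)
    have e4 : lob (a + b) = -lob (π - a + (π - b)) := by
      have h3 : lob (-(a + b)) = lob (π - a + (π - b)) := by
        rw [← lob_per (-(a + b)), ← lob_per (-(a + b) + π)]
        congr 1
        ring
      rw [lob_neg] at h3
      linarith
    rw [lob_pi_sub, lob_pi_sub] at h2
    have h5 : lob i + lob (l - i) - lob l ≤ 0 := by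
      rw [ea, eb, eab, e4]
      linarith
    linarith
  rcases le_total (c + d) π with h2 | h2
  · have h3 := lob_sub_add hc0 hd0 h2
    have h5 : lob (μ + i + l) - lob l - lob (μ + i) ≤ 0 := by
      rw [ec, ed, ecd]
      linarith
    linarith
  -- both volumes are positive
  have h3 := lobA (x := a) (y := b) (z := π - (a + b)) ha0 hb0 (by linarith) (by ring)
  have h4 := lobA (x := π - c) (y := π - d) (z := c + d - π) (by linarith) (by linarith)
    (by linarith) (by ring)
  rw [lob_pi_sub] at h3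
  rw [lob_pi_sub, lob_pi_sub] at h4
  have e5 : lob (c + d - π) = lob (c + d) := by
    have := lob_red (c + d) 1
    rw [Int.cast_one, one_mul] at this
    exact this
  rw [e5] at h4
  have hca : c ≤ μ + a := by
    have hfl : ⌊i / π⌋ ≤ ⌊(μ + i) / π⌋ := by
      apply Int.floor_le_floor
      gcongr
      linarith
    have hfl' : (⌊i / π⌋ : ℝ) ≤ ⌊(μ + i) / π⌋ := by exact_mod_cast hfl
    rw [hc, ha]
    nlinarith
  have hca' : (c - a) * (Real.log 2 / 2) ≤ μ * (Real.log 2 / 2) := by
    gcongr
    linarith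
  rw [ea, eb, ec, ecd]
  rw [← ea, ← eb] at h3 ⊢
  nlinarith [eab, ed]

theorem S_bound (C : ℕ) (ε : ℝ) (hε : 0 < ε) : ∀ᶠ N : ℕ in atTop, ∀ m : ℕ, m ≤ C * N →
    |EvenVol.S N m + N / π * lob (π * m / N)| ≤ ε * N := by
  have h0 := Pool.Agent.H811R3.EvenVolR.taskR (ε / 2) (by positivity)
  have h2 : ∀ᶠ N : ℕ in atTop, (C : ℝ) * Real.log N ≤ ε / 2 * N := by
    have h3 := (Real.isLittleO_log_id_atTop.bound (show 0 < ε / (2 * (C + 1)) by positivity))
    have h4 := tendsto_natCast_atTop_atTop (R := ℝ) |>.eventually h3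
    filter_upwards [h4, eventually_ge_atTop 1] with N hN hN1
    have hN1' : (1 : ℝ) ≤ N := by exact_mod_cast hN1
    rw [Real.norm_of_nonneg (Real.log_nonneg hN1'), id, Real.norm_of_nonneg (by positivity)] at hN
    have hl := Real.log_nonneg hN1'
    have hC : (0 : ℝ) ≤ C := Nat.cast_nonneg C
    calc (C : ℝ) * Real.log N ≤ (C + 1) * (ε / (2 * (C + 1)) * N) := by gcongr; linarith
      _ = _ := by field_simp
  filter_upwards [h0, h2, eventually_ge_atTop 1] with N hN hN2 hN1 m hm
  have hN0 : (0 : ℝ) < N := by exact_mod_cast hN1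
  obtain ⟨q, r, hr, hqr⟩ : ∃ q r : ℕ, r < N ∧ m = q * N + r :=
    ⟨m / N, m % N, Nat.mod_lt _ hN1, by rw [mul_comm]; exact (Nat.div_add_mod m N).symm⟩
  have hq : q ≤ C := by
    have : q * N ≤ C * N := by omega
    exact Nat.le_of_mul_le_mul_right this hN1
  rw [hqr, Pool.Agent.H811R3.EvenVolR.S_mul hN1]
  have e1 : π * ((q * N + r : ℕ) : ℝ) / N = π * r / N + q * π := by
    push_cast
    field_simp
    ring
  rw [e1, Pool.Agent.H811R3.EvenVolR.lob_per_nat]
  have h3 := abs_le.1 (hN r (by omega))
  have h4 : 0 ≤ (q : ℝ) * Real.log N := by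
    have := Real.log_nonneg (by exact_mod_cast hN1 : (1 : ℝ) ≤ N)
    positivity
  have h5 : (q : ℝ) * Real.log N ≤ C * Real.log N := by
    have := Real.log_nonneg (by exact_mod_cast hN1 : (1 : ℝ) ≤ N)
    have hq' : (q : ℝ) ≤ C := by exact_mod_cast hq
    gcongr
  rw [abs_le]
  constructor
  · nlinarith
  · nlinarith

end Pool.Agent.Q191.FT
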