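import Pool.Agent.Q191.FT.Lob3
import Pool.Agent.W715.VC.Cross

/-!
# The quantum integers near the root of unity
-/

set_option autoImplicit false

namespace Pool.Agent.Q191.FT

open Finset
open Pool.Agent.W715.VC (rt rt_ne rt_zpow norm_rt_zpow rt_zpow_N br_rt sn)
open Pool.Agent.H550R3.Jones (br brf)
open GapVol (lob)
open scoped Real

/-! ### Powers of a number close to `1` -/

theorem pow_near {w : ℂ} {r : ℝ} (hr : 0 ≤ r) (hw : ‖w - 1‖ ≤ r) (n : ℕ) :
    ‖w ^ n - 1‖ ≤ (1 + r) ^ n - 1 := by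
  have hw1 : ‖w‖ ≤ 1 + r := by
    have h : w = (w - 1) + 1 := by ring
    rw [h]
    refine (norm_add_le _ _).trans ?_
    rw [norm_one]; linarith
  induction n with
  | zero => simp
  | succ n ih =>
    have e : w ^ (n + 1) - 1 = w * (w ^ n - 1) + (w - 1) := by rw [pow_succ]; ring
    rw [e]
    refine (norm_add_le _ _).trans ?_
    rw [norm_mul]
    have h0 : 0 ≤ (1 + r) ^ n - 1 := le_trans (norm_nonneg _) ih
    calc _ ≤ (1 + r) * ((1 + r) ^ n - 1) + r :=
          add_le_add (mul_le_mul hw1 ih (norm_nonneg _) (by linarith)) hw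
      _ = _ := by rw [pow_succ]; ring

theorem pow_near2 {w : ℂ} {r : ℝ} (hr : 0 ≤ r) (hw : ‖w - 1‖ ≤ r) (n : ℕ) :
    ‖w ^ n - 1 - n * (w - 1)‖ ≤ (1 + r) ^ n - 1 - n * r := by
  have hw1 : ‖w‖ ≤ 1 + r := by
    have h : w = (w - 1) + 1 := by ring
    rw [h]
    refine (norm_add_le _ _).trans ?_
    rw [norm_one]; linarith
  induction n with
  | zero => simp
  | succ n ih =>
    have e : w ^ (n + 1) - 1 - ((n + 1 : ℕ) : ℂ) * (w - 1) =
        w * (w ^ n - 1 - n * (w - 1)) + n * (w - 1) * (w - 1) := by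
      rw [pow_succ]; push_cast; ring
    rw [e]
    refine (norm_add_le _ _).trans ?_
    rw [norm_mul, norm_mul, norm_mul, Complex.norm_natCast]
    calc _ ≤ (1 + r) * ((1 + r) ^ n - 1 - n * r) + n * r * r := by
          refine add_le_add (mul_le_mul hw1 ih (norm_nonneg _) (by linarith)) ?_
          gcongr
      _ = _ := by rw [pow_succ]; push_cast; ring

theorem one_add_pow_le {r : ℝ} (hr : 0 ≤ r) {n : ℕ} (h : n * r ≤ 1) :
    (1 + r) ^ n - 1 ≤ 2 * (n * r) ∧ (1 + r) ^ n - 1 - n * r ≤ (n * r) ^ 2 := by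
  have h1 : (1 + r) ^ n ≤ Real.exp (n * r) := by
    rw [Real.exp_nat_mul]
    have := Real.add_one_le_exp r
    gcongr
    linarith
  have h0 : 0 ≤ (n : ℝ) * r := by positivity
  have h2 := abs_le.1 (Real.abs_exp_sub_one_sub_id_le (x := n * r) (by rw [abs_of_nonneg h0]; exact h))
  constructor
  · nlinarith [h2.2]
  · linarith [h2.2]

theorem zpow_near {w : ℂ} {r : ℝ} (hr : 0 ≤ r) (hw : ‖w - 1‖ ≤ r) (e : ℤ) (h : |(e : ℝ)| * r ≤ 1 / 4) :
    ‖w ^ e - 1‖ ≤ 4 * (|(e : ℝ)| * r) := by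
  obtain ⟨n, rfl | rfl⟩ := Int.eq_nat_or_neg e
  · have e1 : |((n : ℤ) : ℝ)| = n := by rw [Int.cast_natCast, abs_of_nonneg (Nat.cast_nonneg n)]
    rw [e1] at h ⊢
    have h1 := (one_add_pow_le hr (n := n) (by linarith)).1
    rw [zpow_natCast]
    refine (pow_near hr hw n).trans (h1.trans ?_)
    have : 0 ≤ (n : ℝ) * r := by positivity
    linarith
  · have e1 : |((-(n : ℤ) : ℤ) : ℝ)| = n := by
      rw [Int.cast_neg, abs_neg, Int.cast_natCast, abs_of_nonneg (Nat.cast_nonneg n)]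
    rw [e1] at h ⊢
    have h1 := (one_add_pow_le hr (n := n) (by linarith)).1
    have h2 := pow_near hr hw n
    have h3 : 1 / 2 ≤ ‖w ^ n‖ := by
      have h4 : (1 : ℝ) ≤ ‖w ^ n - 1‖ + ‖w ^ n‖ := by
        have h5 : (1 : ℂ) = -(w ^ n - 1) + w ^ n := by ring
        calc (1 : ℝ) = ‖(1 : ℂ)‖ := norm_one.symm
          _ = ‖-(w ^ n - 1) + w ^ n‖ := by rw [← h5]
          _ ≤ _ := by
            refine (norm_add_le _ _).trans ?_
            rw [norm_neg]
      linarith
    have hne : w ^ n ≠ 0 := by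
      intro h0
      rw [h0, norm_zero] at h3
      linarith
    have e2 : w ^ (-(n : ℤ)) - 1 = -(w ^ n - 1) / w ^ n := by
      rw [zpow_neg, zpow_natCast]
      field_simp
      ring
    rw [e2, norm_div, norm_neg, div_le_iff₀ (by linarith)]
    have h6 : 0 ≤ (n : ℝ) * r := by positivity
    nlinarith

/-! ### Quantum integers -/

theorem rt_add_mul {N : ℕ} (hN : 0 < N) (q : ℕ) : rt N ^ (((q * N : ℕ) : ℤ)) = (-1) ^ q := by
  have h := rt_zpow_N hN
  push_cast
  rw [mul_comm, zpow_mul, h, zpow_natCast]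

theorem sin_low {N m : ℕ} (h0 : 0 < m) (h1 : m < N) : 2 / (N : ℝ) ≤ Real.sin (π * m / N) := by
  have hN : (0 : ℝ) < N := by exact_mod_cast (by omega : 0 < N)
  have hpi := Real.pi_pos
  have key : ∀ k : ℕ, 0 < k → 2 * k ≤ N → 2 / (N : ℝ) ≤ Real.sin (π * k / N) := by
    intro k hk hkN
    have hk1 : (1 : ℝ) ≤ k := by exact_mod_cast hk
    have hk2 : 2 * (k : ℝ) ≤ N := by exact_mod_cast hkN
    have h := Real.mul_le_sin (x := π * k / N) (by positivity) (by
      rw [div_le_div_iff₀ hN (by norm_num)]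
      nlinarith)
    refine le_trans ?_ h
    have e : 2 / π * (π * k / N) = 2 * k / N := by field_simp
    rw [e]
    gcongr
    linarith
  rcases Nat.lt_or_ge N (2 * m) with h | h
  · have h2 := key (N - m) (by omega) (by omega)
    have e : π * ((N - m : ℕ) : ℝ) / N = π - π * m / N := by
      rw [Nat.cast_sub h1.le]
      field_simp
    rw [e, Real.sin_pi_sub] at h2
    exact h2
  · exact key m h0 h

theorem norm_br_rt (N : ℕ) (n : ℤ) : ‖br (rt N) n‖ = |2 * Real.sin (π * n / N)| := by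
  rw [br_rt, norm_mul, norm_mul, Complex.norm_real, abs_mul, sn]
  simp

theorem norm_br_rt_sg {N n : ℕ} (h : ¬ N ∣ n) : ‖br (rt N) n‖ = EvenVol.sg N n := by
  rw [norm_br_rt, EvenVol.sg, if_neg h, Int.cast_natCast]

theorem sg_low {N n : ℕ} (hN : 0 < N) (h : ¬ N ∣ n) : 4 / (N : ℝ) ≤ EvenVol.sg N n := by
  have e : n = n / N * N + n % N := by rw [mul_comm]; exact (Nat.div_add_mod n N).symm
  have h0 : 0 < n % N := Nat.pos_of_ne_zero fun h' => h (Nat.dvd_of_mod_eq_zero h')
  have h1 := sin_low h0 (Nat.mod_lt n hN)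
  have hNR : (N : ℝ) ≠ 0 := by positivity
  rw [EvenVol.sg, if_neg h]
  have e1 : π * (n : ℝ) / N = π * (n % N : ℕ) / N + (n / N : ℕ) * π := by
    conv_lhs => rw [e]
    push_cast
    field_simp
    ring
  have e2 : |Real.sin (π * (n : ℝ) / N)| = |Real.sin (π * (n % N : ℕ) / N)| := by
    rw [e1, Real.sin_add_nat_mul_pi, abs_mul, abs_pow, abs_neg, abs_one, one_pow, one_mul]
  rw [abs_mul, e2]
  have h2 : 0 < 2 / (N : ℝ) := by positivity
  rw [abs_of_pos (by norm_num : (0 : ℝ) < 2), abs_of_pos (by linarith)]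
  have e3 : 4 / (N : ℝ) = 2 * (2 / N) := by ring
  rw [e3]
  linarith

/-- a point at distance `r` from the root of unity -/
structure Near (N X : ℕ) (r : ℝ) (v : ℂ) : Prop where
  hN : 2 ≤ N
  hX : N ≤ X
  r0 : 0 < r
  hr : 8 * (X : ℝ) ^ 2 * N * r ≤ 1
  hv : ‖v - rt N‖ = r

namespace Near

variable {N X : ℕ} {r : ℝ} {v : ℂ}

theorem small (h : Near N X r v) {e : ℤ} (he : |(e : ℝ)| * r ≤ 1 / 4) :
    ‖(v / rt N) ^ e - 1‖ ≤ 4 * (|(e : ℝ)| * r) := by
  refine zpow_near h.r0.le ?_ e he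
  have h1 : v / rt N - 1 = (v - rt N) / rt N := by
    have := rt_ne N
    field_simp
  have h2 : ‖rt N‖ = 1 := by
    have := norm_rt_zpow N 1
    rwa [zpow_one] at this
  rw [h1, norm_div, h2, div_one, h.hv]

theorem norm_zpow (h : Near N X r v) {e : ℤ} (he : |(e : ℝ)| * r ≤ 1 / 4) :
    ‖v ^ e‖ ≤ 2 := by
  have h1 := h.small he
  have h2 : v ^ e = rt N ^ e * ((v / rt N) ^ e - 1) + rt N ^ e := by
    have h3 : v ^ e = rt N ^ e * (v / rt N) ^ e := by
      rw [← mul_zpow, mul_div_cancel₀ _ (rt_ne N)]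
    rw [h3]; ring
  rw [h2]
  refine (norm_add_le _ _).trans ?_
  rw [norm_mul, norm_rt_zpow, one_mul]
  linarith

theorem r_le (h : Near N X r v) : (X : ℝ) * r ≤ 1 / 32 := by
  have hX1 : (2 : ℝ) ≤ X := by exact_mod_cast h.hN.trans h.hX
  have hN1 : (2 : ℝ) ≤ N := by exact_mod_cast h.hN
  have h1 := h.hr
  have h0 := h.r0
  have h2 : (32 : ℝ) * (X * r) ≤ 8 * (X : ℝ) ^ 2 * N * r := by
    have : (4 : ℝ) ≤ X * N := by nlinarith
    have h3 : 0 ≤ (X : ℝ) * r := by positivity
    nlinarith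
  linarith

theorem br_diff (h : Near N X r v) {n : ℕ} (hn : n ≤ X) :
    ‖br v n - br (rt N) n‖ ≤ 8 * (n * r) := by
  have h0 := h.r0
  have hnX : (n : ℝ) ≤ X := by exact_mod_cast hn
  have h1 : (n : ℝ) * r ≤ 1 / 4 := by
    have := h.r_le
    nlinarith
  have e1 : |((n : ℤ) : ℝ)| = n := by rw [Int.cast_natCast, abs_of_nonneg (Nat.cast_nonneg n)]
  have e2 : |((-(n : ℤ) : ℤ) : ℝ)| = n := by
    rw [Int.cast_neg, abs_neg, Int.cast_natCast, abs_of_nonneg (Nat.cast_nonneg n)]
  have h2 := h.small (e := n) (by rw [e1]; exact h1)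
  have h3 := h.small (e := -(n : ℤ)) (by rw [e2]; exact h1)
  rw [e1] at h2
  rw [e2] at h3
  have hz : ∀ e : ℤ, v ^ e = rt N ^ e * (v / rt N) ^ e := by
    intro e
    rw [← mul_zpow, mul_div_cancel₀ _ (rt_ne N)]
  have h4 : br v n - br (rt N) n = rt N ^ (n : ℤ) * ((v / rt N) ^ (n : ℤ) - 1) -
      rt N ^ (-(n : ℤ)) * ((v / rt N) ^ (-(n : ℤ)) - 1) := by
    unfold br
    rw [hz n, hz (-(n : ℤ))]
    ring
  rw [h4]
  refine (norm_sub_le _ _).trans ?_
  rw [norm_mul, norm_mul, norm_rt_zpow, norm_rt_zpow]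
  linarith

theorem br_nd (h : Near N X r v) {n : ℕ} (hn : n ≤ X) (hd : ¬ N ∣ n) :
    |‖br v n‖ - EvenVol.sg N n| ≤ 8 * (X * r) := by
  have h1 := h.br_diff hn
  rw [← norm_br_rt_sg hd]
  refine (abs_norm_sub_norm_le _ _).trans (h1.trans ?_)
  have h0 := h.r0
  have hnX : (n : ℝ) ≤ X := by exact_mod_cast hn
  gcongr

theorem br_d (h : Near N X r v) {n : ℕ} (h0 : 0 < n) (hn : n ≤ X) (hd : N ∣ n) :
    r / 2 ≤ ‖br v n‖ ∧ ‖br v n‖ ≤ 1 := by
  obtain ⟨q, hq⟩ := hd
  have hN0 : 0 < N := by have := h.hN; omega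
  have hrt : rt N ^ ((n : ℕ) : ℤ) = (-1) ^ q := by
    rw [hq, mul_comm]
    exact rt_add_mul hN0 q
  have hrt' : rt N ^ (-((n : ℕ) : ℤ)) = (-1) ^ q := by
    rw [zpow_neg, hrt, ← inv_pow, inv_neg, inv_one]
  have hr0 := h.r0
  have hnX : (n : ℝ) ≤ X := by exact_mod_cast hn
  have hrl := h.r_le
  have h1 : (n : ℝ) * r ≤ 1 / 32 := by nlinarith
  constructor
  · set w := v / rt N with hw
    have hwne : ‖w - 1‖ = r := by
      have h1 : w - 1 = (v - rt N) / rt N := by
        have := rt_ne N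
        rw [hw]
        field_simp
      have h2 : ‖rt N‖ = 1 := by
        have := norm_rt_zpow N 1
        rwa [zpow_one] at this
      rw [h1, norm_div, h2, div_one, h.hv]
    have hz : ∀ e : ℤ, v ^ e = rt N ^ e * w ^ e := by
      intro e
      rw [← mul_zpow, hw, mul_div_cancel₀ _ (rt_ne N)]
    have hv0 : w ≠ 0 := by
      intro hw0
      rw [hw0, zero_sub, norm_neg, norm_one] at hwne
      have : (1 : ℝ) ≤ n := by exact_mod_cast h0
      nlinarith
    have e1 : br v n = (-1) ^ q * (w ^ (2 * n) - 1) / w ^ n := by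
      unfold br
      rw [hz, hz, hrt, hrt', zpow_neg, zpow_natCast, two_mul, pow_add]
      field_simp
    have h2 := pow_near2 hr0.le hwne.le (2 * n)
    have h3 := (one_add_pow_le hr0.le (n := 2 * n) (by push_cast; linarith)).2
    have h4 : 2 * (n * r) - (2 * (n * r)) ^ 2 ≤ ‖w ^ (2 * n) - 1‖ := by
      have h5 : ‖((2 * n : ℕ) : ℂ) * (w - 1)‖ = 2 * (n * r) := by
        rw [norm_mul, Complex.norm_natCast, hwne]
        push_cast; ring
      have h6 : ((2 * n : ℕ) : ℂ) * (w - 1) =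
          (w ^ (2 * n) - 1) - (w ^ (2 * n) - 1 - ((2 * n : ℕ) : ℂ) * (w - 1)) := by ring
      have h7 : ‖((2 * n : ℕ) : ℂ) * (w - 1)‖ ≤
          ‖w ^ (2 * n) - 1‖ + ‖w ^ (2 * n) - 1 - ((2 * n : ℕ) : ℂ) * (w - 1)‖ := by
        conv_lhs => rw [h6]
        exact norm_sub_le _ _
      have e2 : (((2 * n : ℕ) : ℝ) * r) ^ 2 = (2 * (n * r)) ^ 2 := by push_cast; ring
      rw [e2] at h3
      linarith
    have h8 : ‖w ^ n‖ ≤ 2 := by
      have h9 := pow_near hr0.le hwne.le n
      have h10 := (one_add_pow_le hr0.le (n := n) (by linarith)).1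
      have h11 : w ^ n = (w ^ n - 1) + 1 := by ring
      rw [h11]
      refine (norm_add_le _ _).trans ?_
      rw [norm_one]
      linarith
    rw [e1, norm_div, norm_mul, norm_pow, norm_neg, norm_one, one_pow, one_mul,
      le_div_iff₀ (norm_pos_iff.2 (pow_ne_zero _ hv0))]
    have hn1 : r ≤ n * r := by
      have : (1 : ℝ) ≤ n := by exact_mod_cast h0
      nlinarith
    nlinarith [norm_nonneg (w ^ n)]
  · have h2 := h.br_diff hn
    have h3 : br (rt N) n = 0 := by
      unfold br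
      rw [hrt, hrt', sub_self]
    rw [h3, sub_zero] at h2
    linarith

/-- lower and upper bound of quantum integers -/
theorem br_bd (h : Near N X r v) {n : ℕ} (h0 : 0 < n) (hn : n ≤ X) :
    r / 2 ≤ ‖br v n‖ ∧ ‖br v n‖ ≤ 3 := by
  have hN2 : (2 : ℝ) ≤ N := by exact_mod_cast h.hN
  have hrl := h.r_le
  have hr0 := h.r0
  have hX1 : (1 : ℝ) ≤ X := by exact_mod_cast (by have := h.hN; have := h.hX; omega : 1 ≤ X)
  by_cases hd : N ∣ n
  · have := h.br_d h0 hn hd
    exact ⟨this.1, by linarith [this.2]⟩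
  · have h1 := abs_le.1 (h.br_nd hn hd)
    have h2 := sg_low (by have := h.hN; omega) hd
    have h3 : EvenVol.sg N n ≤ 2 := by
      rw [EvenVol.sg, if_neg hd, abs_mul, abs_two]
      have := Real.abs_sin_le_one (π * n / N)
      linarith
    have h4 : 8 * (X * r) * 2 ≤ 4 / (N : ℝ) := by
      rw [le_div_iff₀ (by linarith)]
      have h5 := h.hr
      have : (X : ℝ) * N * r ≤ X ^ 2 * N * r := by
        have : (X : ℝ) ≤ X ^ 2 := by nlinarith
        gcongr
      nlinarith
    have h5 : r ≤ X * r := by nlinarith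
    constructor
    · linarith [h1.1]
    · linarith [h1.2]

theorem br_ne (h : Near N X r v) {n : ℕ} (h0 : 0 < n) (hn : n ≤ X) : br v n ≠ 0 := by
  have h1 := (h.br_bd h0 hn).1
  have h2 := h.r0
  intro h3
  rw [h3, norm_zero] at h1
  linarith

theorem brf_pos (h : Near N X r v) {n : ℕ} (hn : n ≤ X) : 0 < ‖brf v n‖ := by
  unfold brf
  rw [norm_prod]
  refine prod_pos fun j hj => ?_
  rw [mem_range] at hj
  have := h.br_ne (n := j + 1) (by omega) (by omega)
  push_cast at this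
  exact norm_pos_iff.2 this

theorem log_near {x y δ : ℝ} (hy : 0 < y) (h : |x - y| ≤ δ * y) (hδ : δ ≤ 1 / 2) :
    |Real.log x - Real.log y| ≤ 2 * δ := by
  have h1 := abs_le.1 h
  have hδ0 : 0 ≤ δ := by
    by_contra hc
    push Not at hc
    have := (abs_nonneg (x - y)).trans h
    nlinarith
  have hx : 0 < x := by nlinarith [h1.1]
  have hl1 : Real.log x - Real.log y ≤ δ := by
    rw [← Real.log_div hx.ne' hy.ne']
    have h2 := Real.log_le_sub_one_of_pos (div_pos hx hy)
    have h3 : x / y ≤ 1 + δ := by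
      rw [div_le_iff₀ hy]; nlinarith [h1.2]
    linarith
  have hl2 : Real.log y - Real.log x ≤ 2 * δ := by
    rw [← Real.log_div hy.ne' hx.ne']
    have h2 := Real.log_le_sub_one_of_pos (div_pos hy hx)
    have h3 : y / x ≤ 1 + 2 * δ := by
      rw [div_le_iff₀ hx]
      nlinarith [h1.1, mul_nonneg hδ0 hy.le]
    linarith
  rw [abs_le]
  constructor <;> linarith

/-- the factorials -/
theorem log_brf (h : Near N X r v) {C : ℕ} (hC : X ≤ C * N) : ∀ n : ℕ, n ≤ X →
    |Real.log ‖brf v n‖ - EvenVol.S N n| ≤ 1 + C * Real.log (2 / r) := by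
  have hN2 : (2 : ℝ) ≤ N := by exact_mod_cast h.hN
  have hN0 : 0 < N := by have := h.hN; omega
  have hr0 := h.r0
  have hrl := h.r_le
  have hX1 : (1 : ℝ) ≤ X := by exact_mod_cast (by have := h.hN; have := h.hX; omega : 1 ≤ X)
  have hr1 : r ≤ 1 := by nlinarith
  have hlog : 0 ≤ Real.log (2 / r) := by
    apply Real.log_nonneg
    rw [le_div_iff₀ hr0]; linarith
  -- finer statement by induction
  have key : ∀ n : ℕ, n ≤ X → |Real.log ‖brf v n‖ - EvenVol.S N n| ≤
      n * (4 * (X * r * N)) + (n / N : ℕ) * Real.log (2 / r) := by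
    intro n
    induction n with
    | zero =>
      intro _
      have : brf v 0 = 1 := by simp [brf]
      rw [this]
      simp [EvenVol.S]
    | succ n ih =>
      intro hn
      have h1 := ih (by omega)
      have e1 : Real.log ‖brf v (n + 1)‖ = Real.log ‖brf v n‖ + Real.log ‖br v ((n + 1 : ℕ) : ℤ)‖ := by
        have : brf v (n + 1) = brf v n * br v ((n + 1 : ℕ) : ℤ) := by
          rw [Pool.Agent.H559R3.J.brf_succ]; push_cast; rfl
        rw [this, norm_mul, Real.log_mul (h.brf_pos (by omega)).ne'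
          (norm_pos_iff.2 (h.br_ne (by omega) hn)).ne']
      have e2 : EvenVol.S N (n + 1) = EvenVol.S N n + Real.log (EvenVol.sg N (n + 1)) := by
        unfold EvenVol.S; rw [sum_range_succ]
      rw [e1, e2]
      have e3 : Real.log ‖brf v n‖ + Real.log ‖br v ((n + 1 : ℕ) : ℤ)‖ -
          (EvenVol.S N n + Real.log (EvenVol.sg N (n + 1))) =
          (Real.log ‖brf v n‖ - EvenVol.S N n) +
            (Real.log ‖br v ((n + 1 : ℕ) : ℤ)‖ - Real.log (EvenVol.sg N (n + 1))) := by ring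
      rw [e3]
      refine (abs_add_le _ _).trans ?_
      have hz : 0 ≤ 4 * ((X : ℝ) * r * N) := by positivity
      by_cases hd : N ∣ n + 1
      · have h2 : |Real.log ‖br v ((n + 1 : ℕ) : ℤ)‖ - Real.log (EvenVol.sg N (n + 1))| ≤
            Real.log (2 / r) := by
          have h3 := h.br_d (n := n + 1) (by omega) hn hd
          rw [EvenVol.sg, if_pos hd, Real.log_one, sub_zero]
          have h4 : Real.log (r / 2) ≤ Real.log ‖br v ((n + 1 : ℕ) : ℤ)‖ :=
            Real.log_le_log (by positivity) h3.1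
          have h5 : Real.log ‖br v ((n + 1 : ℕ) : ℤ)‖ ≤ 0 :=
            Real.log_nonpos (norm_nonneg _) h3.2
          have h6 : Real.log (r / 2) = -Real.log (2 / r) := by
            rw [← Real.log_inv, inv_div]
          rw [abs_le]
          constructor <;> linarith
        have h3 : (n + 1) / N = n / N + 1 := by
          rw [Nat.succ_div, if_pos hd]
        rw [h3]
        refine (add_le_add h1 h2).trans ?_
        push_cast
        nlinarith
      · have h3 : (n + 1) / N = n / N := by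
          rw [Nat.succ_div, if_neg hd, add_zero]
        rw [h3]
        have h4 := h.br_nd hn hd
        have h5 := sg_low hN0 hd
        have h6 : |Real.log ‖br v ((n + 1 : ℕ) : ℤ)‖ - Real.log (EvenVol.sg N (n + 1))| ≤
            2 * (2 * (X * r * N)) := by
          have hsg : 0 < EvenVol.sg N (n + 1) := lt_of_lt_of_le (by positivity) h5
          refine log_near hsg (h4.trans ?_) ?_
          · have h7 : 8 * (X * r) = 2 * (X * r * N) * (4 / N) := by
              field_simp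
              ring
            rw [h7]
            gcongr
          · have h8 := h.hr
            have : (X : ℝ) * N * r ≤ X ^ 2 * N * r := by
              have : (X : ℝ) ≤ X ^ 2 := by nlinarith
              gcongr
            nlinarith
        refine (add_le_add h1 h6).trans ?_
        push_cast
        nlinarith
  intro n hn
  refine (key n hn).trans ?_
  have h1 : (n : ℝ) * (4 * (X * r * N)) ≤ 1 := by
    have h2 : (n : ℝ) ≤ X := by exact_mod_cast hn
    have h3 := h.hr
    have h4 : (n : ℝ) * (4 * (X * r * N)) ≤ X * (4 * (X * r * N)) := by gcongr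
    have h5 : (X : ℝ) * (4 * (X * r * N)) = (8 * (X : ℝ) ^ 2 * N * r) / 2 := by ring
    linarith
  have h2 : ((n / N : ℕ) : ℝ) ≤ C := by
    have : n / N ≤ C := Nat.div_le_of_le_mul (by rw [mul_comm]; omega)
    exact_mod_cast this
  have h3 : ((n / N : ℕ) : ℝ) * Real.log (2 / r) ≤ C * Real.log (2 / r) := by gcongr
  linarith

end Near

end Pool.Agent.Q191.FT
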