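import Mathlib

/-!
# Spectral components of a Newton sequence

If `C (G l) = G (l + 1) + ν l • G l` with distinct `ν l` and `G (L + 1) = 0`, then `G 0` is the sum of the
eigenvectors `yy i = ∑_{i ≤ l ≤ L} (Dn i l)⁻¹ • G l`.
-/

set_option autoImplicit false

namespace Pool.Agent.Q191.FT

open Finset

/-- `∏_{j ≤ l, j ≠ i} (ν_i - ν_j)` -/
noncomputable def Dn (ν : ℕ → ℂ) (i l : ℕ) : ℂ := ∏ j ∈ (range (l + 1)).erase i, (ν i - ν j)

theorem Dn_ne {ν : ℕ → ℂ} {L : ℕ} (hν : Set.InjOn ν (range (L + 1))) {i l : ℕ} (hi : i ≤ L)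
    (hl : l ≤ L) : Dn ν i l ≠ 0 := by
  unfold Dn
  rw [prod_ne_zero_iff]
  intro j hj
  rw [mem_erase, mem_range] at hj
  rw [sub_ne_zero]
  intro h
  exact hj.1 (hν (by simp; omega) (by simp; omega) h).symm

theorem Dn_succ {ν : ℕ → ℂ} {i l : ℕ} (h : i ≤ l) :
    Dn ν i (l + 1) = Dn ν i l * (ν i - ν (l + 1)) := by
  unfold Dn
  rw [range_add_one (n := l + 1), erase_insert_of_ne (by omega), prod_insert (by simp), mul_comm]

theorem sum_inv_Dn {ν : ℕ → ℂ} {L : ℕ} (hν : Set.InjOn ν (range (L + 1))) {l : ℕ} (hl : l ≤ L) :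
    ∑ i ∈ range (l + 1), (Dn ν i l)⁻¹ = if l = 0 then 1 else 0 := by
  have hs : Set.InjOn ν (range (l + 1) : Finset ℕ) := by
    intro a ha b hb h
    refine hν ?_ ?_ h
    · simp at ha ⊢; omega
    · simp at hb ⊢; omega
  have h := Lagrange.coeff_eq_sum hs (P := (1 : Polynomial ℂ)) (by
    rw [card_range]
    refine lt_of_le_of_lt Polynomial.degree_one_le ?_
    exact_mod_cast Nat.succ_pos l)
  rw [card_range, Nat.add_sub_cancel, Polynomial.coeff_one] at h
  rw [h]
  refine sum_congr rfl fun i _ => ?_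
  rw [Polynomial.eval_one, one_div, Dn]

variable {V : Type*} [AddCommGroup V] [Module ℂ V]

/-- the component of `G 0` for the eigenvalue `ν i` -/
noncomputable def yy (ν : ℕ → ℂ) (G : ℕ → V) (L i : ℕ) : V :=
  ∑ l ∈ Ico i (L + 1), (Dn ν i l)⁻¹ • G l

theorem sum_yy {ν : ℕ → ℂ} {L : ℕ} (hν : Set.InjOn ν (range (L + 1))) (G : ℕ → V) :
    ∑ i ∈ range (L + 1), yy ν G L i = G 0 := by
  unfold yy
  have h1 : ∑ i ∈ range (L + 1), ∑ l ∈ Ico i (L + 1), (Dn ν i l)⁻¹ • G l =
      ∑ l ∈ range (L + 1), ∑ i ∈ range (l + 1), (Dn ν i l)⁻¹ • G l := by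
    refine sum_comm' ?_
    intro x y
    simp only [mem_range, mem_Ico]
    omega
  rw [h1, sum_eq_single 0]
  · rw [← sum_smul, sum_inv_Dn hν (by omega)]
    simp
  · intro l hl hl0
    rw [← sum_smul, sum_inv_Dn hν (by simp at hl; omega), if_neg hl0, zero_smul]
  · intro h
    simp at h

theorem C_yy {ν : ℕ → ℂ} {L : ℕ} (hν : Set.InjOn ν (range (L + 1))) {G : ℕ → V} (C : V →ₗ[ℂ] V)
    (hC : ∀ l, l ≤ L → C (G l) = G (l + 1) + ν l • G l) (hG : G (L + 1) = 0) {i : ℕ} (hi : i ≤ L) :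
    C (yy ν G L i) = ν i • yy ν G L i := by
  -- sums up to `m`
  have key : ∀ m, i ≤ m → m ≤ L → C (∑ l ∈ Ico i (m + 1), (Dn ν i l)⁻¹ • G l) =
      ν i • (∑ l ∈ Ico i (m + 1), (Dn ν i l)⁻¹ • G l) + (Dn ν i m)⁻¹ • G (m + 1) := by
    intro m hm
    induction m, hm using Nat.le_induction with
    | base =>
      intro _
      rw [Nat.Ico_succ_singleton, sum_singleton, map_smul, hC i hi, smul_add, add_comm]
      congr 1
      rw [smul_comm]
    | succ m hm ih =>
      intro hmL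
      rw [sum_Ico_succ_top (by omega), map_add, ih (by omega), map_smul, hC (m + 1) hmL, smul_add,
        smul_add]
      have h1 : Dn ν i (m + 1) = Dn ν i m * (ν i - ν (m + 1)) := Dn_succ hm
      have hne : Dn ν i (m + 1) ≠ 0 := Dn_ne hν hi hmL
      have hne2 : ν i - ν (m + 1) ≠ 0 := by
        rw [h1] at hne
        exact right_ne_zero_of_mul hne
      have hne3 : Dn ν i m ≠ 0 := by
        rw [h1] at hne
        exact left_ne_zero_of_mul hne
      have h2 : (Dn ν i m)⁻¹ • G (m + 1) + (Dn ν i (m + 1))⁻¹ • ν (m + 1) • G (m + 1) =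
          ν i • (Dn ν i (m + 1))⁻¹ • G (m + 1) := by
        rw [smul_smul, smul_smul, ← add_smul]
        congr 1
        rw [h1]
        field_simp
        ring
      rw [← h2]
      abel
  have h := key L hi le_rfl
  rw [hG, smul_zero, add_zero] at h
  exact h

end Pool.Agent.Q191.FT
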