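import Pool.Agent.Q191.FT.Cas

/-!
# The `q`-identity behind the action of the braiding on highest weight vectors
-/

set_option autoImplicit false

namespace Pool.Agent.Q191.FT

open Matrix Finset
open scoped Kronecker
open Pool.Agent.H550R3.Jones (WM IsMod IsInt Gen br brf tens irr nb)
open Pool.Agent.H897R.J (HasWt gen_br gen_v br_neg br_zero wt_F)

variable {ι : Type} [Fintype ι] [DecidableEq ι]

/-- a term of the sum -/
noncomputable def Tm (v : ℂ) (n k : ℕ) (β : ℤ) : ℂ :=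
  (-1) ^ n * (v ^ (n * (n - 1) / 2) / brf v n) * v ^ (-(n : ℤ) * (β - k - 1) - n * (n + 1)) *
    ∏ j ∈ range n, (br v (β + j) * br v ((k : ℤ) - j))

theorem brf_succ (v : ℂ) (m : ℕ) : brf v (m + 1) = brf v m * br v ((m : ℤ) + 1) := by
  unfold brf; rw [prod_range_succ]

theorem br_pascal {v : ℂ} (hv : v ≠ 0) (k n : ℤ) :
    br v (k + 1) = v ^ (-(n + 1)) * br v (k - n) + v ^ (k - n) * br v (n + 1) := by
  unfold br
  rw [mul_sub, mul_sub, ← zpow_add₀ hv, ← zpow_add₀ hv, ← zpow_add₀ hv, ← zpow_add₀ hv]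
  have e1 : -(n + 1) + (k - n) = k - n + -(n + 1) := by ring
  have e2 : -(n + 1) + -(k - n) = -(k + 1) := by ring
  have e3 : k - n + (n + 1) = k + 1 := by ring
  rw [e1, e2, e3]
  ring

theorem tri_succ (n : ℕ) : (n + 1) * (n + 1 - 1) / 2 = n * (n - 1) / 2 + n := by
  have : (n + 1) * (n + 1 - 1) = n * (n - 1) + n * 2 := by
    rcases n with _ | n
    · rfl
    · simp only [Nat.add_sub_cancel]; ring
  rw [this, Nat.add_mul_div_right _ _ two_pos]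

theorem Tm_succ {v : ℂ} (hv : v ≠ 0) {n k : ℕ} (hb : brf v (n + 1) ≠ 0) (β : ℤ) :
    Tm v (n + 1) (k + 1) β = Tm v (n + 1) k β - v ^ (2 * (k : ℤ) - β) * br v β * Tm v n k (β + 1) := by
  unfold Tm
  have hb0 : brf v n ≠ 0 := by
    rw [brf_succ] at hb; exact left_ne_zero_of_mul hb
  have hb1 : br v ((n : ℤ) + 1) ≠ 0 := by
    rw [brf_succ] at hb; exact right_ne_zero_of_mul hb
  rw [brf_succ, tri_succ, prod_mul_distrib, prod_mul_distrib, prod_mul_distrib]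
  have p1 : ∏ j ∈ range (n + 1), br v (β + j) = br v β * ∏ j ∈ range n, br v (β + 1 + j) := by
    rw [prod_range_succ', mul_comm]
    congr 1
    · simp
    · refine prod_congr rfl fun j _ => ?_
      congr 1; push_cast; ring
  have p2 : ∏ j ∈ range (n + 1), br v (((k + 1 : ℕ) : ℤ) - j) =
      br v ((k : ℤ) + 1) * ∏ j ∈ range n, br v ((k : ℤ) - j) := by
    rw [prod_range_succ', mul_comm]
    have hj : ∀ j : ℕ, ((k + 1 : ℕ) : ℤ) - ((j + 1 : ℕ) : ℤ) = (k : ℤ) - j := by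
      intro j; push_cast; ring
    have h0 : ((k + 1 : ℕ) : ℤ) - ((0 : ℕ) : ℤ) = (k : ℤ) + 1 := by push_cast; ring
    rw [h0]
    congr 1
    exact prod_congr rfl fun j _ => by rw [hj]
  have p3 : ∏ j ∈ range (n + 1), br v ((k : ℤ) - j) =
      (∏ j ∈ range n, br v ((k : ℤ) - j)) * br v ((k : ℤ) - n) := prod_range_succ _ _
  rw [p1, p2, p3, br_pascal hv k n]
  set A := ∏ j ∈ range n, br v (β + 1 + j) with hA
  set B := ∏ j ∈ range n, br v ((k : ℤ) - j) with hB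
  set e : ℤ := -((n + 1 : ℕ) : ℤ) * (β - k - 1) - ((n + 1 : ℕ) : ℤ) * ((n + 1 : ℕ) + 1) with he
  have e1 : -((n + 1 : ℕ) : ℤ) * (β - ((k + 1 : ℕ) : ℤ) - 1) -
      ((n + 1 : ℕ) : ℤ) * ((n + 1 : ℕ) + 1) = e + (n + 1) := by
    rw [he]; push_cast; ring
  have e2 : -(n : ℤ) * (β + 1 - k - 1) - n * (n + 1) = e + n + k + 1 - (2 * k - β) := by
    rw [he]; push_cast; ring
  rw [e1, e2]
  have z1 : v ^ (e + ((n : ℤ) + 1)) = v ^ e * v ^ n * v := by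
    rw [zpow_add₀ hv, zpow_add₀ hv, zpow_natCast, zpow_one]; ring
  have z2 : v ^ (e + n + (k : ℤ) + 1 - (2 * k - β)) =
      v ^ e * v ^ n * v ^ k * v * (v ^ (2 * (k : ℤ) - β))⁻¹ := by
    rw [zpow_sub₀ hv, zpow_add₀ hv, zpow_add₀ hv, zpow_add₀ hv, zpow_natCast,
      zpow_natCast, zpow_one, div_eq_mul_inv]
  have z3 : v ^ (-((n : ℤ) + 1)) = (v ^ n)⁻¹ * v⁻¹ := by
    rw [_root_.zpow_neg, zpow_add₀ hv, zpow_natCast, zpow_one, mul_inv]
  have z4 : v ^ ((k : ℤ) - n) = v ^ k * (v ^ n)⁻¹ := by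
    rw [zpow_sub₀ hv, zpow_natCast, zpow_natCast, div_eq_mul_inv]
  rw [z1, z2, z3, z4]
  have hn0 : v ^ n ≠ 0 := pow_ne_zero _ hv
  have hw0 : v ^ (2 * (k : ℤ) - β) ≠ 0 := zpow_ne_zero _ hv
  rw [pow_succ (-1 : ℂ), pow_add v]
  field_simp
  ring

theorem Tm_zero (v : ℂ) (k : ℕ) (β : ℤ) : Tm v 0 k β = 1 := by
  simp [Tm, brf]

theorem Tm_lt {v : ℂ} {n k : ℕ} (h : k < n) (β : ℤ) : Tm v n k β = 0 := by
  unfold Tm
  rw [prod_eq_zero (mem_range.2 h), mul_zero]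
  rw [sub_self, br_zero, mul_zero]

/-- the identity -/
theorem sum_Tm {v : ℂ} (hv : v ≠ 0) (hb : ∀ n, brf v n ≠ 0) (k : ℕ) : ∀ (L : ℕ) (β : ℤ), k < L →
    ∑ n ∈ range L, Tm v n k β = v ^ (-(2 * (k : ℤ) * β)) := by
  induction k with
  | zero =>
    intro L β hL
    rw [sum_eq_single_of_mem 0 (by simp; omega)]
    · rw [Tm_zero]; simp
    · intro n _ hn
      exact Tm_lt (by omega) β
  | succ k ih =>
    intro L β hL
    obtain ⟨L, rfl⟩ : ∃ L', L = L' + 1 := ⟨L - 1, by omega⟩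
    rw [sum_range_succ']
    have h1 : ∀ n ∈ range L, Tm v (n + 1) (k + 1) β =
        Tm v (n + 1) k β - v ^ (2 * (k : ℤ) - β) * br v β * Tm v n k (β + 1) :=
      fun n _ => Tm_succ hv (hb _) β
    rw [sum_congr rfl h1, sum_sub_distrib, ← mul_sum, ih L (β + 1) (by omega)]
    have h2 := ih (L + 1) β (by omega)
    rw [sum_range_succ', Tm_zero] at h2
    rw [Tm_zero]
    have h3 : ∑ n ∈ range L, Tm v (n + 1) k β = v ^ (-(2 * (k : ℤ) * β)) - 1 := by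
      rw [← h2]; ring
    rw [h3]
    unfold br
    have e1 : v ^ (2 * (k : ℤ) - β) = v ^ (2 * (k : ℤ)) * (v ^ β)⁻¹ := by
      rw [zpow_sub₀ hv, div_eq_mul_inv]
    have e2 : v ^ (-(2 * (k : ℤ) * (β + 1))) = v ^ (-(2 * (k : ℤ) * β)) * (v ^ (2 * (k : ℤ)))⁻¹ := by
      rw [← _root_.zpow_neg, ← zpow_add₀ hv]; congr 1; ring
    have e3 : v ^ (-(2 * ((k + 1 : ℕ) : ℤ) * β)) =
        v ^ (-(2 * (k : ℤ) * β)) * ((v ^ β)⁻¹ * (v ^ β)⁻¹) := by
      rw [← _root_.zpow_neg, ← zpow_add₀ hv, ← zpow_add₀ hv]; congr 1; push_cast; ring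
    rw [e1, e2, e3, _root_.zpow_neg v β]
    have n1 : v ^ (2 * (k : ℤ)) ≠ 0 := zpow_ne_zero _ hv
    have n2 : v ^ β ≠ 0 := zpow_ne_zero _ hv
    field_simp
    ring

/-- `K⁻¹ E` -/
noncomputable def KiE (v : ℂ) (M : WM ι) : Matrix ι ι ℂ := M.K v (-1) * M.E

theorem KiE_vec {v : ℂ} {M : WM ι} (hM : IsMod v M) {μ : ℤ} {x : ι → ℂ} (hx : HasWt M μ x) :
    KiE v M *ᵥ x = v ^ (-(μ + 2)) • (M.E *ᵥ x) := by
  unfold KiE WM.K
  rw [← mulVec_mulVec]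
  ext i
  rw [mulVec_diagonal, Pi.smul_apply, smul_eq_mul]
  by_cases hi : (M.E *ᵥ x) i = 0
  · simp [hi]
  · rw [wt_E hM hx i hi]
    congr 2
    ring

theorem KiE_pow {v : ℂ} (hv : v ≠ 0) {M : WM ι} (hM : IsMod v M) {μ : ℤ} {x : ι → ℂ}
    (hx : HasWt M μ x) (n : ℕ) :
    KiE v M ^ n *ᵥ x = v ^ (-(n : ℤ) * μ - n * (n + 1)) • (M.E ^ n *ᵥ x) := by
  induction n with
  | zero => simp
  | succ n ih =>
    rw [pow_succ', ← mulVec_mulVec, ih, mulVec_smul, KiE_vec hM (wt_Epow hM hx n), smul_smul,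
      ← zpow_add₀ hv, mulVec_mulVec, ← pow_succ']
    congr 2
    push_cast; ring

/-- the sum over the second factor -/
theorem sum_FKE {u : ℂ} (hu : Gen u) {M : WM ι} (hM : IsMod (u ^ 2) M) {k : ℕ} {β : ℤ} {x : ι → ℂ}
    (hx : HasWt M (β - k - 1) x) (ha : Cas (u ^ 2) M *ᵥ x = lam (u ^ 2) (β + k) • x) {L : ℕ}
    (hL : k < L) :
    ∑ n ∈ range L, ((-1) ^ n * ((u ^ 2) ^ (n * (n - 1) / 2) / brf (u ^ 2) n)) •
      (M.F ^ n *ᵥ (KiE (u ^ 2) M ^ n *ᵥ x)) = (u ^ 2) ^ (-(2 * (k : ℤ) * β)) • x := by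
  have hv : u ^ 2 ≠ 0 := gen_v hu
  have hb : ∀ n, brf (u ^ 2) n ≠ 0 := by
    intro n
    unfold brf
    rw [prod_ne_zero_iff]
    intro j _
    exact gen_br hu (by omega)
  rw [← sum_Tm hv hb k L β hL, sum_smul]
  refine sum_congr rfl fun n _ => ?_
  rw [KiE_pow hv hM hx, mulVec_smul, G_eig hv hM hx ha, smul_smul, smul_smul]
  congr 1
  unfold Tm
  have h1 : ∏ j ∈ range n, (lam (u ^ 2) (β + k) - lam (u ^ 2) (β - k - 1 + 1 + 2 * j)) =
      ∏ j ∈ range n, (br (u ^ 2) (β + j) * br (u ^ 2) ((k : ℤ) - j)) := by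
    refine prod_congr rfl fun j _ => ?_
    rw [← lam_sub hv]
    congr 2 <;> ring
  rw [h1]

end Pool.Agent.Q191.FT
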