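import Pool.Agent.Q191.FT.Ent

/-!
# Operators which act by scalars on the eigenspaces of the Casimir operator
-/

set_option autoImplicit false

namespace Pool.Agent.Q191.FT

open Matrix Finset
open Pool.Agent.H550R3.Jones (WM IsMod IsInt Gen br brf tens irr nb R Rh Rhi crossP crossN)
open Pool.Agent.H897R.J (HasWt gen_br gen_v br_neg br_zero wt_F)

variable {ι : Type} [Fintype ι] [DecidableEq ι]

/-- `T` acts on the eigenspace of the Casimir operator for `lam c` by the scalar `f c` -/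
def Sc (u : ℂ) (M : WM ι) (T : Matrix ι ι ℂ) (p : ℤ) (f : ℤ → ℂ) : Prop :=
  ∀ (c : ℤ), (2 : ℤ) ∣ c - (p + 1) → ∀ y : ι → ℂ, Cas (u ^ 2) M *ᵥ y = lam (u ^ 2) c • y →
    T *ᵥ y = f c • y

theorem Rib.sc {u : ℂ} {M : WM ι} {T : Matrix ι ι ℂ} {s p t : ℤ} (h : Rib u M T s p t) :
    Sc u M T p (fun c => u ^ (s * (c ^ 2 - 1 - t))) := h

theorem Sc.one {u : ℂ} {M : WM ι} {p : ℤ} : Sc u M (1 : Matrix ι ι ℂ) p (fun _ => 1) := by
  intro c _ y _
  rw [one_mulVec, one_smul]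

theorem Sc.mul {u : ℂ} {M : WM ι} {T T' : Matrix ι ι ℂ} {p : ℤ} {f g : ℤ → ℂ}
    (h : Sc u M T p f) (h' : Sc u M T' p g) : Sc u M (T * T') p (fun c => f c * g c) := by
  intro c hc y hy
  rw [← mulVec_mulVec, h' c hc y hy, mulVec_smul, h c hc y hy, smul_smul, mul_comm]

theorem Sc.pow {u : ℂ} {M : WM ι} {T : Matrix ι ι ℂ} {p : ℤ} {f : ℤ → ℂ}
    (h : Sc u M T p f) : ∀ m : ℕ, Sc u M (T ^ m) p (fun c => f c ^ m)
  | 0 => by
    simp only [pow_zero]
    exact Sc.one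
  | m + 1 => by
    simp only [pow_succ]
    exact (h.pow m).mul h

theorem Sc.smul {u : ℂ} {M : WM ι} {T : Matrix ι ι ℂ} {p : ℤ} {f : ℤ → ℂ}
    (h : Sc u M T p f) (a : ℂ) : Sc u M (a • T) p (fun c => a * f c) := by
  intro c hc y hy
  rw [smul_mulVec, h c hc y hy, smul_smul]

/-- from highest weight vectors to all vectors -/
theorem sc_of_hw {u : ℂ} (hu : Gen u) {M : WM ι} (hM : IsMod (u ^ 2) M) {T : Matrix ι ι ℂ}
    (hT : IsInt M M T) {p : ℤ} {f : ℤ → ℂ} (hf : ∀ c, f (-c) = f c)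
    (hp : ∀ i, (2 : ℤ) ∣ M.wt i - p)
    (h : ∀ (c : ℤ) (y : ι → ℂ), HasWt M (c - 1) y → M.E *ᵥ y = 0 →
      T *ᵥ y = f c • y) : Sc u M T p f := by
  have hTw : ∀ i j, T i j ≠ 0 → M.wt i = M.wt j := hT.k
  -- weight vectors, downward induction
  obtain ⟨B, hB⟩ := exists_B M
  have key : ∀ (c : ℤ), (2 : ℤ) ∣ c - (p + 1) → ∀ (n : ℕ) (μ : ℤ) (x : ι → ℂ), B - μ ≤ n → HasWt M μ x →
      Cas (u ^ 2) M *ᵥ x = lam (u ^ 2) c • x → T *ᵥ x = f c • x := by
    intro c hc n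
    -- the case of a highest weight vector
    have hhw : ∀ (μ : ℤ) (x : ι → ℂ), HasWt M μ x → M.E *ᵥ x = 0 →
        Cas (u ^ 2) M *ᵥ x = lam (u ^ 2) c • x → x ≠ 0 → μ + 1 = c ∨ μ + 1 = -c := by
      intro μ x hx h0 hC hx0
      rw [Cas_vec hx, h0, mulVec_zero, zero_add] at hC
      have h1 : (lam (u ^ 2) (μ + 1) - lam (u ^ 2) c) • x = 0 := by rw [sub_smul, hC, sub_self]
      have h2 := (smul_eq_zero.mp h1).resolve_right hx0
      by_contra hcon
      push Not at hcon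
      obtain ⟨i, hi⟩ : ∃ i, x i ≠ 0 := by
        by_contra hh
        push Not at hh
        exact hx0 (funext hh)
      obtain ⟨k, hk⟩ := hp i
      rw [hx i hi] at hk
      obtain ⟨k', hk'⟩ := hc
      exact lam_ne hu hcon.1 hcon.2 ⟨k - k', by linarith⟩ (sub_eq_zero.1 h2)
    induction n with
    | zero =>
      intro μ x hμ hx hC
      by_cases hx0 : x = 0
      · rw [hx0, mulVec_zero, smul_zero]
      have h0 : M.E *ᵥ x = 0 := by
        have := Epow_nil hM hx hB (n := 1) (by push_cast at hμ ⊢; omega)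
        rwa [pow_one] at this
      rcases hhw μ x hx h0 hC hx0 with h1 | h1
      · rw [← h1]
        exact h (μ + 1) x (by rwa [add_sub_cancel_right]) h0
      · have := h (μ + 1) x (by rwa [add_sub_cancel_right]) h0
        rwa [h1, hf] at this
    | succ n ih =>
      intro μ x hμ hx hC
      by_cases hx0 : x = 0
      · rw [hx0, mulVec_zero, smul_zero]
      by_cases h0 : M.E *ᵥ x = 0
      · rcases hhw μ x hx h0 hC hx0 with h1 | h1
        · rw [← h1]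
          exact h (μ + 1) x (by rwa [add_sub_cancel_right]) h0
        · have := h (μ + 1) x (by rwa [add_sub_cancel_right]) h0
          rwa [h1, hf] at this
      -- the difference is a highest weight vector
      have hE : T *ᵥ (M.E *ᵥ x) = f c • (M.E *ᵥ x) := by
        refine ih (μ + 2) _ (by push_cast at hμ ⊢; omega) (wt_E hM hx) ?_
        rw [mulVec_mulVec, Cas_E (gen_v hu) hM, ← mulVec_mulVec, hC, mulVec_smul]
      set z := T *ᵥ x - f c • x with hz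
      have hTx : HasWt M μ (T *ᵥ x) := by
        intro i hi
        rw [mulVec, dotProduct] at hi
        obtain ⟨j, _, hj⟩ := exists_ne_zero_of_sum_ne_zero hi
        rw [hTw i j (left_ne_zero_of_mul hj)]
        exact hx j (right_ne_zero_of_mul hj)
      have hzw : HasWt M μ z := by
        intro i hi
        by_contra hcon
        apply hi
        rw [hz, Pi.sub_apply, Pi.smul_apply]
        have e1 : (T *ᵥ x) i = 0 := by
          by_contra hh; exact hcon (hTx i hh)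
        have e2 : x i = 0 := by
          by_contra hh; exact hcon (hx i hh)
        rw [e1, e2, smul_zero, sub_zero]
      have hzE : M.E *ᵥ z = 0 := by
        rw [hz, mulVec_sub, mulVec_smul, mulVec_mulVec, ← hT.e, ← mulVec_mulVec, hE, sub_self]
      have hzC : Cas (u ^ 2) M *ᵥ z = lam (u ^ 2) c • z := by
        have e1 : Cas (u ^ 2) M * T = T * Cas (u ^ 2) M := by
          unfold Cas
          rw [add_mul, mul_add, Matrix.mul_assoc, ← hT.e, ← Matrix.mul_assoc, ← hT.f,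
            Matrix.mul_assoc]
          congr 1
          ext i j
          rw [diagonal_mul, mul_diagonal]
          by_cases hij : T i j = 0
          · rw [hij]; ring
          · rw [hTw i j hij]; ring
        rw [hz, mulVec_sub, mulVec_mulVec, e1, ← mulVec_mulVec, hC, mulVec_smul, mulVec_smul, hC,
          smul_sub, smul_comm]
      by_cases hz0 : z = 0
      · exact sub_eq_zero.1 hz0
      exfalso
      have hμ0 : 0 ≤ μ := by
        by_contra hneg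
        exact hz0 (hw_neg hu hM hzw hzE (by omega))
      have hc1 := hhw μ z hzw hzE hzC hz0
      have hlam : lam (u ^ 2) (μ + 1) = lam (u ^ 2) c := by
        rcases hc1 with h1 | h1
        · rw [h1]
        · rw [h1, lam_neg]
      have hF : M.F *ᵥ (M.E *ᵥ x) = 0 := by
        have e1 := Cas_vec (v := u ^ 2) hx
        rw [hC, hlam] at e1
        have e2 : M.F *ᵥ (M.E *ᵥ x) + lam (u ^ 2) c • x = 0 + lam (u ^ 2) c • x := by
          rw [← e1, zero_add]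
        exact add_right_cancel e2
      exact h0 (lw_pos hu hM (wt_E hM hx) hF (by omega))
  intro c hc y hy
  rw [sum_comp M y, mulVec_sum, smul_sum]
  refine sum_congr rfl fun μ _ => ?_
  refine key c hc (B - μ).toNat μ _ (Int.self_le_toNat _) (comp_wt M μ y) ?_
  rw [comp_mulVec (fun i j => Cas_wt hM), hy]
  funext i
  by_cases h : M.wt i = μ
  · simp [comp, h]
  · simp [comp, h]

theorem sc_formula {u : ℂ} (hu : Gen u) {M : WM ι} (hM : IsMod (u ^ 2) M) {T : Matrix ι ι ℂ}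
    {p : ℤ} {f : ℤ → ℂ} (hR : Sc u M T p f) {x : ι → ℂ} {μ : ℤ} (hμ : 0 ≤ μ) (hx : HasWt M μ x)
    (hp : (2 : ℤ) ∣ μ - p) {L : ℕ} (hL : M.E ^ (L + 1) *ᵥ x = 0) :
    T *ᵥ x = ∑ i ∈ range (L + 1), f (μ + 1 + 2 * i) • yy (nu (u ^ 2) μ) (GG M x) L i := by
  conv_lhs => rw [← sum_GG hu hμ x L (M := M)]
  rw [mulVec_sum]
  refine sum_congr rfl fun i hi => ?_
  rw [mem_range] at hi
  refine hR _ ?_ _ (Cas_yy hu hM hμ hx hL (by omega))
  obtain ⟨k, hk⟩ := hp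
  exact ⟨k + i, by linarith⟩

/-- the columns of nonnegative weight -/
theorem sc_ent_pos {u : ℂ} (hu : Gen u) {M : WM ι} (hM : IsMod (u ^ 2) M) {T : Matrix ι ι ℂ}
    {p : ℤ} {f : ℤ → ℂ} (hR : Sc u M T p f) {B : ℝ} (hB0 : 0 ≤ B) (hDB : DBp (u ^ 2) M B) {A : ℕ}
    (hA : ∀ i, |M.wt i| ≤ A) {t0 : ι} (hμ : 0 ≤ M.wt t0) (hp : (2 : ℤ) ∣ M.wt t0 - p)
    {Θ Q : ℝ} (hΘ : ∀ c : ℕ, c ≤ 3 * A + 1 → ‖f c‖ ≤ Θ)
    (hQ0 : 0 ≤ Q)
    (hQ : ∀ μ i l : ℕ, μ ≤ A → i ≤ l → l ≤ A →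
      ga (-2 * μ) * ‖brf (u ^ 2) l‖ ^ 2 *
          (‖brf (u ^ 2) (μ + i)‖ * ‖br (u ^ 2) ((μ : ℤ) + 1 + 2 * i)‖) ≤
        Q * (‖brf (u ^ 2) (μ + 1 + i + l)‖ * (‖brf (u ^ 2) i‖ * ‖brf (u ^ 2) (l - i)‖)))
    (s0 : ι) :
    ‖T s0 t0‖ ≤ ((A : ℝ) + 1) ^ 2 * (Θ * (Fintype.card ι * B ^ 2 * Q)) := by
  have hv := gen_v hu
  obtain ⟨μ, hμe⟩ := Int.eq_ofNat_of_zero_le hμ
  have hμA : μ ≤ A := by
    have := (abs_le.1 (hA t0)).2
    omega
  have hx : HasWt M μ (Pi.single t0 1) := by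
    intro i hi
    by_cases h : i = t0
    · rw [h, hμe]
    · exact absurd (by rw [Pi.single_apply, if_neg h]) hi
  have hL : M.E ^ (A + 1) *ᵥ Pi.single t0 (1 : ℂ) = 0 :=
    Epow_nil hM hx (B := A) (fun i => (abs_le.1 (hA i)).2) (by push_cast; omega)
  rw [hμe] at hp
  have h := congrFun (sc_formula hu hM hR (Int.natCast_nonneg μ) hx hp hL) s0
  rw [mulVec_single_one] at h
  change T s0 t0 = _ at h
  have hΘ0 : 0 ≤ Θ := le_trans (norm_nonneg _) (hΘ 0 (by omega))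
  rw [h, Finset.sum_apply]
  have hb : ∀ i ∈ range (A + 1), ‖(f ((μ : ℤ) + 1 + 2 * i) •
      yy (nu (u ^ 2) μ) (GG M (Pi.single t0 1)) A i) s0‖ ≤
      ((A : ℝ) + 1) * (Θ * (Fintype.card ι * B ^ 2 * Q)) := by
    intro i hi
    rw [mem_range] at hi
    rw [Pi.smul_apply, smul_eq_mul, norm_mul]
    have h1 : ‖f ((μ : ℤ) + 1 + 2 * i)‖ ≤ Θ := by
      have := hΘ (μ + 1 + 2 * i) (by omega)
      push_cast at this
      exact this
    have h2 : ‖yy (nu (u ^ 2) μ) (GG M (Pi.single t0 1)) A i s0‖ ≤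
        ((A : ℝ) + 1) * (Fintype.card ι * B ^ 2 * Q) := by
      unfold yy
      rw [Finset.sum_apply]
      refine (norm_sum_le _ _).trans ?_
      have h3 : ∀ l ∈ Ico i (A + 1), ‖((Dn (nu (u ^ 2) μ) i l)⁻¹ • GG M (Pi.single t0 1) l) s0‖ ≤
          Fintype.card ι * B ^ 2 * Q := by
        intro l hl
        rw [mem_Ico] at hl
        rw [Pi.smul_apply, smul_eq_mul, norm_mul, norm_inv]
        have hDne : Dn (nu (u ^ 2) μ) i l ≠ 0 :=
          Dn_ne (L := A) ((nu_inj hu (Int.natCast_nonneg μ)).injOn) (by omega) (by omega)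
        have hD := norm_pos_iff.2 hDne
        rw [inv_mul_le_iff₀ hD]
        have h4 := norm_Dn hv μ hl.1
        have h5 := hQ μ i l hμA hl.1 (by omega)
        rw [← h4] at h5
        have hpos : 0 < ‖brf (u ^ 2) (μ + i)‖ * ‖br (u ^ 2) ((μ : ℤ) + 1 + 2 * i)‖ := by
          have := norm_pos_iff.2 (Pool.Agent.H559R3.J.brf_ne hu (μ + i))
          have := norm_pos_iff.2 (gen_br hu (n := (μ : ℤ) + 1 + 2 * i) (by omega))
          positivity
        have h6 : ga (-2 * μ) * ‖brf (u ^ 2) l‖ ^ 2 ≤ Q * ‖Dn (nu (u ^ 2) μ) i l‖ := by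
          have : ga (-2 * μ) * ‖brf (u ^ 2) l‖ ^ 2 *
              (‖brf (u ^ 2) (μ + i)‖ * ‖br (u ^ 2) ((μ : ℤ) + 1 + 2 * i)‖) ≤
              (Q * ‖Dn (nu (u ^ 2) μ) i l‖) *
                (‖brf (u ^ 2) (μ + i)‖ * ‖br (u ^ 2) ((μ : ℤ) + 1 + 2 * i)‖) := by
            linarith
          exact le_of_mul_le_mul_right this hpos
        have h7 := norm_GG hM hB0 hDB s0 t0 l
        rw [hμe] at h7
        calc ‖GG M (Pi.single t0 1) l s0‖ ≤
              Fintype.card ι * B ^ 2 * (ga (-2 * μ) * ‖brf (u ^ 2) l‖ ^ 2) := h7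
          _ ≤ Fintype.card ι * B ^ 2 * (Q * ‖Dn (nu (u ^ 2) μ) i l‖) := by gcongr
          _ = _ := by ring
      refine (sum_le_sum h3).trans ?_
      rw [sum_const, Nat.card_Ico, nsmul_eq_mul]
      have h7 : ((A + 1 - i : ℕ) : ℝ) ≤ (A : ℝ) + 1 := by
        have : A + 1 - i ≤ A + 1 := by omega
        exact_mod_cast this
      gcongr
    calc _ ≤ Θ * (((A : ℝ) + 1) * (Fintype.card ι * B ^ 2 * Q)) :=
          mul_le_mul h1 h2 (norm_nonneg _) hΘ0
      _ = _ := by ring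
  refine (norm_sum_le _ _).trans ((sum_le_sum hb).trans ?_)
  rw [sum_const, card_range, nsmul_eq_mul]
  push_cast
  exact le_of_eq (by ring)

/-- all entries -/
theorem sc_ent {u : ℂ} (hu : Gen u) {M : WM ι} (hM : IsMod (u ^ 2) M) {T : Matrix ι ι ℂ}
    {p : ℤ} {f : ℤ → ℂ} (hR : Sc u M T p f) {B : ℝ} (hB0 : 0 ≤ B) (hDB : DBp (u ^ 2) M B)
    (hDB' : DBn (u ^ 2) M B) {A : ℕ}
    (hA : ∀ i, |M.wt i| ≤ A) (hp : ∀ i, (2 : ℤ) ∣ M.wt i - p)
    {Θ Q : ℝ} (hΘ : ∀ c : ℕ, c ≤ 3 * A + 1 → ‖f c‖ ≤ Θ)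
    (hQ0 : 0 ≤ Q)
    (hQ : ∀ μ i l : ℕ, μ ≤ A → i ≤ l → l ≤ A →
      ga (-2 * μ) * ‖brf (u ^ 2) l‖ ^ 2 *
          (‖brf (u ^ 2) (μ + i)‖ * ‖br (u ^ 2) ((μ : ℤ) + 1 + 2 * i)‖) ≤
        Q * (‖brf (u ^ 2) (μ + 1 + i + l)‖ * (‖brf (u ^ 2) i‖ * ‖brf (u ^ 2) (l - i)‖)))
    (s0 t0 : ι) :
    ‖T s0 t0‖ ≤ ((A : ℝ) + 1) ^ 2 * (Θ * (Fintype.card ι * B ^ 2 * Q)) := by
  rcases le_total 0 (M.wt t0) with h | h
  · exact sc_ent_pos hu hM hR hB0 hDB hA h (hp t0) hΘ hQ0 hQ s0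
  · refine sc_ent_pos hu (dual_mod hM) (p := p) (f := f) ?_ hB0 ?_ (fun i => ?_) ?_ ?_ hΘ hQ0 hQ s0
    · intro c hc y hy
      rw [Cas_dual (gen_v hu) hM] at hy
      exact hR c hc y hy
    · exact DBn_dual hDB'
    · change |-M.wt i| ≤ A
      rw [abs_neg]
      exact hA i
    · change 0 ≤ -M.wt t0
      omega
    · change (2 : ℤ) ∣ -M.wt t0 - p
      obtain ⟨k, hk⟩ := hp t0
      exact ⟨-k - p, by linarith⟩

end Pool.Agent.Q191.FT
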