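import Pool.Agent.Q191.FT.Hw
import Pool.Agent.Q191.FT.Newton
import Pool.Agent.H559R3.J.Cross

/-!
# Full twists: adding one strand
-/

set_option autoImplicit false

namespace Pool.Agent.Q191.FT

open Matrix Finset
open scoped Kronecker
open Pool.Agent.H550R3.Jones (WM IsMod IsInt Gen br brf tens irr nb R Rh Rhi crossP crossN)
open Pool.Agent.H897R.J (HasWt gen_br gen_v br_neg br_zero wt_F)

variable {ι κ : Type} [Fintype ι] [DecidableEq ι] [Fintype κ] [DecidableEq κ]

/-- a matrix of two strands acting on the last two of `k + 2` strands -/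
def last2 (A : Matrix (κ × κ) (κ × κ) ℂ) :
    Matrix ((ι × κ) × κ) ((ι × κ) × κ) ℂ :=
  fun p q => if p.1.1 = q.1.1 then A (p.1.2, p.2) (q.1.2, q.2) else 0

/-- the last of `k + 1` strands runs around the others: induction step -/
def jstep (A : Matrix (κ × κ) (κ × κ) ℂ) (J : Matrix (ι × κ) (ι × κ) ℂ) :
    Matrix ((ι × κ) × κ) ((ι × κ) × κ) ℂ :=
  last2 A * (J ⊗ₖ (1 : Matrix κ κ ℂ)) * last2 A

/-- full twists: induction step -/
def tstep (T : Matrix ι ι ℂ) (J : Matrix (ι × κ) (ι × κ) ℂ) : Matrix (ι × κ) (ι × κ) ℂ :=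
  (T ⊗ₖ (1 : Matrix κ κ ℂ)) * J

theorem jstep_apply (A : Matrix (κ × κ) (κ × κ) ℂ) (J : Matrix (ι × κ) (ι × κ) ℂ)
    (i : ι) (a l : κ) (i' : ι) (a' l' : κ) :
    jstep A J ((i, a), l) ((i', a'), l') =
      ∑ k1 : κ, ∑ m : κ, ∑ m' : κ, A (a, l) (m, k1) * J (i, m) (i', m') * A (m', k1) (a', l') := by
  unfold jstep
  rw [mul_apply, Fintype.sum_prod_type, Fintype.sum_prod_type]
  rw [sum_eq_single i']
  · rw [sum_comm]
    have e1 : ∀ (k1 m' : κ),
        ((last2 A : Matrix ((ι × κ) × κ) ((ι × κ) × κ) ℂ) * (J ⊗ₖ (1 : Matrix κ κ ℂ))) ((i, a), l)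
          ((i', m'), k1) = ∑ m : κ, A (a, l) (m, k1) * J (i, m) (i', m') := by
      intro k1 m'
      rw [mul_apply, Fintype.sum_prod_type, Fintype.sum_prod_type, sum_eq_single i]
      · refine sum_congr rfl fun m _ => ?_
        rw [sum_eq_single k1]
        · rw [last2, if_pos rfl, kroneckerMap_apply, one_apply_eq, mul_one]
        · intro b _ hb
          rw [kroneckerMap_apply, one_apply_ne hb, mul_zero, mul_zero]
        · intro h; exact absurd (mem_univ _) h
      · intro x _ hx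
        refine sum_eq_zero fun m _ => sum_eq_zero fun b _ => ?_
        rw [last2, if_neg (fun h => hx h.symm), zero_mul]
      · intro h; exact absurd (mem_univ _) h
    refine sum_congr rfl fun k1 _ => ?_
    simp only [e1, last2, if_true, sum_mul]
    rw [sum_comm]
  · intro x _ hx
    refine sum_eq_zero fun b _ => sum_eq_zero fun c _ => ?_
    rw [last2, if_neg hx, mul_zero]
  · intro h; exact absurd (mem_univ _) h

theorem D_step {u : ℂ} (hu : Gen u) {M : WM ι} {V : WM κ} (hM : IsMod (u ^ 2) M)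
    (hV : IsMod (u ^ 2) V) : jstep (Rh u V V) (Rh u V M * Rh u M V) =
      Rh u V (tens (u ^ 2) M V) * Rh u (tens (u ^ 2) M V) V := by
  have h1 := Pool.Agent.H667J.taskHex1 u hu ι κ κ M V V hM hV hV
  have h2 := Pool.Agent.H667J.taskHex2 u hu ι κ κ M V V hM hV hV
  ext ⟨⟨i, a⟩, l⟩ ⟨⟨i', a'⟩, l'⟩
  rw [jstep_apply, mul_apply, Fintype.sum_prod_type]
  simp only [Fintype.sum_prod_type, h1, h2, mul_apply, sum_mul, mul_sum]
  symm
  rw [sum_congr rfl fun l1 _ => sum_comm]
  rw [sum_comm]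
  refine sum_congr rfl fun k1 _ => ?_
  rw [sum_congr rfl fun l1 _ => sum_congr rfl fun i1 _ => sum_comm]
  rw [sum_congr rfl fun l1 _ => sum_comm]
  rw [sum_comm]
  refine sum_congr rfl fun m _ => ?_
  rw [sum_congr rfl fun l1 _ => sum_comm]
  rw [sum_comm]
  refine sum_congr rfl fun m' _ => sum_congr rfl fun l1 _ => sum_congr rfl fun i1 _ => ?_
  ring

/-- for the inverse braiding -/
theorem Di_step {u : ℂ} (hu : Gen u) {M : WM ι} {V : WM κ} (hM : IsMod (u ^ 2) M)
    (hV : IsMod (u ^ 2) V) : jstep (Rhi u V V) (Rhi u M V * Rhi u V M) =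
      Rhi u (tens (u ^ 2) M V) V * Rhi u V (tens (u ^ 2) M V) := by
  have hT : IsMod (u ^ 2) (tens (u ^ 2) M V) := Pool.Agent.H345J.tens_mod (gen_v hu) hM hV
  have hD := D_step hu hM hV
  have iVV := Pool.Agent.H345J.taskInv u hu κ κ V V hV hV
  have iMV := Pool.Agent.H345J.taskInv u hu ι κ M V hM hV
  have iVM := Pool.Agent.H345J.taskInv u hu κ ι V M hV hM
  have iTV := Pool.Agent.H345J.taskInv u hu (ι × κ) κ _ V hT hV
  have iVT := Pool.Agent.H345J.taskInv u hu κ (ι × κ) V _ hV hT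
  -- `jstep` of the inverses is the inverse
  have hl : ∀ A B : Matrix (κ × κ) (κ × κ) ℂ, (last2 A * last2 B :
      Matrix ((ι × κ) × κ) ((ι × κ) × κ) ℂ) = last2 (A * B) := by
    intro A B
    ext ⟨⟨i, a⟩, l⟩ ⟨⟨i', a'⟩, l'⟩
    rw [mul_apply, Fintype.sum_prod_type, Fintype.sum_prod_type, sum_eq_single i]
    · unfold last2
      simp only [if_true]
      by_cases h : i = i'
      · simp only [h, if_true]
        rw [mul_apply, Fintype.sum_prod_type]
      · simp only [if_neg h, mul_zero, sum_const_zero]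
    · intro x _ hx
      refine sum_eq_zero fun b _ => sum_eq_zero fun c _ => ?_
      unfold last2
      rw [if_neg (fun h => hx h.symm), zero_mul]
    · intro h; exact absurd (mem_univ _) h
  have hl1 : (last2 (1 : Matrix (κ × κ) (κ × κ) ℂ) : Matrix ((ι × κ) × κ) ((ι × κ) × κ) ℂ) = 1 := by
    ext ⟨⟨i, a⟩, l⟩ ⟨⟨i', a'⟩, l'⟩
    unfold last2
    simp only [one_apply, Prod.mk.injEq]
    by_cases h : i = i' <;> simp [h]
  have hmul : jstep (Rhi u V V) (Rhi u M V * Rhi u V M) * jstep (Rh u V V) (Rh u V M * Rh u M V) =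
      (1 : Matrix ((ι × κ) × κ) ((ι × κ) × κ) ℂ) := by
    have hJ : (Rhi u M V * Rhi u V M) * (Rh u V M * Rh u M V) = 1 := by
      rw [Matrix.mul_assoc, ← Matrix.mul_assoc (Rhi u V M), iVM.1, Matrix.one_mul, iMV.1]
    unfold jstep
    calc last2 (Rhi u V V) * ((Rhi u M V * Rhi u V M) ⊗ₖ (1 : Matrix κ κ ℂ)) * last2 (Rhi u V V) *
        (last2 (Rh u V V) * ((Rh u V M * Rh u M V) ⊗ₖ (1 : Matrix κ κ ℂ)) * last2 (Rh u V V))
        = last2 (Rhi u V V) * ((Rhi u M V * Rhi u V M) ⊗ₖ (1 : Matrix κ κ ℂ)) *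
          (last2 (Rhi u V V) * last2 (Rh u V V)) * ((Rh u V M * Rh u M V) ⊗ₖ (1 : Matrix κ κ ℂ)) *
          last2 (Rh u V V) := by simp only [Matrix.mul_assoc]
      _ = 1 := by
        rw [hl, iVV.1, hl1, Matrix.mul_one, Matrix.mul_assoc (last2 (Rhi u V V)),
          ← mul_kronecker_mul, hJ, one_mul, one_kronecker_one, Matrix.mul_one, hl, iVV.1, hl1]
  have h1 : jstep (Rhi u V V) (Rhi u M V * Rhi u V M) * (Rh u V (tens (u ^ 2) M V) *
      Rh u (tens (u ^ 2) M V) V) = 1 := by rw [← hD]; exact hmul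
  have h2 : (Rh u V (tens (u ^ 2) M V) * Rh u (tens (u ^ 2) M V) V) *
      (Rhi u (tens (u ^ 2) M V) V * Rhi u V (tens (u ^ 2) M V)) = 1 := by
    rw [Matrix.mul_assoc, ← Matrix.mul_assoc (Rh u (tens (u ^ 2) M V) V), iTV.2, Matrix.one_mul,
      iVT.2]
  calc jstep (Rhi u V V) (Rhi u M V * Rhi u V M) = jstep (Rhi u V V) (Rhi u M V * Rhi u V M) *
        ((Rh u V (tens (u ^ 2) M V) * Rh u (tens (u ^ 2) M V) V) *
        (Rhi u (tens (u ^ 2) M V) V * Rhi u V (tens (u ^ 2) M V))) := by rw [h2, Matrix.mul_one]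
    _ = _ := by rw [← Matrix.mul_assoc, h1, Matrix.one_mul]

/-! ### Weights, homomorphisms -/

/-- `T` acts on the eigenspaces of the Casimir operator as the power `s` of the ribbon element, up to
the factor `u^(s t)` -/
def Rib (u : ℂ) (M : WM ι) (T : Matrix ι ι ℂ) (s : ℤ) (p t : ℤ) : Prop :=
  ∀ (c : ℤ), (2 : ℤ) ∣ c - (p + 1) → ∀ y : ι → ℂ, Cas (u ^ 2) M *ᵥ y = lam (u ^ 2) c • y →
    T *ᵥ y = u ^ (s * (c ^ 2 - 1 - t)) • y

theorem Cas_wt {v : ℂ} {M : WM ι} (hM : IsMod v M) {i j : ι} (h : Cas v M i j ≠ 0) :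
    M.wt i = M.wt j := by
  unfold Cas at h
  rw [Matrix.add_apply] at h
  by_cases hij : i = j
  · rw [hij]
  rw [diagonal_apply_ne _ hij, add_zero, mul_apply] at h
  obtain ⟨k, _, hk⟩ := exists_ne_zero_of_sum_ne_zero h
  have g1 := hM.hF i k (left_ne_zero_of_mul hk)
  have g2 := hM.hE k j (right_ne_zero_of_mul hk)
  omega

/-- the component of weight `μ` -/
def comp (M : WM ι) (μ : ℤ) (x : ι → ℂ) : ι → ℂ := fun i => if M.wt i = μ then x i else 0

omit [Fintype ι] [DecidableEq ι] in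
theorem comp_wt (M : WM ι) (μ : ℤ) (x : ι → ℂ) : HasWt M μ (comp M μ x) := by
  intro i hi
  by_contra h
  exact hi (if_neg h)

omit [DecidableEq ι] in
theorem sum_comp (M : WM ι) (x : ι → ℂ) : x = ∑ μ ∈ univ.image M.wt, comp M μ x := by
  funext i
  rw [Finset.sum_apply, sum_eq_single (M.wt i)]
  · unfold comp; rw [if_pos rfl]
  · intro μ _ hμ
    unfold comp; rw [if_neg (fun h => hμ h.symm)]
  · intro h
    exact absurd (mem_image_of_mem _ (mem_univ i)) h

omit [DecidableEq ι] in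
/-- operators which preserve the weights commute with the components -/
theorem comp_mulVec {M : WM ι} {A : Matrix ι ι ℂ} (hA : ∀ i j, A i j ≠ 0 → M.wt i = M.wt j) (μ : ℤ)
    (x : ι → ℂ) : A *ᵥ comp M μ x = comp M μ (A *ᵥ x) := by
  funext i
  unfold comp
  rw [mulVec, dotProduct]
  split_ifs with h
  · rw [mulVec, dotProduct]
    refine sum_congr rfl fun j _ => ?_
    by_cases hj : A i j = 0
    · rw [hj]; ring
    · rw [if_pos (by rw [← hA i j hj, h])]
  · refine sum_eq_zero fun j _ => ?_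
    by_cases hj : A i j = 0
    · rw [hj]; ring
    · rw [if_neg (by rw [← hA i j hj]; exact h), mul_zero]

/-- nilpotency -/
theorem E_nil {v : ℂ} {M : WM ι} (hM : IsMod v M) {μ : ℤ} {x : ι → ℂ} (hx : HasWt M μ x) :
    ∃ n : ℕ, M.E ^ n *ᵥ x = 0 := by
  obtain ⟨B, hB⟩ := exists_B M
  exact ⟨(B - μ).toNat + 1, Epow_nil hM hx hB (by push_cast; omega)⟩

theorem Fp_eq (M : WM ι) (x : ι → ℂ) (n : ℕ) :
    Pool.Agent.H897R.J.Fp M x n = M.F ^ n *ᵥ x := by
  induction n with
  | zero => simp [Pool.Agent.H897R.J.Fp]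
  | succ n ih => rw [Pool.Agent.H897R.J.Fp, ih, mulVec_mulVec, ← pow_succ']

theorem hw_neg {u : ℂ} (hg : Gen u) {M : WM ι} (h : IsMod (u ^ 2) M) {μ : ℤ} {x : ι → ℂ}
    (hx : HasWt M μ x) (h0 : M.E *ᵥ x = 0) (hμ : μ < 0) : x = 0 := by
  obtain ⟨n, hn⟩ := E_nil (dual_mod h) (HasWt_dual.2 (by rwa [neg_neg] : HasWt M (- -μ) x))
  refine Pool.Agent.H897R.J.hwNeg hg h hx h0 hμ (B := n) ?_
  rw [Fp_eq]
  exact hn

theorem lw_pos {u : ℂ} (hg : Gen u) {M : WM ι} (h : IsMod (u ^ 2) M) {μ : ℤ} {x : ι → ℂ}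
    (hx : HasWt M μ x) (h0 : M.F *ᵥ x = 0) (hμ : 0 < μ) : x = 0 :=
  hw_neg hg (dual_mod h) (HasWt_dual.2 (by rwa [neg_neg] : HasWt M (- -μ) x)) h0 (by omega)

/-- from highest weight vectors to all vectors -/
theorem rib_of_hw {u : ℂ} (hu : Gen u) {M : WM ι} (hM : IsMod (u ^ 2) M) {T : Matrix ι ι ℂ}
    (hT : IsInt M M T) {s p t : ℤ} (hp : ∀ i, (2 : ℤ) ∣ M.wt i - p)
    (h : ∀ (c : ℤ) (y : ι → ℂ), HasWt M (c - 1) y → M.E *ᵥ y = 0 →
      T *ᵥ y = u ^ (s * (c ^ 2 - 1 - t)) • y) : Rib u M T s p t := by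
  have hTw : ∀ i j, T i j ≠ 0 → M.wt i = M.wt j := hT.k
  -- weight vectors, downward induction
  obtain ⟨B, hB⟩ := exists_B M
  have key : ∀ (c : ℤ), (2 : ℤ) ∣ c - (p + 1) → ∀ (n : ℕ) (μ : ℤ) (x : ι → ℂ), B - μ ≤ n → HasWt M μ x →
      Cas (u ^ 2) M *ᵥ x = lam (u ^ 2) c • x → T *ᵥ x = u ^ (s * (c ^ 2 - 1 - t)) • x := by
    intro c hc n
    -- the case of a highest weight vector
    have hhw : ∀ (μ : ℤ) (x : ι → ℂ), HasWt M μ x → M.E *ᵥ x = 0 →
        Cas (u ^ 2) M *ᵥ x = lam (u ^ 2) c • x → x ≠ 0 → μ + 1 = c ∨ μ + 1 = -c := by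
      intro μ x hx h0 hC hx0
      rw [Cas_vec hx, h0, mulVec_zero, zero_add] at hC
      have h1 : (lam (u ^ 2) (μ + 1) - lam (u ^ 2) c) • x = 0 := by rw [sub_smul, hC, sub_self]
      have h2 := (smul_eq_zero.mp h1).resolve_right hx0
      by_contra hcon
      push Not at hcon
      obtain ⟨i, hi⟩ : ∃ i, x i ≠ 0 := by
        by_contra hh
        push Not at hh
        exact hx0 (funext hh)
      obtain ⟨k, hk⟩ := hp i
      rw [hx i hi] at hk
      obtain ⟨k', hk'⟩ := hc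
      exact lam_ne hu hcon.1 hcon.2 ⟨k - k', by linarith⟩ (sub_eq_zero.1 h2)
    induction n with
    | zero =>
      intro μ x hμ hx hC
      by_cases hx0 : x = 0
      · rw [hx0, mulVec_zero, smul_zero]
      have h0 : M.E *ᵥ x = 0 := by
        have := Epow_nil hM hx hB (n := 1) (by push_cast at hμ ⊢; omega)
        rwa [pow_one] at this
      rcases hhw μ x hx h0 hC hx0 with h1 | h1
      · rw [← h1]
        exact h (μ + 1) x (by rwa [add_sub_cancel_right]) h0
      · have := h (μ + 1) x (by rwa [add_sub_cancel_right]) h0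
        rwa [h1, neg_sq] at this
    | succ n ih =>
      intro μ x hμ hx hC
      by_cases hx0 : x = 0
      · rw [hx0, mulVec_zero, smul_zero]
      by_cases h0 : M.E *ᵥ x = 0
      · rcases hhw μ x hx h0 hC hx0 with h1 | h1
        · rw [← h1]
          exact h (μ + 1) x (by rwa [add_sub_cancel_right]) h0
        · have := h (μ + 1) x (by rwa [add_sub_cancel_right]) h0
          rwa [h1, neg_sq] at this
      -- the difference is a highest weight vector
      have hE : T *ᵥ (M.E *ᵥ x) = u ^ (s * (c ^ 2 - 1 - t)) • (M.E *ᵥ x) := by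
        refine ih (μ + 2) _ (by push_cast at hμ ⊢; omega) (wt_E hM hx) ?_
        rw [mulVec_mulVec, Cas_E (gen_v hu) hM, ← mulVec_mulVec, hC, mulVec_smul]
      set z := T *ᵥ x - u ^ (s * (c ^ 2 - 1 - t)) • x with hz
      have hTx : HasWt M μ (T *ᵥ x) := by
        intro i hi
        rw [mulVec, dotProduct] at hi
        obtain ⟨j, _, hj⟩ := exists_ne_zero_of_sum_ne_zero hi
        rw [hTw i j (left_ne_zero_of_mul hj)]
        exact hx j (right_ne_zero_of_mul hj)
      have hzw : HasWt M μ z := by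
        intro i hi
        by_contra hcon
        apply hi
        rw [hz, Pi.sub_apply, Pi.smul_apply]
        have e1 : (T *ᵥ x) i = 0 := by
          by_contra hh; exact hcon (hTx i hh)
        have e2 : x i = 0 := by
          by_contra hh; exact hcon (hx i hh)
        rw [e1, e2, smul_zero, sub_zero]
      have hzE : M.E *ᵥ z = 0 := by
        rw [hz, mulVec_sub, mulVec_smul, mulVec_mulVec, ← hT.e, ← mulVec_mulVec, hE, sub_self]
      have hzC : Cas (u ^ 2) M *ᵥ z = lam (u ^ 2) c • z := by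
        have e1 : Cas (u ^ 2) M * T = T * Cas (u ^ 2) M := by
          unfold Cas
          rw [add_mul, mul_add, Matrix.mul_assoc, ← hT.e, ← Matrix.mul_assoc, ← hT.f,
            Matrix.mul_assoc]
          congr 1
          ext i j
          rw [diagonal_mul, mul_diagonal]
          by_cases hij : T i j = 0
          · rw [hij]; ring
          · rw [hTw i j hij]; ring
        rw [hz, mulVec_sub, mulVec_mulVec, e1, ← mulVec_mulVec, hC, mulVec_smul, mulVec_smul, hC,
          smul_sub, smul_comm]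
      by_cases hz0 : z = 0
      · exact sub_eq_zero.1 hz0
      exfalso
      have hμ0 : 0 ≤ μ := by
        by_contra hneg
        exact hz0 (hw_neg hu hM hzw hzE (by omega))
      have hc1 := hhw μ z hzw hzE hzC hz0
      have hlam : lam (u ^ 2) (μ + 1) = lam (u ^ 2) c := by
        rcases hc1 with h1 | h1
        · rw [h1]
        · rw [h1, lam_neg]
      have hF : M.F *ᵥ (M.E *ᵥ x) = 0 := by
        have e1 := Cas_vec (v := u ^ 2) hx
        rw [hC, hlam] at e1
        have e2 : M.F *ᵥ (M.E *ᵥ x) + lam (u ^ 2) c • x = 0 + lam (u ^ 2) c • x := by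
          rw [← e1, zero_add]
        exact add_right_cancel e2
      exact h0 (lw_pos hu hM (wt_E hM hx) hF (by omega))
  intro c hc y hy
  rw [sum_comp M y, mulVec_sum, smul_sum]
  refine sum_congr rfl fun μ _ => ?_
  refine key c hc (B - μ).toNat μ _ (Int.self_le_toNat _) (comp_wt M μ y) ?_
  rw [comp_mulVec (fun i j => Cas_wt hM), hy]
  funext i
  by_cases h : M.wt i = μ
  · simp [comp, h]
  · simp [comp, h]

end Pool.Agent.Q191.FT
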