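import Pool.Agent.Q191.FT.Step

/-!
# Full twists: the induction step for the action on the eigenspaces of the Casimir operator
-/

set_option autoImplicit false

namespace Pool.Agent.Q191.FT

open Matrix Finset
open scoped Kronecker
open Pool.Agent.H550R3.Jones (WM IsMod IsInt Gen br brf tens irr nb R Rh Rhi crossP crossN)
open Pool.Agent.H897R.J (HasWt gen_br gen_v br_neg br_zero wt_F)

variable {ι κ : Type} [Fintype ι] [DecidableEq ι] [Fintype κ] [DecidableEq κ]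

/-- the eigenspaces of the Casimir operator -/
noncomputable abbrev CS (v : ℂ) (M : WM ι) (l : ℂ) : Submodule ℂ (ι → ℂ) :=
  Module.End.eigenspace (Matrix.toLin' (Cas v M)) l

theorem mem_CS {v : ℂ} {M : WM ι} {l : ℂ} {x : ι → ℂ} : x ∈ CS v M l ↔ Cas v M *ᵥ x = l • x := by
  rw [CS, Module.End.mem_eigenspace_iff, toLin'_apply]

/-- the Newton nodes -/
noncomputable def nu (v : ℂ) (μ : ℤ) (j : ℕ) : ℂ := lam v (μ + 1 + 2 * j)

theorem nu_inj {u : ℂ} (hu : Gen u) {μ : ℤ} (hμ : 0 ≤ μ) : Function.Injective (nu (u ^ 2) μ) := by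
  intro i j h
  by_contra hij
  exact lam_ne hu (a := μ + 1 + 2 * i) (b := μ + 1 + 2 * j) (by omega) (by omega)
    ⟨(i : ℤ) - j, by ring⟩ h

/-- the Newton sequence -/
noncomputable def GG (M : WM ι) (x : ι → ℂ) (l : ℕ) : ι → ℂ := M.F ^ l *ᵥ (M.E ^ l *ᵥ x)

theorem sum_GG {u : ℂ} (hu : Gen u) {M : WM ι} {μ : ℤ} (hμ : 0 ≤ μ)
    (x : ι → ℂ) (L : ℕ) : ∑ i ∈ range (L + 1), yy (nu (u ^ 2) μ) (GG M x) L i = x := by
  rw [sum_yy (nu_inj hu hμ).injOn]
  simp [GG]

theorem Cas_yy {u : ℂ} (hu : Gen u) {M : WM ι} (hM : IsMod (u ^ 2) M) {μ : ℤ} (hμ : 0 ≤ μ)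
    {x : ι → ℂ} (hx : HasWt M μ x) {L : ℕ} (hL : M.E ^ (L + 1) *ᵥ x = 0) {i : ℕ} (hi : i ≤ L) :
    Cas (u ^ 2) M *ᵥ yy (nu (u ^ 2) μ) (GG M x) L i =
      lam (u ^ 2) (μ + 1 + 2 * i) • yy (nu (u ^ 2) μ) (GG M x) L i := by
  have h := C_yy (nu_inj hu hμ).injOn (G := GG M x) (Matrix.toLin' (Cas (u ^ 2) M))
    (L := L) (by
      intro l _
      rw [toLin'_apply]
      exact Cas_G (gen_v hu) hM hx l) (by
      unfold GG
      rw [hL, mulVec_zero]) hi
  rw [toLin'_apply] at h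
  exact h

theorem span_nonneg {u : ℂ} (hu : Gen u) {M : WM ι} (hM : IsMod (u ^ 2) M) {μ : ℤ} (hμ : 0 ≤ μ)
    {x : ι → ℂ} (hx : HasWt M μ x) : x ∈ ⨆ l, CS (u ^ 2) M l := by
  obtain ⟨L, hL⟩ := E_nil hM hx
  have hL1 : M.E ^ (L + 1) *ᵥ x = 0 := by
    rw [pow_succ', ← mulVec_mulVec, hL, mulVec_zero]
  rw [← sum_GG hu hμ x L (M := M)]
  refine Submodule.sum_mem _ fun i hi => ?_
  rw [mem_range] at hi
  exact Submodule.mem_iSup_of_mem _ (mem_CS.2 (Cas_yy hu hM hμ hx hL1 (by omega)))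

theorem span_all {u : ℂ} (hu : Gen u) {M : WM ι} (hM : IsMod (u ^ 2) M) (x : ι → ℂ) :
    x ∈ ⨆ l, CS (u ^ 2) M l := by
  rw [sum_comp M x]
  refine Submodule.sum_mem _ fun μ _ => ?_
  rcases le_total 0 μ with h | h
  · exact span_nonneg hu hM h (comp_wt M μ x)
  · have h1 := span_nonneg hu (dual_mod hM) (μ := -μ) (by omega)
      (HasWt_dual.2 (by rw [neg_neg]; exact comp_wt M μ x))
    unfold CS at h1 ⊢
    rwa [Cas_dual (gen_v hu) hM] at h1

/-- the eigenvalues of the Casimir operator -/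
theorem eig_val {u : ℂ} (hu : Gen u) {M : WM ι} (hM : IsMod (u ^ 2) M) {p : ℤ}
    (hp : ∀ i, (2 : ℤ) ∣ M.wt i - p) {l : ℂ} {x : ι → ℂ} (hx0 : x ≠ 0)
    (hx : Cas (u ^ 2) M *ᵥ x = l • x) :
    ∃ a : ℤ, 0 ≤ a ∧ (2 : ℤ) ∣ a - (p + 1) ∧ l = lam (u ^ 2) a := by
  -- a weight component
  obtain ⟨μ, hμ⟩ : ∃ μ, comp M μ x ≠ 0 := by
    by_contra h
    push Not at h
    apply hx0
    rw [sum_comp M x]
    exact sum_eq_zero fun μ _ => h μ
  have hw := comp_wt M μ x
  have hC : Cas (u ^ 2) M *ᵥ comp M μ x = l • comp M μ x := by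
    rw [comp_mulVec (fun i j => Cas_wt hM), hx]
    funext i
    by_cases h : M.wt i = μ
    · simp [comp, h]
    · simp [comp, h]
  -- a highest weight vector
  obtain ⟨n, hn⟩ := E_nil hM hw
  classical
  have hex : ∃ n, M.E ^ n *ᵥ comp M μ x = 0 := ⟨n, hn⟩
  have h1 := Nat.find_spec hex
  have h2 : Nat.find hex ≠ 0 := by
    intro h0
    rw [h0] at h1
    exact hμ (by simpa using h1)
  obtain ⟨m, hm⟩ : ∃ m, Nat.find hex = m + 1 := ⟨Nat.find hex - 1, by omega⟩
  have h3 : M.E ^ m *ᵥ comp M μ x ≠ 0 := Nat.find_min hex (by omega)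
  rw [hm, pow_succ', ← mulVec_mulVec] at h1
  set z := M.E ^ m *ᵥ comp M μ x with hz
  have hzw : HasWt M (μ + 2 * m) z := wt_Epow hM hw m
  have hzC : Cas (u ^ 2) M *ᵥ z = l • z := by
    rw [hz, mulVec_mulVec, Cas_Epow (gen_v hu) hM, ← mulVec_mulVec, hC, mulVec_smul]
  have h4 := Cas_vec (v := u ^ 2) hzw
  rw [h1, mulVec_zero, zero_add, hzC] at h4
  have h5 : (l - lam (u ^ 2) (μ + 2 * m + 1)) • z = 0 := by rw [sub_smul, h4, sub_self]
  have h6 := (smul_eq_zero.mp h5).resolve_right h3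
  obtain ⟨i, hi⟩ : ∃ i, comp M μ x i ≠ 0 := by
    by_contra hh
    push Not at hh
    exact hμ (funext hh)
  obtain ⟨k, hk⟩ := hp i
  rw [hw i hi] at hk
  refine ⟨μ + 2 * m + 1, ?_, ⟨k + m, by linarith⟩, sub_eq_zero.1 h6⟩
  by_contra hneg
  exact h3 (hw_neg hu hM hzw h1 (by omega))

/-- the eigenspaces of `C ⊗ 1` -/
theorem span_tens {u : ℂ} (hu : Gen u) {M : WM ι} (hM : IsMod (u ^ 2) M) :
    ⨆ l, Module.End.eigenspace (Matrix.toLin' (Cas (u ^ 2) M ⊗ₖ (1 : Matrix κ κ ℂ))) l = ⊤ := by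
  rw [eq_top_iff]
  intro y _
  -- `x ↦ x ⊗ e_k`
  let J : κ → (ι → ℂ) →ₗ[ℂ] (ι × κ → ℂ) := fun k =>
    { toFun := fun x p => if p.2 = k then x p.1 else 0
      map_add' := by
        intro x x'
        funext p
        simp only [Pi.add_apply]
        split_ifs <;> simp
      map_smul' := by
        intro c x
        funext p
        simp only [Pi.smul_apply, RingHom.id_apply]
        split_ifs <;> simp }
  have hy : y = ∑ k, J k (fun i => y (i, k)) := by
    funext p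
    rw [Finset.sum_apply, sum_eq_single p.2]
    · show y p = if p.2 = p.2 then y (p.1, p.2) else 0
      rw [if_pos rfl]
    · intro k _ hk
      show (if p.2 = k then y (p.1, k) else 0) = 0
      rw [if_neg (fun h => hk h.symm)]
    · intro h; exact absurd (mem_univ _) h
  rw [hy]
  refine Submodule.sum_mem _ fun k _ => ?_
  have h1 := span_all hu hM (fun i => y (i, k))
  have h2 : ⨆ l, CS (u ^ 2) M l ≤ (⨆ l, Module.End.eigenspace
      (Matrix.toLin' (Cas (u ^ 2) M ⊗ₖ (1 : Matrix κ κ ℂ))) l).comap (J k) := by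
    refine iSup_le fun l x hx => ?_
    refine Submodule.mem_iSup_of_mem l ?_
    rw [Module.End.mem_eigenspace_iff, toLin'_apply]
    rw [mem_CS] at hx
    funext p
    obtain ⟨i, k'⟩ := p
    rw [kron_one_vec]
    by_cases hk : k' = k
    · have e : (fun i' => J k x (i', k')) = x := by
        funext i'
        show (if k' = k then x i' else 0) = x i'
        rw [if_pos hk]
      rw [e, hx]
      show l • x i = l • (if k' = k then x i else 0)
      rw [if_pos hk]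
    · have e : (fun i' => J k x (i', k')) = 0 := by
        funext i'
        show (if k' = k then x i' else 0) = 0
        rw [if_neg hk]
      rw [e, mulVec_zero]
      show (0 : ℂ) = l • (if k' = k then x i else 0)
      rw [if_neg hk, smul_zero]
  exact h2 h1

/-- the Casimir operator of an irreducible module is a scalar -/
theorem Cas_irr {v : ℂ} (hv : v ≠ 0) (N : ℕ) :
    Cas v (irr v N) = lam v N • (1 : Matrix (Fin N) (Fin N) ℂ) := by
  ext i j
  unfold Cas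
  rw [Matrix.add_apply, mul_apply, Matrix.smul_apply, smul_eq_mul, diagonal_apply, one_apply]
  by_cases hi : (i : ℕ) = 0
  · -- the highest weight vector
    have h0 : ∑ k, (irr v N).F i k * (irr v N).E k j = 0 := by
      refine sum_eq_zero fun k _ => ?_
      have : (irr v N).F i k = 0 := by
        unfold irr
        simp only
        rw [if_neg (by omega)]
      rw [this, zero_mul]
    rw [h0, zero_add]
    split_ifs with h
    · have : (irr v N).wt i + 1 = N := by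
        unfold irr
        simp only
        rw [hi]; push_cast; ring
      rw [this, mul_one]
    · rw [mul_zero]
  · obtain ⟨m, hm⟩ : ∃ m, (i : ℕ) = m + 1 := ⟨(i : ℕ) - 1, by omega⟩
    have hmN : m < N := by have := i.2; omega
    rw [sum_eq_single (⟨m, hmN⟩ : Fin N)]
    · have e1 : (irr v N).F i ⟨m, hmN⟩ = br v ((i : ℕ) : ℤ) := by
        unfold irr
        simp only
        rw [if_pos hm]
      have e2 : (irr v N).E ⟨m, hmN⟩ j = if i = j then br v ((N : ℤ) - (i : ℕ)) else 0 := by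
        unfold irr
        simp only
        by_cases h : i = j
        · rw [if_pos h, if_pos (by rw [← h]; exact hm), h]
        · rw [if_neg h, if_neg (fun h' => h (Fin.ext (by omega)))]
      rw [e1, e2]
      split_ifs with h
      · have h3 := lam_sub hv ((i : ℕ) : ℤ) ((N : ℤ) - (i : ℕ))
        have e3 : ((i : ℕ) : ℤ) + ((N : ℤ) - (i : ℕ)) = N := by ring
        have e4 : (irr v N).wt i + 1 = -(((i : ℕ) : ℤ) - ((N : ℤ) - (i : ℕ))) := by
          unfold irr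
          simp only
          ring
        rw [e4, lam_neg, ← h3, e3]
        ring
      · simp
    · intro k _ hk
      have : (irr v N).F i k = 0 := by
        unfold irr
        simp only
        rw [if_neg (fun h => hk (Fin.ext (by simp only; omega)))]
      rw [this, zero_mul]
    · intro h; exact absurd (mem_univ _) h

/-- the induction step: adding one strand -/
theorem rib_step {u : ℂ} (hu : Gen u) {N : ℕ} {M : WM ι} (hM : IsMod (u ^ 2) M) {p t s : ℤ}
    (hp : ∀ i, (2 : ℤ) ∣ M.wt i - p) {T : Matrix ι ι ℂ} (hT : IsInt M M T) (hR : Rib u M T s p t)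
    {J : Matrix (ι × Fin N) (ι × Fin N) ℂ}
    (hJ : IsInt (tens (u ^ 2) M (irr (u ^ 2) N)) (tens (u ^ 2) M (irr (u ^ 2) N)) J)
    (hJs : ∀ (c a : ℤ) (y : ι × Fin N → ℂ), 0 ≤ a → (2 : ℤ) ∣ a - (p + 1) →
      HasWt (tens (u ^ 2) M (irr (u ^ 2) N)) (c - 1) y →
      (tens (u ^ 2) M (irr (u ^ 2) N)).E *ᵥ y = 0 →
      (Cas (u ^ 2) M ⊗ₖ (1 : Matrix (Fin N) (Fin N) ℂ)) *ᵥ y = lam (u ^ 2) a • y →
      J *ᵥ y = u ^ (s * (c ^ 2 + 1 - a ^ 2 - N ^ 2)) • y) :
    IsInt (tens (u ^ 2) M (irr (u ^ 2) N)) (tens (u ^ 2) M (irr (u ^ 2) N)) (tstep T J) ∧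
    Rib u (tens (u ^ 2) M (irr (u ^ 2) N)) (tstep T J) s (p + (N - 1)) (t + (N ^ 2 - 1)) := by
  have hv := gen_v hu
  set V := irr (u ^ 2) N with hV
  set P := tens (u ^ 2) M V with hP
  have hPm : IsMod (u ^ 2) P :=
    Pool.Agent.H345J.tens_mod hv hM (Pool.Agent.H345J.irr_mod hv N)
  have hTw : ∀ i j, T i j ≠ 0 → M.wt i = M.wt j := hT.k
  -- `T ⊗ 1` is a homomorphism
  have hT1 : IsInt P P (T ⊗ₖ (1 : Matrix (Fin N) (Fin N) ℂ)) := by
    refine ⟨?_, ?_, ?_⟩
    · change _ * (M.E ⊗ₖ V.K (u ^ 2) 1 + (1 : Matrix ι ι ℂ) ⊗ₖ V.E) =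
        (M.E ⊗ₖ V.K (u ^ 2) 1 + (1 : Matrix ι ι ℂ) ⊗ₖ V.E) * _
      rw [mul_add, add_mul, ← mul_kronecker_mul, ← mul_kronecker_mul, ← mul_kronecker_mul,
        ← mul_kronecker_mul, hT.e, one_mul, one_mul, mul_one, mul_one, mul_one, one_mul]
    · change _ * (M.F ⊗ₖ (1 : Matrix (Fin N) (Fin N) ℂ) + M.K (u ^ 2) (-1) ⊗ₖ V.F) =
        (M.F ⊗ₖ (1 : Matrix (Fin N) (Fin N) ℂ) + M.K (u ^ 2) (-1) ⊗ₖ V.F) * _
      have hK : T * M.K (u ^ 2) (-1) = M.K (u ^ 2) (-1) * T := by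
        unfold WM.K
        ext i j
        rw [mul_diagonal, diagonal_mul]
        by_cases h : T i j = 0
        · rw [h]; ring
        · rw [hTw i j h]; ring
      rw [mul_add, add_mul, ← mul_kronecker_mul, ← mul_kronecker_mul, ← mul_kronecker_mul,
        ← mul_kronecker_mul, hT.f, hK, one_mul, mul_one, one_mul]
    · rintro ⟨i, k⟩ ⟨j, l⟩ h
      rw [kroneckerMap_apply] at h
      have h1 := hTw i j (left_ne_zero_of_mul h)
      have h2 : k = l := by
        by_contra hkl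
        exact h (by rw [one_apply_ne hkl, mul_zero])
      change M.wt i + V.wt k = M.wt j + V.wt l
      rw [h1, h2]
  have hint : IsInt P P (tstep T J) := by
    unfold tstep
    refine ⟨?_, ?_, ?_⟩
    · rw [Matrix.mul_assoc, hJ.e, ← Matrix.mul_assoc, hT1.e, Matrix.mul_assoc]
    · rw [Matrix.mul_assoc, hJ.f, ← Matrix.mul_assoc, hT1.f, Matrix.mul_assoc]
    · intro i j h
      rw [mul_apply] at h
      obtain ⟨k, _, hk⟩ := exists_ne_zero_of_sum_ne_zero h
      rw [hT1.k i k (left_ne_zero_of_mul hk), hJ.k k j (right_ne_zero_of_mul hk)]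
  refine ⟨hint, ?_⟩
  refine rib_of_hw hu hPm hint ?_ ?_
  · rintro ⟨i, k⟩
    obtain ⟨c, hc⟩ := hp i
    refine ⟨c - (k : ℕ), ?_⟩
    change M.wt i + ((N : ℤ) - 1 - 2 * (k : ℕ)) - _ = _
    linarith
  intro c y hyw hyE
  -- the submodule of highest weight vectors
  let S : Submodule ℂ (ι × Fin N → ℂ) :=
    { carrier := {y | HasWt P (c - 1) y ∧ P.E *ᵥ y = 0}
      add_mem' := by
        rintro a b ⟨ha1, ha2⟩ ⟨hb1, hb2⟩
        refine ⟨?_, by rw [mulVec_add, ha2, hb2, add_zero]⟩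
        intro i hi
        by_contra hcon
        apply hi
        rw [Pi.add_apply]
        have e1 : a i = 0 := by by_contra hh; exact hcon (ha1 i hh)
        have e2 : b i = 0 := by by_contra hh; exact hcon (hb1 i hh)
        rw [e1, e2, add_zero]
      zero_mem' := ⟨fun i hi => absurd rfl hi, mulVec_zero _⟩
      smul_mem' := by
        rintro r a ⟨ha1, ha2⟩
        exact ⟨Pool.Agent.Q191.FT.HasWt.smul ha1 r, by rw [mulVec_smul, ha2, smul_zero]⟩ }
  set f : Module.End ℂ (ι × Fin N → ℂ) :=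
    Matrix.toLin' (Cas (u ^ 2) M ⊗ₖ (1 : Matrix (Fin N) (Fin N) ℂ)) with hf
  have hCE : (Cas (u ^ 2) M ⊗ₖ (1 : Matrix (Fin N) (Fin N) ℂ)) * P.E =
      P.E * (Cas (u ^ 2) M ⊗ₖ (1 : Matrix (Fin N) (Fin N) ℂ)) := by
    change _ * (M.E ⊗ₖ V.K (u ^ 2) 1 + (1 : Matrix ι ι ℂ) ⊗ₖ V.E) =
        (M.E ⊗ₖ V.K (u ^ 2) 1 + (1 : Matrix ι ι ℂ) ⊗ₖ V.E) * _
    rw [mul_add, add_mul, ← mul_kronecker_mul, ← mul_kronecker_mul, ← mul_kronecker_mul,
        ← mul_kronecker_mul, Cas_E hv hM, one_mul, one_mul, mul_one, mul_one, mul_one, one_mul]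
  have hfS : ∀ x ∈ S, f x ∈ S := by
    rintro x ⟨hx1, hx2⟩
    refine ⟨?_, ?_⟩
    · intro i hi
      rw [hf, toLin'_apply, mulVec, dotProduct] at hi
      obtain ⟨⟨j, l⟩, _, hj⟩ := exists_ne_zero_of_sum_ne_zero hi
      obtain ⟨i, k⟩ := i
      have g1 := left_ne_zero_of_mul hj
      have g2 := hx1 (j, l) (right_ne_zero_of_mul hj)
      rw [kroneckerMap_apply] at g1
      have g3 := Cas_wt hM (left_ne_zero_of_mul g1)
      have g4 : k = l := by
        by_contra hkl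
        exact g1 (by rw [one_apply_ne hkl, mul_zero])
      change M.wt i + V.wt k = c - 1
      change M.wt j + V.wt l = c - 1 at g2
      rw [g3, g4, g2]
    · rw [hf, toLin'_apply, mulVec_mulVec, ← hCE, ← mulVec_mulVec, hx2, mulVec_zero]
  have hdec := Submodule.inf_iSup_genEigenspace hfS 1
  have htop : (⨆ μ, f.genEigenspace μ (1 : ℕ∞)) = ⊤ := span_tens hu hM
  rw [htop, inf_top_eq] at hdec
  have hyS : y ∈ S := ⟨hyw, hyE⟩
  rw [hdec] at hyS
  refine Submodule.iSup_induction (p := fun μ => S ⊓ f.genEigenspace μ (1 : ℕ∞))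
    (motive := fun y => tstep T J *ᵥ y = u ^ (s * (c ^ 2 - 1 - (t + (N ^ 2 - 1)))) • y) hyS
    ?_ ?_ ?_
  · rintro l x ⟨⟨hx1, hx2⟩, hx3⟩
    by_cases hx0 : x = 0
    · rw [hx0, mulVec_zero, smul_zero]
    have hx4 : (Cas (u ^ 2) M ⊗ₖ (1 : Matrix (Fin N) (Fin N) ℂ)) *ᵥ x = l • x := by
      have h1 : x ∈ f.eigenspace l := hx3
      rw [Module.End.mem_eigenspace_iff, hf, toLin'_apply] at h1
      exact h1
    -- slices
    have hsl : ∀ k, Cas (u ^ 2) M *ᵥ (fun i => x (i, k)) = l • fun i => x (i, k) := by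
      intro k
      funext i
      have h1 := congrFun hx4 (i, k)
      rw [kron_one_vec] at h1
      exact h1
    obtain ⟨k, hk⟩ : ∃ k, (fun i => x (i, k)) ≠ 0 := by
      by_contra h
      push Not at h
      apply hx0
      funext q
      exact congrFun (h q.2) q.1
    obtain ⟨a, ha0, hap, hal⟩ := eig_val hu hM hp hk (hsl k)
    rw [hal] at hx4
    have hJx := hJs c a x ha0 hap hx1 hx2 hx4
    have hTx : (T ⊗ₖ (1 : Matrix (Fin N) (Fin N) ℂ)) *ᵥ x = u ^ (s * (a ^ 2 - 1 - t)) • x := by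
      funext q
      obtain ⟨i, k⟩ := q
      rw [kron_one_vec, Pi.smul_apply]
      have h1 := hR a hap (fun i => x (i, k)) (by rw [hsl k, hal])
      exact congrFun h1 i
    unfold tstep
    rw [← mulVec_mulVec, hJx, mulVec_smul, hTx, smul_smul, ← zpow_add₀ hu.1]
    congr 2
    ring
  · rw [mulVec_zero, smul_zero]
  · intro x y hx hy
    rw [mulVec_add, hx, hy, smul_add]

end Pool.Agent.Q191.FT
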