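import Pool.Agent.Q191.FT.Step2

/-!
# Full twists on tensor powers
-/

set_option autoImplicit false

namespace Pool.Agent.Q191.FT

open Matrix Finset
open scoped Kronecker
open Pool.Agent.H550R3.Jones (WM IsMod IsInt Gen br brf tens irr nb R Rh Rhi crossP crossN)
open Pool.Agent.H897R.J (HasWt gen_br gen_v br_neg br_zero wt_F)

/-- states of `k` strands -/
def Tp (N : ℕ) : ℕ → Type
  | 0 => Unit
  | k + 1 => Tp N k × Fin N

instance fintypeTp (N : ℕ) : ∀ k, Fintype (Tp N k)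
  | 0 => inferInstanceAs (Fintype Unit)
  | k + 1 => @instFintypeProd _ _ (fintypeTp N k) _

instance decTp (N : ℕ) : ∀ k, DecidableEq (Tp N k)
  | 0 => inferInstanceAs (DecidableEq Unit)
  | k + 1 => @instDecidableEqProd _ _ (decTp N k) _

/-- the trivial module -/
def triv : WM Unit := ⟨fun _ => 0, 0, 0⟩

/-- the tensor power of the irreducible module of dimension `N` -/
noncomputable def MM (v : ℂ) (N : ℕ) : (k : ℕ) → WM (Tp N k)
  | 0 => triv
  | k + 1 => tens v (MM v N k) (irr v N)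

/-- the last of `k + 1` strands runs around the others -/
def Jop {N : ℕ} (A : Matrix (Fin N × Fin N) (Fin N × Fin N) ℂ) : (k : ℕ) →
    Matrix (Tp N k × Fin N) (Tp N k × Fin N) ℂ
  | 0 => 1
  | k + 1 => jstep A (Jop A k)

/-- the full twist of `k` strands -/
def TT {N : ℕ} (A : Matrix (Fin N × Fin N) (Fin N × Fin N) ℂ) : (k : ℕ) →
    Matrix (Tp N k) (Tp N k) ℂ
  | 0 => 1
  | k + 1 => tstep (TT A k) (Jop A k)

theorem triv_mod {v : ℂ} : IsMod v triv where
  hE i j h := absurd rfl h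
  hF i j h := absurd rfl h
  comm := by
    ext i j
    simp [triv, br_zero]

theorem MM_mod {v : ℂ} (hv : v ≠ 0) (N : ℕ) : ∀ k, IsMod v (MM v N k)
  | 0 => triv_mod
  | k + 1 => Pool.Agent.H345J.tens_mod hv (MM_mod hv N k) (Pool.Agent.H345J.irr_mod hv N)

theorem MM_wt (v : ℂ) (N : ℕ) : ∀ k (i : Tp N k), |(MM v N k).wt i| ≤ k * N ∧
    (2 : ℤ) ∣ (MM v N k).wt i - k * ((N : ℤ) - 1)
  | 0, i => by
    change |(0 : ℤ)| ≤ _ ∧ (2 : ℤ) ∣ (0 : ℤ) - _
    simp
  | k + 1, i => by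
    obtain ⟨h1, h2⟩ := MM_wt v N k i.1
    have h3 : (MM v N (k + 1)).wt i = (MM v N k).wt i.1 + ((N : ℤ) - 1 - 2 * (i.2 : ℕ)) := rfl
    have h4 := i.2.2
    rw [abs_le] at h1
    constructor
    · rw [h3, abs_le]
      push_cast
      constructor <;> nlinarith [h1.1, h1.2]
    · rw [h3]
      obtain ⟨c, hc⟩ := h2
      exact ⟨c - (i.2 : ℕ), by push_cast; linarith⟩

/-! ### The operator `Jop` is a double braiding -/

variable {κ : Type} [Fintype κ] [DecidableEq κ]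

theorem R_triv_left (u : ℂ) (V : WM κ) : R u triv V = 1 := by
  unfold R
  have e1 : (diagonal fun p : Unit × κ => u ^ (triv.wt p.1 * V.wt p.2)) = 1 := by
    rw [← diagonal_one]
    congr 1
    funext p
    simp [triv]
  rw [e1, one_mul, sum_eq_single 0]
  · simp [brf]
  · intro n _ hn
    have : triv.E ^ n = 0 := zero_pow hn
    rw [this, zero_kronecker, smul_zero]
  · intro h
    exact absurd (mem_range.2 (Nat.succ_pos _)) h

theorem R_triv_right (u : ℂ) (V : WM κ) : R u V triv = 1 := by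
  unfold R
  have e1 : (diagonal fun p : κ × Unit => u ^ (V.wt p.1 * triv.wt p.2)) = 1 := by
    rw [← diagonal_one]
    congr 1
    funext p
    simp [triv]
  rw [e1, one_mul, sum_eq_single 0]
  · simp [brf]
  · intro n _ hn
    have : triv.F ^ n = 0 := zero_pow hn
    rw [this, kronecker_zero, smul_zero]
  · intro h
    exact absurd (mem_range.2 (Nat.succ_pos _)) h

theorem J_zero (u : ℂ) (V : WM κ) : Rh u V triv * Rh u triv V = 1 := by
  have h1 := R_triv_left u V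
  have h2 := R_triv_right u V
  ext p q
  rw [mul_apply, sum_eq_single p.swap]
  · have e1 : Rh u V triv p p.swap = 1 := by
      change R u V triv p.swap p.swap = 1
      rw [h2, one_apply_eq]
    rw [e1, one_mul]
    change R u triv V p.swap.swap q = _
    rw [h1, Prod.swap_swap]
  · intro r _ hr
    have e1 : Rh u V triv p r = 0 := by
      change R u V triv p.swap r = 0
      rw [h2, one_apply_ne (fun h => hr h.symm)]
    rw [e1, zero_mul]
  · intro h; exact absurd (mem_univ _) h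

theorem Jop_braid {u : ℂ} (hu : Gen u) (N : ℕ) : ∀ k,
    Jop (Rh u (irr (u ^ 2) N) (irr (u ^ 2) N)) k =
      Rh u (irr (u ^ 2) N) (MM (u ^ 2) N k) * Rh u (MM (u ^ 2) N k) (irr (u ^ 2) N)
  | 0 => (J_zero u (irr (u ^ 2) N)).symm
  | k + 1 => by
    have hv := gen_v hu
    have ih := Jop_braid hu N k
    change jstep (Rh u (irr (u ^ 2) N) (irr (u ^ 2) N)) (Jop (Rh u (irr (u ^ 2) N) (irr (u ^ 2) N)) k)
      = _
    rw [ih]
    exact D_step hu (MM_mod hv N k) (Pool.Agent.H345J.irr_mod hv N)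

theorem Jop_braid_inv {u : ℂ} (hu : Gen u) (N : ℕ) : ∀ k,
    Jop (Rhi u (irr (u ^ 2) N) (irr (u ^ 2) N)) k =
      Rhi u (MM (u ^ 2) N k) (irr (u ^ 2) N) * Rhi u (irr (u ^ 2) N) (MM (u ^ 2) N k)
  | 0 => by
    have hv := gen_v hu
    set V := irr (u ^ 2) N with hV
    have hVm : IsMod (u ^ 2) V := Pool.Agent.H345J.irr_mod hv N
    have i1 := Pool.Agent.H345J.taskInv u hu Unit (Fin N) triv V triv_mod hVm
    have i2 := Pool.Agent.H345J.taskInv u hu (Fin N) Unit V triv hVm triv_mod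
    have h1 : (Rhi u triv V * Rhi u V triv) * (Rh u V triv * Rh u triv V) = 1 := by
      rw [Matrix.mul_assoc, ← Matrix.mul_assoc (Rhi u V triv), i2.1, Matrix.one_mul, i1.1]
    rw [J_zero, Matrix.mul_one] at h1
    exact h1.symm
  | k + 1 => by
    have hv := gen_v hu
    have ih := Jop_braid_inv hu N k
    change jstep (Rhi u (irr (u ^ 2) N) (irr (u ^ 2) N)) (Jop (Rhi u (irr (u ^ 2) N) (irr (u ^ 2) N)) k)
      = _
    rw [ih]
    exact Di_step hu (MM_mod hv N k) (Pool.Agent.H345J.irr_mod hv N)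

theorem int_comp {ι κ μ : Type} [Fintype ι] [Fintype κ] [Fintype μ] {M : WM ι} {M' : WM κ}
    {M'' : WM μ} {A : Matrix μ κ ℂ} {B : Matrix κ ι ℂ} (hA : IsInt M' M'' A) (hB : IsInt M M' B) :
    IsInt M M'' (A * B) := by
  refine ⟨?_, ?_, ?_⟩
  · rw [Matrix.mul_assoc, hB.e, ← Matrix.mul_assoc, hA.e, Matrix.mul_assoc]
  · rw [Matrix.mul_assoc, hB.f, ← Matrix.mul_assoc, hA.f, Matrix.mul_assoc]
  · intro i j h
    rw [mul_apply] at h
    obtain ⟨k, _, hk⟩ := exists_ne_zero_of_sum_ne_zero h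
    rw [hA.k i k (left_ne_zero_of_mul hk), hB.k k j (right_ne_zero_of_mul hk)]

theorem int_inv {ι κ : Type} [Fintype ι] [DecidableEq ι] [Fintype κ] [DecidableEq κ]
    {M : WM ι} {M' : WM κ} {A : Matrix κ ι ℂ} {B : Matrix ι κ ℂ}
    (hA : IsInt M M' A) (h1 : B * A = 1) (h2 : A * B = 1) (hk : ∀ i j, B i j ≠ 0 → M.wt i = M'.wt j) :
    IsInt M' M B := by
  refine ⟨?_, ?_, hk⟩
  · calc B * M'.E = B * M'.E * (A * B) := by rw [h2, Matrix.mul_one]
      _ = B * (M'.E * A) * B := by simp only [Matrix.mul_assoc]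
      _ = B * (A * M.E) * B := by rw [← hA.e]
      _ = (B * A) * (M.E * B) := by simp only [Matrix.mul_assoc]
      _ = M.E * B := by rw [h1, Matrix.one_mul]
  · calc B * M'.F = B * M'.F * (A * B) := by rw [h2, Matrix.mul_one]
      _ = B * (M'.F * A) * B := by simp only [Matrix.mul_assoc]
      _ = B * (A * M.F) * B := by rw [← hA.f]
      _ = (B * A) * (M.F * B) := by simp only [Matrix.mul_assoc]
      _ = M.F * B := by rw [h1, Matrix.one_mul]

/-- the inverse braiding is a homomorphism -/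
theorem int_Rhi {ι κ : Type} [Fintype ι] [DecidableEq ι] [Fintype κ] [DecidableEq κ] {u : ℂ}
    (hu : Gen u) {M : WM ι} {V : WM κ} (hM : IsMod (u ^ 2) M) (hV : IsMod (u ^ 2) V) :
    IsInt (tens (u ^ 2) V M) (tens (u ^ 2) M V) (Rhi u M V) := by
  have h := Pool.Agent.H345J.taskInt u hu ι κ M V hM hV
  have hi := Pool.Agent.H345J.taskInv u hu ι κ M V hM hV
  refine int_inv h hi.1 hi.2 ?_
  -- weights
  rintro ⟨i, k⟩ ⟨k', i'⟩ hne
  change (Pool.Agent.H550R3.Jones.Rinv u M V) (i, k) (i', k') ≠ 0 at hne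
  unfold Pool.Agent.H550R3.Jones.Rinv at hne
  rw [mul_diagonal, Matrix.sum_apply] at hne
  obtain ⟨n, _, hn⟩ := exists_ne_zero_of_sum_ne_zero (left_ne_zero_of_mul hne)
  rw [Matrix.smul_apply, kroneckerMap_apply] at hn
  have h1 := right_ne_zero_of_mul hn
  have e1 := Pool.Agent.H22R3.J.E_pow_wt hM n i i' (left_ne_zero_of_mul h1)
  have e2 : V.wt k + 2 * n = V.wt k' := by
    have h2 := right_ne_zero_of_mul h1
    have h3 := Pool.Agent.H22R3.J.E_pow_wt (dual_mod hV) n k k' h2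
    change -V.wt k = -V.wt k' + 2 * n at h3
    omega
  change M.wt i + V.wt k = V.wt k' + M.wt i'
  omega

/-- the trivial module -/
theorem triv_rib {u : ℂ} (hu : Gen u) (s : ℤ) :
    IsInt triv triv (1 : Matrix Unit Unit ℂ) ∧ Rib u triv (1 : Matrix Unit Unit ℂ) s 0 0 := by
  refine ⟨⟨?_, ?_, ?_⟩, ?_⟩
  · simp
  · simp
  · intro i j _; rfl
  · intro c hc y hy
    rw [one_mulVec]
    by_cases hy0 : y = 0
    · rw [hy0, smul_zero]
    have h1 : Cas (u ^ 2) triv *ᵥ y = lam (u ^ 2) 1 • y := by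
      have := Cas_vec (v := u ^ 2) (M := triv) (μ := 0) (x := y) (fun i _ => rfl)
      rw [this]
      simp [triv]
    rw [h1] at hy
    have h2 : (lam (u ^ 2) 1 - lam (u ^ 2) c) • y = 0 := by
      rw [sub_smul, hy, sub_self]
    have h3 := (smul_eq_zero.mp h2).resolve_right hy0
    have h4 : (1 : ℤ) = c ∨ (1 : ℤ) = -c := by
      by_contra hcon
      push Not at hcon
      obtain ⟨m, hm⟩ := hc
      exact lam_ne hu hcon.1 hcon.2 ⟨-m, by linarith⟩ (sub_eq_zero.1 h3)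
    have h5 : s * (c ^ 2 - 1 - 0) = 0 := by
      rcases h4 with h4 | h4
      · rw [← h4]; simp
      · have : c = -1 := by omega
        rw [this]; simp
    rw [h5, zpow_zero, one_smul]

/-- the full twists act on the eigenspaces of the Casimir operator by scalars -/
theorem TT_rib {u : ℂ} (hu : Gen u) (N : ℕ) : ∀ k,
    IsInt (MM (u ^ 2) N k) (MM (u ^ 2) N k) (TT (Rh u (irr (u ^ 2) N) (irr (u ^ 2) N)) k) ∧
    Rib u (MM (u ^ 2) N k) (TT (Rh u (irr (u ^ 2) N) (irr (u ^ 2) N)) k) 1 (k * ((N : ℤ) - 1))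
      (k * ((N : ℤ) ^ 2 - 1))
  | 0 => by
    have e1 : ((0 : ℕ) : ℤ) * ((N : ℤ) - 1) = 0 := by simp
    have e2 : ((0 : ℕ) : ℤ) * ((N : ℤ) ^ 2 - 1) = 0 := by simp
    rw [e1, e2]
    exact triv_rib hu 1
  | k + 1 => by
    have hv := gen_v hu
    obtain ⟨h1, h2⟩ := TT_rib hu N k
    have hM := MM_mod hv N k
    have hV : IsMod (u ^ 2) (irr (u ^ 2) N) := Pool.Agent.H345J.irr_mod hv N
    have hp : ∀ i, (2 : ℤ) ∣ (MM (u ^ 2) N k).wt i - k * ((N : ℤ) - 1) :=
      fun i => (MM_wt (u ^ 2) N k i).2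
    have hJ : IsInt (tens (u ^ 2) (MM (u ^ 2) N k) (irr (u ^ 2) N))
        (tens (u ^ 2) (MM (u ^ 2) N k) (irr (u ^ 2) N))
        (Rh u (irr (u ^ 2) N) (MM (u ^ 2) N k) * Rh u (MM (u ^ 2) N k) (irr (u ^ 2) N)) :=
      int_comp (Pool.Agent.H345J.taskInt u hu _ _ _ _ hV hM)
        (Pool.Agent.H345J.taskInt u hu _ _ _ _ hM hV)
    have h := rib_step hu hM hp h1 h2 hJ (by
      intro c a y ha hap hyw hyE hyC
      rw [one_mul]
      refine D_hw hu hM hV hyw hyE ha (Int.natCast_nonneg N) ?_ ?_ hyC ?_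
      · intro i
        obtain ⟨m, hm⟩ := hp i
        obtain ⟨m', hm'⟩ := hap
        exact ⟨m' - m, by linarith⟩
      · intro j
        refine ⟨(j : ℕ), ?_⟩
        change (N : ℤ) - (((N : ℤ) - 1 - 2 * (j : ℕ)) + 1) = _
        ring
      · rw [Cas_irr hv, kronecker_smul, one_kronecker_one, smul_mulVec, one_mulVec])
    rw [← Jop_braid hu N k] at h
    refine ⟨h.1, ?_⟩
    have h3 := h.2
    have e1 : (k : ℤ) * ((N : ℤ) - 1) + (N - 1) = ((k + 1 : ℕ) : ℤ) * ((N : ℤ) - 1) := by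
      push_cast; ring
    have e2 : (k : ℤ) * ((N : ℤ) ^ 2 - 1) + (N ^ 2 - 1) = ((k + 1 : ℕ) : ℤ) * ((N : ℤ) ^ 2 - 1) := by
      push_cast; ring
    rw [e1, e2] at h3
    exact h3

/-- the inverse full twists -/
theorem TT_rib_inv {u : ℂ} (hu : Gen u) (N : ℕ) : ∀ k,
    IsInt (MM (u ^ 2) N k) (MM (u ^ 2) N k) (TT (Rhi u (irr (u ^ 2) N) (irr (u ^ 2) N)) k) ∧
    Rib u (MM (u ^ 2) N k) (TT (Rhi u (irr (u ^ 2) N) (irr (u ^ 2) N)) k) (-1) (k * ((N : ℤ) - 1))
      (k * ((N : ℤ) ^ 2 - 1))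
  | 0 => by
    have e1 : ((0 : ℕ) : ℤ) * ((N : ℤ) - 1) = 0 := by simp
    have e2 : ((0 : ℕ) : ℤ) * ((N : ℤ) ^ 2 - 1) = 0 := by simp
    rw [e1, e2]
    exact triv_rib hu (-1)
  | k + 1 => by
    have hv := gen_v hu
    obtain ⟨h1, h2⟩ := TT_rib_inv hu N k
    have hM := MM_mod hv N k
    have hV : IsMod (u ^ 2) (irr (u ^ 2) N) := Pool.Agent.H345J.irr_mod hv N
    have hp : ∀ i, (2 : ℤ) ∣ (MM (u ^ 2) N k).wt i - k * ((N : ℤ) - 1) :=
      fun i => (MM_wt (u ^ 2) N k i).2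
    have hJ : IsInt (tens (u ^ 2) (MM (u ^ 2) N k) (irr (u ^ 2) N))
        (tens (u ^ 2) (MM (u ^ 2) N k) (irr (u ^ 2) N))
        (Rhi u (MM (u ^ 2) N k) (irr (u ^ 2) N) * Rhi u (irr (u ^ 2) N) (MM (u ^ 2) N k)) :=
      int_comp (int_Rhi hu hM hV) (int_Rhi hu hV hM)
    have h := rib_step hu hM hp h1 h2 hJ (by
      intro c a y ha hap hyw hyE hyC
      rw [neg_one_mul]
      refine Di_hw hu hM hV hyw hyE ha (Int.natCast_nonneg N) ?_ ?_ hyC ?_
      · intro i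
        obtain ⟨m, hm⟩ := hp i
        obtain ⟨m', hm'⟩ := hap
        exact ⟨m' - m, by linarith⟩
      · intro j
        refine ⟨(j : ℕ), ?_⟩
        change (N : ℤ) - (((N : ℤ) - 1 - 2 * (j : ℕ)) + 1) = _
        ring
      · rw [Cas_irr hv, kronecker_smul, one_kronecker_one, smul_mulVec, one_mulVec])
    rw [← Jop_braid_inv hu N k] at h
    refine ⟨h.1, ?_⟩
    have h3 := h.2
    have e1 : (k : ℤ) * ((N : ℤ) - 1) + (N - 1) = ((k + 1 : ℕ) : ℤ) * ((N : ℤ) - 1) := by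
      push_cast; ring
    have e2 : (k : ℤ) * ((N : ℤ) ^ 2 - 1) + (N ^ 2 - 1) = ((k + 1 : ℕ) : ℤ) * ((N : ℤ) ^ 2 - 1) := by
      push_cast; ring
    rw [e1, e2] at h3
    exact h3

end Pool.Agent.Q191.FT
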